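import Pool.Agent.W994.DE.Dag

/-!
# Pyramids, and the number of pebbles they need
-/

set_option autoImplicit false

namespace Pool.Agent.W994.DE

open Finset

/-- The nodes of the pyramid of height `h`: `(l, a)` is the node number `a` of level `l`;
level `l` has `h + 1 - l` nodes. -/
abbrev PyrNode (h : ℕ) : Type := {p : ℕ × ℕ // p.1 + p.2 ≤ h}

theorem pyrNode_inj (h : ℕ) : Function.Injective
    (fun p : PyrNode h => ((⟨p.1.1, by have := p.2; omega⟩, ⟨p.1.2, by have := p.2; omega⟩) :
      Fin (h + 1) × Fin (h + 1))) := by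
  intro p q hpq
  have h1 := congrArg (fun z : Fin (h + 1) × Fin (h + 1) => z.1.val) hpq
  have h2 := congrArg (fun z : Fin (h + 1) × Fin (h + 1) => z.2.val) hpq
  exact Subtype.ext (Prod.ext h1 h2)

noncomputable instance (h : ℕ) : Fintype (PyrNode h) :=
  @Fintype.ofFinite _ (Finite.of_injective _ (pyrNode_inj h))

theorem fin_ite {c : ℕ} (s : Fin (if c = 0 then 0 else 2)) : c ≠ 0 ∧ s.val < 2 := by
  have h := s.isLt
  generalize s.val = v at h
  split_ifs at h with hc
  · omega
  · exact ⟨hc, h⟩

/-- The pyramid of height `h`: the children of the node `(l + 1, a)` are `(l, a)` and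
`(l, a + 1)`; the nodes of level `0` are sources, `(h, 0)` is the top. -/
noncomputable def pyramid (h : ℕ) : Dag where
  V := PyrNode h
  deg := fun i => if i.1.1 = 0 then 0 else 2
  kid := fun i s => ⟨(i.1.1 - 1, i.1.2 + s.val), by
    have h1 := i.2
    have h2 := fin_ite s
    show i.1.1 - 1 + (i.1.2 + s.val) ≤ h
    omega⟩
  rank := fun i => i.1.1
  rank_lt := fun i s => by
    have h2 := fin_ite s
    show i.1.1 - 1 < i.1.1
    omega

/-- The top of the pyramid. -/
def pyrTop (h : ℕ) : (pyramid h).V := (⟨(h, 0), le_rfl⟩ : PyrNode h)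

theorem pyramid_deg_le (h : ℕ) (i : (pyramid h).V) : (pyramid h).deg i ≤ 2 := by
  show (if i.1.1 = 0 then 0 else 2) ≤ 2
  split <;> omega

theorem pyramid_card_le (h : ℕ) : Fintype.card (pyramid h).V ≤ (h + 1) ^ 2 := by
  have := Fintype.card_le_of_injective _ (pyrNode_inj h)
  rw [Fintype.card_prod, Fintype.card_fin, ← sq] at this
  exact this

theorem pyramid_card_ge (h : ℕ) : h + 1 ≤ Fintype.card (pyramid h).V := by
  have hinj : Function.Injective
      (fun l : Fin (h + 1) => (⟨(l.val, 0), by have := l.2; show l.val + 0 ≤ h; omega⟩ :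
        PyrNode h)) := by
    intro l l' hl
    have := congrArg (fun p : PyrNode h => p.1.1) hl
    exact Fin.ext this
  have := Fintype.card_le_of_injective _ hinj
  rw [Fintype.card_fin] at this
  exact this

namespace Pyr

variable {h : ℕ}

/-- The node `(l, a)` carries a pebble. -/
def On (B : Finset (PyrNode h)) (l a : ℕ) : Prop := ∃ hh : l + a ≤ h, (⟨(l, a), hh⟩ : PyrNode h) ∈ B

/-- `a` describes a path from a source to the top. -/
def IsPath (h : ℕ) (a : ℕ → ℕ) : Prop := a h = 0 ∧ ∀ l < h, a l = a (l + 1) ∨ a l = a (l + 1) + 1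

theorem IsPath.anti {a : ℕ → ℕ} (ha : IsPath h a) {l m : ℕ} (hlm : l ≤ m) (hm : m ≤ h) :
    a m ≤ a l ∧ a l + l ≤ a m + m := by
  induction m, hlm using Nat.le_induction with
  | base => exact ⟨le_rfl, le_rfl⟩
  | succ m _ ih =>
    have h1 := ih (by omega)
    rcases ha.2 m (by omega) with h2 | h2 <;> omega

theorem IsPath.le {a : ℕ → ℕ} (ha : IsPath h a) {l : ℕ} (hl : l ≤ h) : l + a l ≤ h := by
  have := ha.anti hl le_rfl
  rw [ha.1] at this
  omega

/-- There is a path from a source to the top without pebbles. -/
def Open (B : Finset (PyrNode h)) : Prop := ∃ a, IsPath h a ∧ ∀ l ≤ h, ¬ On B l (a l)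

/-- The path which leaves the path `a` at level `m` and goes straight on to the other side. -/
def side (a : ℕ → ℕ) (m l : ℕ) : ℕ :=
  if l < m then (if a (m - 1) = a m then a m + m - l else a m) else a l

theorem side_isPath {a : ℕ → ℕ} (ha : IsPath h a) {m : ℕ} (h1 : 1 ≤ m) (hm : m ≤ h) :
    IsPath h (side a m) := by
  refine ⟨?_, fun l hl => ?_⟩
  · rw [side, if_neg (by omega)]
    exact ha.1
  · by_cases h2 : l + 1 < m
    · rw [side, side, if_pos (by omega), if_pos h2]
      split <;> omega
    · by_cases h3 : l < m
      · have h4 : m = l + 1 := by omega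
        subst h4
        have e1 : side a (l + 1) l = if a (l + 1 - 1) = a (l + 1) then a (l + 1) + (l + 1) - l
            else a (l + 1) := if_pos (by omega)
        have e2 : side a (l + 1) (l + 1) = a (l + 1) := if_neg (by omega)
        rw [e1, e2]
        split <;> omega
      · rw [side, side, if_neg h3, if_neg (by omega)]
        exact ha.2 l hl

/-- Below level `m` the path `side a m` is strictly on one side of `a`. -/
theorem side_spec {a : ℕ → ℕ} (ha : IsPath h a) {m l : ℕ} (h1 : 1 ≤ m) (hm : m ≤ h) (hl : l < m) :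
    (a (m - 1) = a m ∧ side a m l + l = a m + m ∧ a l < side a m l) ∨
      (a (m - 1) = a m + 1 ∧ side a m l = a m ∧ side a m l < a l) := by
  have h2 := ha.anti (l := l) (m := m - 1) (by omega) (by omega)
  have h3 := ha.2 (m - 1) (by omega)
  rw [Nat.sub_add_cancel h1] at h3
  rcases h3 with h3 | h3
  · left
    rw [side, if_pos hl, if_pos h3]
    omega
  · right
    rw [side, if_pos hl, if_neg (by omega)]
    omega

theorem side_ne {a : ℕ → ℕ} (ha : IsPath h a) {m m' l : ℕ} (h1 : 1 ≤ m) (hmm : m < m')
    (hm : m' ≤ h) (hl : l < m) : side a m l ≠ side a m' l := by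
  intro heq
  have h2 := ha.anti (l := m) (m := m' - 1) (by omega) (by omega)
  rcases side_spec ha h1 (by omega) hl with h3 | h3 <;>
    rcases side_spec ha (by omega) hm (show l < m' by omega) with h4 | h4 <;> omega

/-- The number of pebbles when the last open path is closed. -/
theorem last_path {A : Finset (PyrNode h)} {i : PyrNode h}
    (hk : ∀ s, (pyramid h).kid i s ∈ A) (hA : Open A) (hA' : ¬ Open (insert i A)) :
    h + 1 ≤ (insert i A).card := by
  classical
  obtain ⟨a, ha, hopen⟩ := hA
  -- the new pebble is on the source of the path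
  have hi : i = (⟨(0, a 0), ha.le (Nat.zero_le h)⟩ : PyrNode h) := by
    by_contra hne
    apply hA'
    refine ⟨a, ha, fun l hl => ?_⟩
    rintro ⟨hh, hmem⟩
    rw [mem_insert] at hmem
    rcases hmem with hmem | hmem
    · rcases Nat.eq_zero_or_pos l with hl0 | hl0
      · subst hl0
        exact hne hmem.symm
      · have hdeg : (pyramid h).deg i = 2 := by
          show (if i.1.1 = 0 then 0 else 2) = 2
          rw [if_neg]
          rw [← hmem]
          show ¬ l = 0
          omega
        have h2 := ha.2 (l - 1) (by omega)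
        rw [Nat.sub_add_cancel hl0] at h2
        have key : ∀ s : ℕ, s < 2 → a (l - 1) = a l + s → False := by
          intro s hs has
          have h3 := hk (⟨s, by rw [hdeg]; exact hs⟩)
          refine hopen (l - 1) (by omega) ⟨by omega, ?_⟩
          have h4 : (⟨(l - 1, a (l - 1)), by omega⟩ : PyrNode h) =
              (pyramid h).kid i (⟨s, by rw [hdeg]; exact hs⟩) := by
            apply Subtype.ext
            show (l - 1, a (l - 1)) = (i.1.1 - 1, i.1.2 + s)
            rw [← hmem, has]
          rw [h4]
          exact h3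
        rcases h2 with h2 | h2
        · exact key 0 (by omega) (by omega)
        · exact key 1 (by omega) (by omega)
    · exact hopen l hl ⟨hh, hmem⟩
  -- a pebble on each side path
  have hex : ∀ m : Fin h, ∃ l : ℕ, l < m.val + 1 ∧ On (insert i A) l (side a (m.val + 1) l) := by
    intro m
    by_contra hno
    push Not at hno
    apply hA'
    refine ⟨side a (m.val + 1), side_isPath ha (by omega) (by omega), fun l hl => ?_⟩
    by_cases h2 : l < m.val + 1
    · exact hno l h2
    · rw [side, if_neg h2]
      rintro ⟨hh, hmem⟩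
      rw [mem_insert] at hmem
      rcases hmem with hmem | hmem
      · rw [hi] at hmem
        have := congrArg (fun p : PyrNode h => p.1.1) hmem
        simp at this
        omega
      · exact hopen l hl ⟨hh, hmem⟩
  choose L hL hon using hex
  choose hle hmem using hon
  -- they are different
  let f : Option (Fin h) → PyrNode h := fun o => match o with
    | none => i
    | some m => ⟨(L m, side a (m.val + 1) (L m)), hle m⟩
  have hf : ∀ o, f o ∈ insert i A := by
    rintro (_ | m)
    · exact mem_insert_self _ _
    · exact hmem m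
  have hne : ∀ m : Fin h, f (some m) ≠ i := by
    intro m heq
    rw [hi] at heq
    have h1 := congrArg (fun p : PyrNode h => p.1.1) heq
    have h2 := congrArg (fun p : PyrNode h => p.1.2) heq
    simp only [f] at h1 h2
    have h3 := side_spec ha (show 1 ≤ m.val + 1 by omega) (by omega) (hL m)
    rw [h1] at h3 h2
    omega
  have hinj : Function.Injective f := by
    rintro (_ | m) (_ | m') heq
    · rfl
    · exact absurd heq.symm (hne m')
    · exact absurd heq (hne m)
    · have h1 : L m = L m' := congrArg (fun p : PyrNode h => p.1.1) heq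
      have h2 : side a (m.val + 1) (L m) = side a (m'.val + 1) (L m') :=
        congrArg (fun p : PyrNode h => p.1.2) heq
      have h3 := hL m
      have h4 := hL m'
      rcases lt_trichotomy m.val m'.val with h5 | h5 | h5
      · rw [← h1] at h2
        exact absurd h2 (side_ne ha (by omega) (by omega) (by omega) h3)
      · exact congrArg some (Fin.ext h5)
      · rw [h1] at h2
        exact absurd h2.symm (side_ne ha (by omega) (by omega) (by omega) h4)
  have := Finset.card_le_card_of_injOn (s := (univ : Finset (Option (Fin h)))) f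
    (fun o _ => hf o) (fun _ _ _ _ hh => hinj hh)
  rw [Finset.card_univ, Fintype.card_option, Fintype.card_fin] at this
  exact this

theorem open_mono {A B : Finset (PyrNode h)} (hAB : A ⊆ B) (hB : Open B) : Open A := by
  obtain ⟨a, ha, ho⟩ := hB
  exact ⟨a, ha, fun l hl ⟨hh, hm⟩ => ho l hl ⟨hh, hAB hm⟩⟩

theorem open_empty : Open (∅ : Finset (PyrNode h)) :=
  ⟨fun _ => 0, ⟨rfl, fun _ _ => Or.inl rfl⟩, fun l _ ⟨_, hm⟩ => by simp at hm⟩

end Pyr

/-- The pyramid of height `h` needs `h + 1` pebbles (Cook 1974). -/
theorem pyramid_pebbles {h s : ℕ} (hs : (pyramid h).Pebblable s (pyrTop h)) : h + 1 ≤ s := by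
  classical
  obtain ⟨B, hB, hr⟩ := hs
  have key : ∀ C : Finset (PyrNode h), (pyramid h).Reach s ∅ C → ¬ Pyr.Open C → h + 1 ≤ s := by
    intro C hC
    induction hC with
    | refl => intro hno; exact absurd Pyr.open_empty hno
    | @tail A C' hA hmove ih =>
      intro hno
      by_cases hopen : Pyr.Open (h := h) A
      · obtain ⟨hmv, hcard⟩ := hmove
        rcases hmv.inv with ⟨i, rfl⟩ | ⟨i, hk, rfl⟩
        · exact absurd (Pyr.open_mono (erase_subset i A) hopen) hno
        · exact (Pyr.last_path hk hopen hno).trans hcard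
      · exact ih hopen
  refine key B hr ?_
  rintro ⟨a, ha, ho⟩
  refine ho h le_rfl ⟨by rw [ha.1, add_zero], ?_⟩
  have h4 : (⟨(h, a h), by rw [ha.1, add_zero]⟩ : PyrNode h) = pyrTop h := by
    apply Subtype.ext
    show (h, a h) = (h, 0)
    rw [ha.1]
  rw [h4]
  exact hB

end Pool.Agent.W994.DE
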