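import Pool.Agent.W994.DE.Nd

/-!
# The deterministic thrifty program which evaluates the nodes in topological order
-/

set_option autoImplicit false

namespace Pool.Agent.W994.DE

open Finset
open Pool.Agent.H554R2.Thrifty (BP)

namespace Dag

variable {G : Dag} {k : ℕ}

/-- A topological order. -/
theorem exists_order (G : Dag) : ∃ e : Fin (Fintype.card G.V) → G.V, Function.Bijective e ∧
    ∀ b a, ∃ c, c < b ∧ e c = G.kid (e b) a := by
  classical
  set n := Fintype.card G.V with hn
  let f : G.V → ℕ := fun i => G.rank i * n + (Fintype.equivFin G.V i).val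
  have hlt : ∀ i, (Fintype.equivFin G.V i).val < n := fun i => (Fintype.equivFin G.V i).isLt
  have hmono : ∀ i j, G.rank i < G.rank j → f i < f j := by
    intro i j hij
    have h1 := hlt i
    have h2 : (G.rank i + 1) * n ≤ G.rank j * n := Nat.mul_le_mul_right _ hij
    have h3 : (G.rank i + 1) * n = G.rank i * n + n := by ring
    show G.rank i * n + _ < G.rank j * n + _
    omega
  have hinj : Function.Injective f := by
    intro i j hij
    rcases lt_trichotomy (G.rank i) (G.rank j) with h | h | h
    · exact absurd hij (hmono i j h).ne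
    · have h1 : (Fintype.equivFin G.V i).val = (Fintype.equivFin G.V j).val := by
        have : G.rank i * n + (Fintype.equivFin G.V i).val =
          G.rank j * n + (Fintype.equivFin G.V j).val := hij
        rw [h] at this
        omega
      exact (Fintype.equivFin G.V).injective (Fin.ext h1)
    · exact absurd hij (hmono j i h).ne'
  have hcard : (univ.image f).card = n := by
    rw [card_image_of_injective _ hinj, card_univ]
  let o := (univ.image f).orderEmbOfFin hcard
  have hex : ∀ a : Fin n, ∃ i, f i = o a := by
    intro a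
    have := (univ.image f).orderEmbOfFin_mem hcard a
    obtain ⟨i, _, hi⟩ := mem_image.mp this
    exact ⟨i, hi⟩
  choose e he using hex
  have heinj : Function.Injective e := by
    intro a b hab
    have h1 : o a = o b := by rw [← he, ← he, hab]
    exact o.injective h1
  have hebij : Function.Bijective e :=
    (Fintype.bijective_iff_injective_and_card e).mpr ⟨heinj, by rw [Fintype.card_fin]⟩
  refine ⟨e, hebij, fun b a => ?_⟩
  obtain ⟨c, hc⟩ := hebij.2 (G.kid (e b) a)
  refine ⟨c, ?_, hc⟩
  have h1 : f (e c) < f (e b) := by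
    rw [hc]
    exact hmono _ _ (G.rank_lt _ _)
  rw [he, he] at h1
  exact o.lt_iff_lt.mp h1

/-- The program. -/
noncomputable def topo (G : Dag) (k : ℕ) (r : G.V) (S : Fin k → Bool) (a₀ : Fin k)
    (e : Fin (Fintype.card G.V) → G.V) : BP (G.Var k) k where
  State := Fin (Fintype.card G.V) × (G.V → Fin k)
  start := (⟨0, Fintype.card_pos_iff.mpr ⟨r⟩⟩, fun _ => a₀)
  query := fun q => ⟨e q.1, kidVal q.2 (e q.1)⟩
  edge := fun q c t => t = if h : q.1.val + 1 < Fintype.card G.V then
      Sum.inl (⟨q.1.val + 1, h⟩, Function.update q.2 (e q.1) c)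
    else Sum.inr (S (Function.update q.2 (e q.1) c r))

theorem topo_spec {r : G.V} {S : Fin k → Bool} {a₀ : Fin k} {e : Fin (Fintype.card G.V) → G.V}
    (he : Function.Bijective e) (hord : ∀ b a, ∃ c, c < b ∧ e c = G.kid (e b) a)
    (x : G.Var k → Fin k) :
    ∀ (m : ℕ) (b : Fin (Fintype.card G.V)) (u : G.V → Fin k), b.val + m + 1 = Fintype.card G.V →
      (∀ c < b, u (e c) = value x (e c)) →
      (∃ l, Trav (topo G k r S a₀ e) x l (Sum.inl (b, u))
        (Sum.inr (S (value x r)))) ∧
      ∀ l R, Trav (topo G k r S a₀ e) x l (Sum.inl (b, u)) (Sum.inr R) →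
        R = S (value x r) ∧ l.length = m + 1 ∧
        ∀ q ∈ l, Relevant x ((topo G k r S a₀ e).query q) := by
  classical
  intro m
  induction m with
  | zero =>
    intro b u hb hu
    have hval : Function.update u (e b) (x ⟨e b, kidVal u (e b)⟩) = value x := by
      funext i
      obtain ⟨c, rfl⟩ := he.2 i
      by_cases hc : c = b
      · subst hc
        rw [Function.update_self, value_eq]
        congr 2
        funext a
        obtain ⟨c', h1, h2⟩ := hord c a
        show u (G.kid (e c) a) = value x (G.kid (e c) a)
        rw [← h2]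
        exact hu c' h1
      · rw [Function.update_of_ne (fun h => hc (he.1 h))]
        refine hu c ?_
        rw [Fin.lt_def]
        have h1 : c.val ≠ b.val := fun h => hc (Fin.ext h)
        omega
    have hrel : Relevant x ((topo G k r S a₀ e).query (b, u)) := by
      show kidVal u (e b) = kidVal (value x) (e b)
      funext a
      obtain ⟨c', h1, h2⟩ := hord b a
      show u (G.kid (e b) a) = value x (G.kid (e b) a)
      rw [← h2]
      exact hu c' h1
    have hedge : ∀ t, (topo G k r S a₀ e).edge (b, u) (x ((topo G k r S a₀ e).query (b, u))) t ↔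
        t = Sum.inr (S (value x r)) := by
      intro t
      have h1 : ¬ (b.val + 1 < Fintype.card G.V) := by omega
      show (t = if h : b.val + 1 < Fintype.card G.V then _ else _) ↔ _
      rw [dif_neg h1]
      show t = Sum.inr (S (Function.update u (e b) (x ⟨e b, kidVal u (e b)⟩) r)) ↔ _
      rw [hval]
    refine ⟨⟨[(b, u)], rfl, _, (hedge _).mpr rfl, rfl⟩, ?_⟩
    intro l R hl
    cases l with
    | nil => exact absurd hl (by simp [Trav])
    | cons q l =>
      obtain ⟨h1, t, h2, h3⟩ := hl
      have h4 : q = (b, u) := (Sum.inl_injective h1).symm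
      subst h4
      rw [hedge] at h2
      subst h2
      cases l with
      | nil =>
        refine ⟨(Sum.inr_injective h3).symm, rfl, ?_⟩
        intro q hq
        rw [List.mem_singleton] at hq
        subst hq
        exact hrel
      | cons q' l => exact absurd h3.1 (by simp)
  | succ m ih =>
    intro b u hb hu
    have hb1 : b.val + 1 < Fintype.card G.V := by omega
    have hval : ∀ c < (⟨b.val + 1, hb1⟩ : Fin (Fintype.card G.V)),
        Function.update u (e b) (x ⟨e b, kidVal u (e b)⟩) (e c) = value x (e c) := by
      intro c hcb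
      by_cases hc : c = b
      · subst hc
        rw [Function.update_self, value_eq]
        congr 2
        funext a
        obtain ⟨c', h1, h2⟩ := hord c a
        show u (G.kid (e c) a) = value x (G.kid (e c) a)
        rw [← h2]
        exact hu c' h1
      · rw [Function.update_of_ne (fun h => hc (he.1 h))]
        refine hu c ?_
        rw [Fin.lt_def] at hcb ⊢
        have h1 : c.val ≠ b.val := fun h => hc (Fin.ext h)
        have h2 : c.val < b.val + 1 := hcb
        omega
    have hrel : Relevant x ((topo G k r S a₀ e).query (b, u)) := by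
      show kidVal u (e b) = kidVal (value x) (e b)
      funext a
      obtain ⟨c', h1, h2⟩ := hord b a
      show u (G.kid (e b) a) = value x (G.kid (e b) a)
      rw [← h2]
      exact hu c' h1
    have hedge : ∀ t, (topo G k r S a₀ e).edge (b, u) (x ((topo G k r S a₀ e).query (b, u))) t ↔
        t = Sum.inl (⟨b.val + 1, hb1⟩,
          Function.update u (e b) (x ⟨e b, kidVal u (e b)⟩)) := by
      intro t
      show (t = if h : b.val + 1 < Fintype.card G.V then _ else _) ↔ _
      rw [dif_pos hb1]
      rfl
    obtain ⟨⟨l, hl⟩, h2⟩ := ih ⟨b.val + 1, hb1⟩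
      (Function.update u (e b) (x ⟨e b, kidVal u (e b)⟩)) (by simp only; omega) hval
    refine ⟨⟨(b, u) :: l, rfl, _, (hedge _).mpr rfl, hl⟩, ?_⟩
    intro l R hl
    cases l with
    | nil => exact absurd hl (by simp [Trav])
    | cons q l =>
      obtain ⟨h1, t, h3, h4⟩ := hl
      have h5 : q = (b, u) := (Sum.inl_injective h1).symm
      subst h5
      rw [hedge] at h3
      subst h3
      obtain ⟨h6, h7, h8⟩ := h2 l R h4
      refine ⟨h6, by rw [List.length_cons, h7], ?_⟩
      intro q hq
      rcases List.mem_cons.mp hq with hq | hq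
      · subst hq; exact hrel
      · exact h8 q hq

/-- A deterministic program which reads only relevant variables, one for each node. -/
theorem upper (G : Dag) (k : ℕ) (hk : 1 ≤ k) (r : G.V) (S : Fin k → Bool) : ∃ P : BP (G.Var k) k,
    P.Deterministic ∧ P.Solves (fun x => S (value x r)) ∧
    (∀ x l R, P.IsComp x l R →
      l.length = Fintype.card G.V ∧ ∀ q ∈ l, Relevant x (P.query q)) ∧
    P.size = Fintype.card G.V * k ^ Fintype.card G.V + 2 := by
  classical
  obtain ⟨e, he, hord⟩ := exists_order G
  obtain ⟨a₀⟩ : Nonempty (Fin k) := ⟨⟨0, hk⟩⟩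
  have hn : 0 < Fintype.card G.V := Fintype.card_pos_iff.mpr ⟨r⟩
  have hsp := fun x => topo_spec (r := r) (S := S) (a₀ := a₀) he hord x (Fintype.card G.V - 1)
    ⟨0, hn⟩ (fun _ => a₀) (by simp only; omega) (fun c hc => absurd hc (Nat.not_lt_zero _))
  refine ⟨topo G k r S a₀ e, ?_, ?_, ?_, ?_⟩
  · intro q c
    exact ⟨_, rfl, fun t ht => ht⟩
  · intro x
    obtain ⟨⟨l, hl⟩, h2⟩ := hsp x
    exact ⟨⟨l, isComp_iff.mpr hl⟩, fun l R h => (h2 l R (isComp_iff.mp h)).1⟩
  · intro x l R h
    obtain ⟨h1, h2, h3⟩ := (hsp x).2 l R (isComp_iff.mp h)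
    exact ⟨by rw [h2]; omega, h3⟩
  · show Fintype.card (Fin (Fintype.card G.V) × (G.V → Fin k)) + 2 = _
    rw [Fintype.card_prod, Fintype.card_fin, Fintype.card_fun, Fintype.card_fin]

end Dag

end Pool.Agent.W994.DE
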