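import Pool.Agent.W994.DE.NdCount
import Pool.Agent.W994.DE.Pyramid
import Pool.Agent.W994.DE.Upper

/-!
# Pyramids: the bounds in terms of the number of variables
-/

set_option autoImplicit false

namespace Pool.Agent.W994.DE

open Finset
open Pool.Agent.H554R2.Thrifty (BP)

namespace Dag

/-- The number of variables. -/
theorem card_var (G : Dag) (k : ℕ) : Fintype.card (G.Var k) = ∑ i, k ^ G.deg i := by
  rw [Fintype.card_sigma]
  simp

theorem card_var_le {G : Dag} {k d : ℕ} (hk : 1 ≤ k) (hd : ∀ i, G.deg i ≤ d) :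
    Fintype.card (G.Var k) ≤ Fintype.card G.V * k ^ d := by
  rw [card_var]
  calc ∑ i, k ^ G.deg i ≤ ∑ _i : G.V, k ^ d :=
        sum_le_sum fun i _ => Nat.pow_le_pow_right hk (hd i)
    _ = _ := by rw [sum_const, card_univ, smul_eq_mul]

end Dag

open Dag

theorem pyramid_card_var_ge {h k : ℕ} (hh : 1 ≤ h) :
    k ^ 2 ≤ Fintype.card ((pyramid h).Var k) := by
  rw [card_var]
  have h1 : (pyramid h).deg (pyrTop h) = 2 := by
    show (if h = 0 then 0 else 2) = 2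
    rw [if_neg (by omega)]
  rw [← h1]
  exact single_le_sum (f := fun i => k ^ (pyramid h).deg i) (fun _ _ => Nat.zero_le _)
    (mem_univ (pyrTop h))

/-- The lower bound for pyramids. -/
theorem pyramid_nd {h k t s : ℕ} {P : BP ((pyramid h).Var k) k} {S : Fin k → Bool}
    {a₀ δ : Fin k} (hP : Decides P (pyrTop h) S) (hSa : S a₀ = true) (hSδ : S δ = false)
    (hW : Waste P t) (hs : P.size ≤ 2 ^ s)
    (hk : 4 * (h + 1) ^ 4 ≤ k) :
    h ≤ 2 * s * (6 * t + 2 + (4 * s + 2) / Nat.log 2 k) := by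
  have hcard := pyramid_card_le h
  have h1 := main_nd hP hSa hSδ hW (pyramid_deg_le h) hs (by
    refine le_trans (Nat.pow_le_pow_left (Nat.mul_le_mul_left 2 hcard) 2) ?_
    calc (2 * (h + 1) ^ 2) ^ 2 = 4 * (h + 1) ^ 4 := by ring
      _ ≤ k := hk)
  have h2 := pyramid_pebbles h1
  have h3 : 2 * (3 * (2 * t) + 2 + (4 * s + 2) / Nat.log 2 k) * s =
      2 * s * (6 * t + 2 + (4 * s + 2) / Nat.log 2 k) := by ring
  omega

/-- For every exponent `ε < 1/20` the size is at least `2 ^ (N ^ ε)`. -/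
theorem pyramid_asym (ε : ℝ) (hε : 0 < ε) (hε' : ε < 1 / 20) : ∃ h₀ : ℕ, ∀ h : ℕ, h₀ ≤ h →
    ∀ k : ℕ, k = 4 * (h + 1) ^ 4 → ∀ N : ℕ, N = Fintype.card ((pyramid h).Var k) →
    ∀ (S : Fin k → Bool), (∃ a, S a = true) → (∃ b, S b = false) →
    ∀ (P : BP ((pyramid h).Var k) k) (t : ℕ),
      Decides P (pyrTop h) S → Waste P t → (t : ℝ) ≤ (N : ℝ) ^ ε →
      (N : ℝ) ^ ε < Real.logb 2 P.size := by
  -- the growth condition
  have hgrow : ∃ h₀ : ℕ, ∀ h : ℕ, h₀ ≤ h → 72 * ((16 : ℝ) * ((h : ℝ) + 1) ^ 10) ^ (2 * ε) < h := by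
    have h1 : Filter.Tendsto (fun x : ℝ => x ^ (1 - 20 * ε)) Filter.atTop Filter.atTop :=
      tendsto_rpow_atTop (by linarith)
    have h2 := h1.eventually_gt_atTop (144 * (16 : ℝ) ^ (2 * ε))
    have h3 : Filter.Tendsto (fun h : ℕ => (h : ℝ) + 1) Filter.atTop Filter.atTop :=
      Filter.tendsto_atTop_add_const_right _ _ tendsto_natCast_atTop_atTop
    obtain ⟨h₀, hh₀⟩ := Filter.eventually_atTop.mp (h3.eventually h2)
    refine ⟨max h₀ 1, fun h hh => ?_⟩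
    have h4 := hh₀ h (le_trans (le_max_left _ _) hh)
    have h5 : (1 : ℝ) ≤ h := by exact_mod_cast le_trans (le_max_right _ _) hh
    have h6 : (0 : ℝ) < (h : ℝ) + 1 := by linarith
    have h7 : ((16 : ℝ) * ((h : ℝ) + 1) ^ 10) ^ (2 * ε) =
        (16 : ℝ) ^ (2 * ε) * ((h : ℝ) + 1) ^ (20 * ε) := by
      rw [Real.mul_rpow (by norm_num) (by positivity), ← Real.rpow_natCast, ← Real.rpow_mul h6.le]
      congr 2
      push_cast
      ring
    rw [h7]
    have h8 : (h : ℝ) + 1 = ((h : ℝ) + 1) ^ (1 - 20 * ε) * ((h : ℝ) + 1) ^ (20 * ε) := by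
      rw [← Real.rpow_add h6]
      rw [show 1 - 20 * ε + 20 * ε = (1 : ℝ) by ring, Real.rpow_one]
    have h9 : (0 : ℝ) < ((h : ℝ) + 1) ^ (20 * ε) := Real.rpow_pos_of_pos h6 _
    have h10 : 144 * (16 : ℝ) ^ (2 * ε) * ((h : ℝ) + 1) ^ (20 * ε) < (h : ℝ) + 1 := by
      conv_rhs => rw [h8]
      exact mul_lt_mul_of_pos_right h4 h9
    nlinarith
  obtain ⟨h₀, hh₀⟩ := hgrow
  refine ⟨max h₀ 1, fun h hh k hk N hN S ⟨a₀, hSa⟩ ⟨δ, hSδ⟩ P t hP hW ht => ?_⟩
  by_contra hlog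
  push Not at hlog
  have hh1 : 1 ≤ h := le_trans (le_max_right _ _) hh
  have hk1 : 1 ≤ k := a₀.pos
  have hN1 : 1 ≤ N := by
    rw [hN]
    exact le_trans (Nat.one_le_pow _ _ hk1) (pyramid_card_var_ge hh1)
  have hNle : N ≤ 16 * (h + 1) ^ 10 := by
    rw [hN]
    calc Fintype.card ((pyramid h).Var k) ≤ Fintype.card (pyramid h).V * k ^ 2 :=
          card_var_le hk1 (pyramid_deg_le h)
      _ ≤ (h + 1) ^ 2 * k ^ 2 := Nat.mul_le_mul_right _ (pyramid_card_le h)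
      _ = 16 * (h + 1) ^ 10 := by rw [hk]; ring
  set X := (N : ℝ) ^ ε with hX
  have hX1 : 1 ≤ X := Real.one_le_rpow (by exact_mod_cast hN1) hε.le
  set s := ⌊X⌋₊ + 1 with hs
  have hsX : X < s := by rw [hs]; exact_mod_cast Nat.lt_floor_add_one X
  have hsX' : (s : ℝ) ≤ 2 * X := by
    rw [hs]
    push_cast
    have := Nat.floor_le (show 0 ≤ X by linarith)
    linarith
  have hsize : P.size ≤ 2 ^ s := by
    have h1 : (0 : ℝ) < P.size := by
      have : 0 < P.size := Nat.succ_pos _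
      exact_mod_cast this
    have h2 : (P.size : ℝ) ≤ (2 : ℝ) ^ (s : ℝ) := by
      rw [← Real.logb_le_iff_le_rpow (by norm_num) h1]
      exact hlog.trans hsX.le
    rw [Real.rpow_natCast] at h2
    exact_mod_cast h2
  have h1 := pyramid_nd hP hSa hSδ hW hsize hk.ge
  have h2 : h ≤ 2 * s * (6 * t + 2 + (4 * s + 2)) :=
    h1.trans (Nat.mul_le_mul_left _ (Nat.add_le_add_left (Nat.div_le_self _ _) _))
  have h3 : (h : ℝ) ≤ 2 * s * (6 * t + 2 + (4 * s + 2)) := by exact_mod_cast h2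
  have h4 : (h : ℝ) ≤ 72 * (X * X) := by
    have h5 : (6 * (t : ℝ) + 2 + (4 * s + 2)) ≤ 18 * X := by linarith
    calc (h : ℝ) ≤ 2 * s * (6 * t + 2 + (4 * s + 2)) := h3
      _ ≤ 2 * (2 * X) * (18 * X) := by
          refine mul_le_mul (by linarith) h5 (by positivity) (by linarith)
      _ = 72 * (X * X) := by ring
  have h5 : X * X ≤ ((16 : ℝ) * ((h : ℝ) + 1) ^ 10) ^ (2 * ε) := by
    have h6 : X * X = (N : ℝ) ^ (2 * ε) := by
      rw [hX, ← Real.rpow_add (by exact_mod_cast hN1)]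
      congr 1
      ring
    rw [h6]
    refine Real.rpow_le_rpow (by positivity) ?_ (by linarith)
    exact_mod_cast hNle
  have h6 := hh₀ h (le_trans (le_max_left _ _) hh)
  linarith

/-- A deterministic thrifty program for the pyramid of height `h` stops after at most `N ^ (1/4)`
steps. -/
theorem pyramid_upper {h k N : ℕ} (hh : 1 ≤ h) (hk : k = 4 * (h + 1) ^ 4)
    (hN : N = Fintype.card ((pyramid h).Var k)) (S : Fin k → Bool) :
    ∃ P : BP ((pyramid h).Var k) k, P.Deterministic ∧ P.Solves (fun x => S (value x (pyrTop h))) ∧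
      ∀ x l R, P.IsComp x l R → ((l.length : ℝ) ≤ (N : ℝ) ^ (1 / 4 : ℝ) ∧
        ∀ q ∈ l, Relevant x (P.query q)) := by
  have hk1 : 1 ≤ k := by rw [hk]; exact Nat.mul_pos (by norm_num) (by positivity)
  obtain ⟨P, h1, h2, h3, _⟩ := upper (pyramid h) k hk1 (pyrTop h) S
  refine ⟨P, h1, h2, fun x l R hl => ?_⟩
  obtain ⟨h4, h5⟩ := h3 x l R hl
  refine ⟨?_, h5⟩
  have h6 : l.length ^ 4 ≤ N := by
    rw [h4, hN]
    refine le_trans ?_ (pyramid_card_var_ge hh)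
    calc Fintype.card (pyramid h).V ^ 4 ≤ ((h + 1) ^ 2) ^ 4 :=
          Nat.pow_le_pow_left (pyramid_card_le h) 4
      _ ≤ 16 * ((h + 1) ^ 2) ^ 4 := Nat.le_mul_of_pos_left _ (by norm_num)
      _ = k ^ 2 := by rw [hk]; ring
  have h7 : ((l.length : ℝ)) = (((l.length : ℝ)) ^ (4 : ℕ)) ^ (1 / 4 : ℝ) := by
    rw [← Real.rpow_natCast, ← Real.rpow_mul (by positivity)]
    norm_num
  rw [h7]
  refine Real.rpow_le_rpow (by positivity) ?_ (by norm_num)
  exact_mod_cast h6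

end Pool.Agent.W994.DE
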