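import Pool.Agent.W994.DE.Main2
import Pool.Agent.W994.DE.Asym

/-!
# Pyramids: short nondeterministic computations need much space
-/

set_option autoImplicit false

namespace Pool.Agent.W994.DE

open Finset
open Pool.Agent.H554R2.Thrifty (BP)
open Dag

/-- The choice of the parameters. -/
theorem params {θ δ : ℝ} (hθ0 : 0 ≤ θ) (hθ : θ < 1 / 4) (hδ : 0 < δ) : ∃ m C : ℕ, 1 ≤ m ∧ 1 ≤ C ∧
    ((m : ℝ) + 1) * (4 + 4 * θ * (C + 1)) < C * m ∧ 1 / (C : ℝ) ≤ δ := by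
  set ζ := 1 - 4 * θ with hζ
  have hζ0 : 0 < ζ := by rw [hζ]; linarith
  obtain ⟨m, hm⟩ := exists_nat_gt (2 / ζ)
  obtain ⟨C, hC⟩ := exists_nat_gt (max (20 / ζ) (1 / δ))
  have hC1 := lt_of_le_of_lt (le_max_left _ _) hC
  have hC2 := lt_of_le_of_lt (le_max_right _ _) hC
  have hm0 : (0 : ℝ) < m := lt_trans (by positivity) hm
  have hC0 : (0 : ℝ) < C := lt_trans (by positivity) hC1
  have hm1 : (1 : ℝ) ≤ m := by exact_mod_cast (show 0 < m by exact_mod_cast hm0)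
  rw [div_lt_iff₀ hζ0] at hm hC1
  rw [div_lt_iff₀ hδ] at hC2
  refine ⟨m, C, by exact_mod_cast hm1, by exact_mod_cast (show 0 < C by exact_mod_cast hC0), ?_, ?_⟩
  · have h4 : 4 * θ = 1 - ζ := by rw [hζ]; ring
    have e1 : ((m : ℝ) + 1) * (4 + 4 * θ * (C + 1)) = (m + 1) * (4 + (1 - ζ)) + (m + 1) *
        ((1 - ζ) * C) := by rw [h4]; ring
    rw [e1]
    have h5 : ((m : ℝ) + 1) * (4 + (1 - ζ)) ≤ 5 * (m + 1) := by nlinarith
    have h6 : ((m : ℝ) + 1) * ((1 - ζ) * C) = C * m - C * (m * ζ) + C * (1 - ζ) := by ring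
    have h7 : (C : ℝ) * (1 - ζ) ≤ C * ((m * ζ) / 2) := by
      refine mul_le_mul_of_nonneg_left ?_ hC0.le
      linarith
    have h8 : (10 : ℝ) * m < C * (m * ζ) / 2 := by nlinarith
    nlinarith
  · rw [div_le_iff₀ hC0]
    linarith

theorem growth {m C : ℕ} {E : ℝ} (h : ((m : ℝ) + 1) * E < C * m) (hE : 0 ≤ E) : ∃ h₀ : ℕ,
    ∀ h : ℕ, h₀ ≤ h → 1 ≤ h ∧
      (64 * ((h : ℝ) + 1) ^ E) ^ (m + 1) ≤ ((h : ℝ) + 1) ^ (C * m) ∧
      128 * ((h : ℝ) + 1) ^ E < ((h : ℝ) + 1) ^ C ∧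
      98 * (m + 1) * (C + 1) * ((h : ℝ) + 1) ^ (3 / 4 : ℝ) < h := by
  have h3 : Filter.Tendsto (fun h : ℕ => (h : ℝ) + 1) Filter.atTop Filter.atTop :=
    Filter.tendsto_atTop_add_const_right _ _ tendsto_natCast_atTop_atTop
  have hm1 : (0 : ℝ) < m + 1 := by positivity
  have hEC : E < C := by
    have : ((m : ℝ) + 1) * E < (m + 1) * C := by nlinarith [Nat.cast_nonneg (α := ℝ) C]
    exact lt_of_mul_lt_mul_left this hm1.le
  have h1 := (tendsto_rpow_atTop (show 0 < (C : ℝ) * m - (m + 1) * E by linarith)).eventually_gt_atTop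
    ((64 : ℝ) ^ (m + 1))
  have h2 := (tendsto_rpow_atTop (show 0 < (C : ℝ) - E by linarith)).eventually_gt_atTop (128 : ℝ)
  have h4 := (tendsto_rpow_atTop (show (0 : ℝ) < 1 / 4 by norm_num)).eventually_gt_atTop
    (98 * ((m : ℝ) + 1) * (C + 1) + 1)
  obtain ⟨a, ha⟩ := Filter.eventually_atTop.mp (h3.eventually (h1.and (h2.and h4)))
  refine ⟨max a 1, fun n hn => ?_⟩
  obtain ⟨g1, g2, g3⟩ := ha n (le_trans (le_max_left _ _) hn)
  have hn1 : 1 ≤ n := le_trans (le_max_right _ _) hn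
  have hn1' : (1 : ℝ) ≤ n := by exact_mod_cast hn1
  have hx : (0 : ℝ) < (n : ℝ) + 1 := by positivity
  have hx1 : (1 : ℝ) ≤ (n : ℝ) + 1 := by linarith
  refine ⟨hn1, ?_, ?_, ?_⟩
  · calc (64 * ((n : ℝ) + 1) ^ E) ^ (m + 1) = 64 ^ (m + 1) * ((n : ℝ) + 1) ^ (((m : ℝ) + 1) * E) := by
          rw [mul_pow, ← Real.rpow_natCast (((n : ℝ) + 1) ^ E), ← Real.rpow_mul hx.le]
          congr 2
          push_cast
          ring
      _ ≤ ((n : ℝ) + 1) ^ ((C : ℝ) * m - (m + 1) * E) * ((n : ℝ) + 1) ^ (((m : ℝ) + 1) * E) :=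
          mul_le_mul_of_nonneg_right g1.le (Real.rpow_nonneg hx.le _)
      _ = ((n : ℝ) + 1) ^ (C * m) := by
          rw [← Real.rpow_add hx, ← Real.rpow_natCast]
          congr 1
          push_cast
          ring
  · calc 128 * ((n : ℝ) + 1) ^ E < ((n : ℝ) + 1) ^ ((C : ℝ) - E) * ((n : ℝ) + 1) ^ E :=
          mul_lt_mul_of_pos_right g2 (Real.rpow_pos_of_pos hx _)
      _ = ((n : ℝ) + 1) ^ C := by
          rw [← Real.rpow_add hx, ← Real.rpow_natCast]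
          congr 1
          ring
  · have h5 : ((n : ℝ) + 1) = ((n : ℝ) + 1) ^ (1 / 4 : ℝ) * ((n : ℝ) + 1) ^ (3 / 4 : ℝ) := by
      rw [← Real.rpow_add hx]
      norm_num
    have h6 : (1 : ℝ) ≤ ((n : ℝ) + 1) ^ (3 / 4 : ℝ) := Real.one_le_rpow hx1 (by norm_num)
    have h7 : (98 * ((m : ℝ) + 1) * (C + 1) + 1) * ((n : ℝ) + 1) ^ (3 / 4 : ℝ) < (n : ℝ) + 1 := by
      conv_rhs => rw [h5]
      exact mul_lt_mul_of_pos_right g3 (by linarith)
    linarith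

/-- The lower bound for pyramids. -/
theorem pyramid_tl {h k τ s m : ℕ} {P : BP ((pyramid h).Var k) k} {S : Fin k → Bool}
    {a₀ δ : Fin k} (hP : Decides P (pyrTop h) S) (hSa : S a₀ = true) (hSδ : S δ = false)
    (hT : ∀ x, S (value x (pyrTop h)) = true → ∃ l, P.IsComp x l true ∧ l.length ≤ 2 ^ τ)
    (hs : P.size ≤ 2 ^ s) (hh : 1 ≤ h) (hk : (16 * 4 ^ τ * (h + 1) ^ 4) ^ (m + 1) ≤ k ^ m)
    (hk' : 32 * 4 ^ τ * (h + 1) ^ 2 < k) :
    h ≤ 2 * (m + 1) * (3 + 2 * s) * τ := by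
  have hcard := pyramid_card_le h
  have hcard' : Fintype.card (pyramid h).V + 1 ≤ 2 * (h + 1) ^ 2 := by nlinarith
  have h1 := main_tl (m := m) hP hSa hSδ (pyramid_deg_le h) (by norm_num) hT hs (by
      refine le_trans (Nat.pow_le_pow_left ?_ _) hk
      calc 4 * 4 ^ τ * 2 * Fintype.card (pyramid h).V * (Fintype.card (pyramid h).V + 1)
          ≤ 4 * 4 ^ τ * 2 * (h + 1) ^ 2 * (2 * (h + 1) ^ 2) :=
            Nat.mul_le_mul (Nat.mul_le_mul_left _ hcard) hcard'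
        _ = 16 * 4 ^ τ * (h + 1) ^ 4 := by ring) (by
      refine lt_of_le_of_lt ?_ hk'
      calc 8 * 4 ^ τ * 2 * (Fintype.card (pyramid h).V + 1) ≤ 8 * 4 ^ τ * 2 * (2 * (h + 1) ^ 2) :=
            Nat.mul_le_mul_left _ hcard'
        _ = 32 * 4 ^ τ * (h + 1) ^ 2 := by ring)
  have h2 := pyramid_pebbles h1
  have h3 : 2 * (m + 1) * (3 + 2 * s / Nat.log 2 k) * τ ≤ 2 * (m + 1) * (3 + 2 * s) * τ :=
    Nat.mul_le_mul_right _ (Nat.mul_le_mul_left _ (Nat.add_le_add_left (Nat.div_le_self _ _) _))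
  omega

/-- Short nondeterministic computations need much space. -/
theorem pyramid_asym_tl (θ δ : ℝ) (hθ0 : 0 ≤ θ) (hθ : θ < 1 / 4) (hδ : 0 < δ) :
    ∃ (C : ℕ) (ε : ℝ) (h₀ : ℕ), 0 < ε ∧ ∀ h : ℕ, h₀ ≤ h →
    ∀ k : ℕ, k = (h + 1) ^ C → ∀ N : ℕ, N = Fintype.card ((pyramid h).Var k) →
    ∀ (S : Fin k → Bool), (∃ a, S a = true) → (∃ b, S b = false) →
    (∀ P : BP ((pyramid h).Var k) k, Decides P (pyrTop h) S →
      (∀ x, S (value x (pyrTop h)) = true → ∃ l, P.IsComp x l true ∧ (l.length : ℝ) ≤ (N : ℝ) ^ θ) →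
      (N : ℝ) ^ ε < Real.logb 2 P.size) ∧
    ∃ P : BP ((pyramid h).Var k) k, P.Deterministic ∧
      P.Solves (fun x => S (value x (pyrTop h))) ∧
      ∀ x l R, P.IsComp x l R → (l.length : ℝ) ≤ (N : ℝ) ^ δ := by
  obtain ⟨m, C, hm, hC, hmC, hCδ⟩ := params hθ0 hθ hδ
  obtain ⟨h₀, hgr⟩ := growth hmC (by positivity)
  have hC0 : (0 : ℝ) < C := by exact_mod_cast hC
  refine ⟨C, 1 / (4 * ((C : ℝ) + 1)), h₀, by positivity, ?_⟩
  intro h hh k hk N hN S hS1 hS2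
  obtain ⟨a₀, hSa⟩ := hS1
  obtain ⟨δ', hSδ⟩ := hS2
  obtain ⟨hh1, g1, g2, g3⟩ := hgr h hh
  have hk1 : 1 ≤ k := a₀.pos
  have hkN : k ^ 2 ≤ N := by rw [hN]; exact pyramid_card_var_ge hh1
  have hN1 : 1 ≤ N := le_trans (Nat.one_le_pow _ _ hk1) hkN
  have hN1' : (1 : ℝ) ≤ N := by exact_mod_cast hN1
  have hNle : N ≤ (h + 1) ^ (2 * C + 2) := by
    rw [hN]
    calc Fintype.card ((pyramid h).Var k) ≤ Fintype.card (pyramid h).V * k ^ 2 :=
          card_var_le hk1 (pyramid_deg_le h)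
      _ ≤ (h + 1) ^ 2 * k ^ 2 := Nat.mul_le_mul_right _ (pyramid_card_le h)
      _ = (h + 1) ^ (2 * C + 2) := by rw [hk, ← pow_mul, ← pow_add]; congr 1; ring
  have hx : (0 : ℝ) < (h : ℝ) + 1 := by positivity
  have hx1 : (1 : ℝ) ≤ (h : ℝ) + 1 := by linarith [Nat.cast_nonneg (α := ℝ) h]
  have hNle' : (N : ℝ) ≤ ((h : ℝ) + 1) ^ (2 * ((C : ℝ) + 1)) := by
    calc (N : ℝ) ≤ (((h + 1) ^ (2 * C + 2) : ℕ) : ℝ) := Nat.cast_le.mpr hNle
      _ = ((h : ℝ) + 1) ^ (2 * ((C : ℝ) + 1)) := by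
          rw [Nat.cast_pow, ← Real.rpow_natCast]
          push_cast
          congr 1
          ring
  refine ⟨?_, ?_⟩
  · intro P hP hT
    by_contra hlog
    push Not at hlog
    set X := (N : ℝ) ^ (1 / (4 * ((C : ℝ) + 1))) with hX
    have hX1 : 1 ≤ X := Real.one_le_rpow hN1' (by positivity)
    have hXle : X ≤ ((h : ℝ) + 1) ^ (1 / 2 : ℝ) := by
      calc X ≤ (((h : ℝ) + 1) ^ (2 * ((C : ℝ) + 1))) ^ (1 / (4 * ((C : ℝ) + 1))) :=
            Real.rpow_le_rpow (by positivity) hNle' (by positivity)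
        _ = ((h : ℝ) + 1) ^ (1 / 2 : ℝ) := by
            rw [← Real.rpow_mul hx.le]
            congr 1
            field_simp
            norm_num
    set s := ⌊X⌋₊ + 1 with hs
    have hsX : X < s := by rw [hs]; exact_mod_cast Nat.lt_floor_add_one X
    have hsX' : (s : ℝ) ≤ 2 * X := by
      rw [hs]
      push_cast
      have := Nat.floor_le (show 0 ≤ X by linarith)
      linarith
    have hsize : P.size ≤ 2 ^ s := by
      have h1 : (0 : ℝ) < P.size := by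
        have : 0 < P.size := Nat.succ_pos _
        exact_mod_cast this
      have h2 : (P.size : ℝ) ≤ (2 : ℝ) ^ (s : ℝ) := by
        rw [← Real.logb_le_iff_le_rpow (by norm_num) h1]
        exact hlog.trans hsX.le
      rw [Real.rpow_natCast] at h2
      exact_mod_cast h2
    -- the number of steps
    set Z := (N : ℝ) ^ θ with hZ
    have hZ1 : 1 ≤ Z := Real.one_le_rpow hN1' hθ0
    have hZle : Z ≤ ((h : ℝ) + 1) ^ (2 * ((C : ℝ) + 1) * θ) := by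
      calc Z ≤ (((h : ℝ) + 1) ^ (2 * ((C : ℝ) + 1))) ^ θ :=
            Real.rpow_le_rpow (by positivity) hNle' hθ0
        _ = _ := by rw [← Real.rpow_mul hx.le]
    set L := ⌊Z⌋₊ with hL
    have hL1 : 1 ≤ L := by rw [hL]; exact Nat.le_floor (by rw [Nat.cast_one]; exact hZ1)
    have hLZ : (L : ℝ) ≤ Z := Nat.floor_le (by linarith)
    set τ := Nat.log 2 L + 1 with hτ
    have hτ1 : L < 2 ^ τ := Nat.lt_pow_succ_log_self (by norm_num) L
    have hτ2 : 2 ^ τ ≤ 2 * L := by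
      rw [hτ, pow_succ, mul_comm]
      exact Nat.mul_le_mul_left _ (Nat.pow_log_le_self 2 (by omega))
    have hτ3 : ((4 ^ τ : ℕ) : ℝ) ≤ 4 * ((h : ℝ) + 1) ^ (4 * θ * ((C : ℝ) + 1)) := by
      have h1 : ((4 ^ τ : ℕ) : ℝ) = ((2 ^ τ : ℕ) : ℝ) ^ 2 := by
        push_cast
        rw [← pow_mul, mul_comm, pow_mul]
        norm_num
      have h2 : ((2 ^ τ : ℕ) : ℝ) ≤ 2 * Z := by
        calc ((2 ^ τ : ℕ) : ℝ) ≤ ((2 * L : ℕ) : ℝ) := Nat.cast_le.mpr hτ2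
          _ = 2 * (L : ℝ) := by push_cast; ring
          _ ≤ 2 * Z := by linarith
      rw [h1]
      calc ((2 ^ τ : ℕ) : ℝ) ^ 2 ≤ (2 * Z) ^ 2 := pow_le_pow_left₀ (Nat.cast_nonneg _) h2 2
        _ = 4 * (Z * Z) := by ring
        _ ≤ 4 * (((h : ℝ) + 1) ^ (2 * ((C : ℝ) + 1) * θ) *
              ((h : ℝ) + 1) ^ (2 * ((C : ℝ) + 1) * θ)) := by
            refine mul_le_mul_of_nonneg_left (mul_le_mul hZle hZle (by linarith) ?_) (by norm_num)
            positivity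
        _ = 4 * ((h : ℝ) + 1) ^ (4 * θ * ((C : ℝ) + 1)) := by
            rw [← Real.rpow_add hx]
            congr 2
            ring
    have hT' : ∀ x, S (value x (pyrTop h)) = true →
        ∃ l, P.IsComp x l true ∧ l.length ≤ 2 ^ τ := by
      intro x hx
      obtain ⟨l, h1, h2⟩ := hT x hx
      exact ⟨l, h1, (Nat.le_floor h2).trans hτ1.le⟩
    have hH : ((h : ℝ) + 1) ^ (4 : ℕ) = ((h : ℝ) + 1) ^ (4 : ℝ) := by
      rw [← Real.rpow_natCast]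
      norm_num
    have hE : ((h : ℝ) + 1) ^ (4 * θ * ((C : ℝ) + 1)) * ((h : ℝ) + 1) ^ (4 : ℕ) =
        ((h : ℝ) + 1) ^ (4 + 4 * θ * ((C : ℝ) + 1)) := by
      rw [hH, ← Real.rpow_add hx]
      congr 1
      ring
    have c1 : (16 * 4 ^ τ * (h + 1) ^ 4) ^ (m + 1) ≤ k ^ m := by
      have h1 : (((16 * 4 ^ τ * (h + 1) ^ 4) ^ (m + 1) : ℕ) : ℝ) ≤ ((k ^ m : ℕ) : ℝ) := by
        have h2 : ((16 * 4 ^ τ * (h + 1) ^ 4 : ℕ) : ℝ) ≤
            64 * ((h : ℝ) + 1) ^ (4 + 4 * θ * ((C : ℝ) + 1)) := by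
          rw [← hE]
          calc ((16 * 4 ^ τ * (h + 1) ^ 4 : ℕ) : ℝ) =
                16 * ((4 ^ τ : ℕ) : ℝ) * ((h : ℝ) + 1) ^ (4 : ℕ) := by push_cast; ring
            _ ≤ 16 * (4 * ((h : ℝ) + 1) ^ (4 * θ * ((C : ℝ) + 1))) *
                ((h : ℝ) + 1) ^ (4 : ℕ) :=
                mul_le_mul_of_nonneg_right (mul_le_mul_of_nonneg_left hτ3 (by norm_num))
                  (by positivity)
            _ = _ := by ring
        rw [Nat.cast_pow]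
        refine (pow_le_pow_left₀ (Nat.cast_nonneg _) h2 _).trans (g1.trans (le_of_eq ?_))
        rw [hk]
        push_cast
        rw [pow_mul]
      exact_mod_cast h1
    have c2 : 32 * 4 ^ τ * (h + 1) ^ 2 < k := by
      have h1 : ((32 * 4 ^ τ * (h + 1) ^ 2 : ℕ) : ℝ) < (k : ℝ) := by
        calc ((32 * 4 ^ τ * (h + 1) ^ 2 : ℕ) : ℝ) =
              32 * ((4 ^ τ : ℕ) : ℝ) * ((h : ℝ) + 1) ^ (2 : ℕ) := by push_cast; ring
          _ ≤ 32 * (4 * ((h : ℝ) + 1) ^ (4 * θ * ((C : ℝ) + 1))) * ((h : ℝ) + 1) ^ (4 : ℕ) := by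
              refine mul_le_mul (mul_le_mul_of_nonneg_left hτ3 (by norm_num)) ?_ (by positivity)
                (by positivity)
              exact pow_le_pow_right₀ hx1 (by norm_num)
          _ = 128 * (((h : ℝ) + 1) ^ (4 * θ * ((C : ℝ) + 1)) * ((h : ℝ) + 1) ^ (4 : ℕ)) := by
              ring
          _ = 128 * ((h : ℝ) + 1) ^ (4 + 4 * θ * ((C : ℝ) + 1)) := by rw [hE]
          _ < ((h : ℝ) + 1) ^ C := g2
          _ = (k : ℝ) := by rw [hk]; push_cast; rfl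
      exact_mod_cast h1
    have h1 := pyramid_tl hP hSa hSδ hT' hsize hh1 c1 c2
    have h2 : (h : ℝ) ≤ 2 * (m + 1) * (3 + 2 * s) * τ := by exact_mod_cast h1
    -- `τ ≤ 7 (C + 1) (h + 1) ^ (1 / 4)`
    have h3 : (τ : ℝ) ≤ 7 * ((C : ℝ) + 1) * ((h : ℝ) + 1) ^ (1 / 4 : ℝ) := by
      have h4 : (2 : ℝ) ^ (τ : ℝ) ≤ 2 * ((h : ℝ) + 1) ^ (2 * ((C : ℝ) + 1) * θ) := by
        rw [Real.rpow_natCast]
        calc (2 : ℝ) ^ τ = ((2 ^ τ : ℕ) : ℝ) := by push_cast; rfl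
          _ ≤ ((2 * L : ℕ) : ℝ) := Nat.cast_le.mpr hτ2
          _ = 2 * (L : ℝ) := by push_cast; ring
          _ ≤ 2 * ((h : ℝ) + 1) ^ (2 * ((C : ℝ) + 1) * θ) := by linarith
      have h5 : (τ : ℝ) * Real.log 2 ≤
          Real.log 2 + 2 * ((C : ℝ) + 1) * θ * Real.log ((h : ℝ) + 1) := by
        have h6 := Real.log_le_log (by positivity) h4
        rw [Real.log_rpow (by norm_num), Real.log_mul (by norm_num) (by positivity),
          Real.log_rpow hx] at h6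
        exact h6
      have h7 : Real.log ((h : ℝ) + 1) ≤ 4 * ((h : ℝ) + 1) ^ (1 / 4 : ℝ) := by
        have := Real.log_le_rpow_div hx.le (show (0 : ℝ) < 1 / 4 by norm_num)
        calc Real.log ((h : ℝ) + 1) ≤ ((h : ℝ) + 1) ^ (1 / 4 : ℝ) / (1 / 4) := this
          _ = 4 * ((h : ℝ) + 1) ^ (1 / 4 : ℝ) := by ring
      have h8 : (0.6931471803 : ℝ) < Real.log 2 := Real.log_two_gt_d9
      have h9 : (1 : ℝ) ≤ ((h : ℝ) + 1) ^ (1 / 4 : ℝ) := Real.one_le_rpow hx1 (by norm_num)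
      set Y := ((h : ℝ) + 1) ^ (1 / 4 : ℝ) with hY
      have h10 : 2 * ((C : ℝ) + 1) * θ * Real.log ((h : ℝ) + 1) ≤ 2 * ((C : ℝ) + 1) * Y := by
        have h11 : 2 * ((C : ℝ) + 1) * θ * Real.log ((h : ℝ) + 1) ≤
            2 * ((C : ℝ) + 1) * θ * (4 * Y) :=
          mul_le_mul_of_nonneg_left h7 (by positivity)
        have h12 : 2 * ((C : ℝ) + 1) * θ * (4 * Y) = (2 * ((C : ℝ) + 1) * Y) * (4 * θ) := by ring
        have h13 : (2 * ((C : ℝ) + 1) * Y) * (4 * θ) ≤ (2 * ((C : ℝ) + 1) * Y) * 1 :=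
          mul_le_mul_of_nonneg_left (by linarith) (by positivity)
        linarith
      have h14 : (τ : ℝ) * Real.log 2 ≤ Real.log 2 * (7 * ((C : ℝ) + 1) * Y) := by
        have h15 : (1 : ℝ) ≤ ((C : ℝ) + 1) * Y := by nlinarith
        have h16 : 0 < ((C : ℝ) + 1) * Y := by positivity
        nlinarith
      rw [mul_comm (Real.log 2)] at h14
      exact le_of_mul_le_mul_right h14 (by linarith)
    have h4 : (3 + 2 * (s : ℝ)) ≤ 7 * ((h : ℝ) + 1) ^ (1 / 2 : ℝ) := by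
      have h9 : (1 : ℝ) ≤ ((h : ℝ) + 1) ^ (1 / 2 : ℝ) := Real.one_le_rpow hx1 (by norm_num)
      linarith
    have h5 : (h : ℝ) ≤ 98 * (m + 1) * (C + 1) * ((h : ℝ) + 1) ^ (3 / 4 : ℝ) := by
      calc (h : ℝ) ≤ 2 * (m + 1) * (3 + 2 * s) * τ := h2
        _ ≤ 2 * (m + 1) * (7 * ((h : ℝ) + 1) ^ (1 / 2 : ℝ)) *
            (7 * ((C : ℝ) + 1) * ((h : ℝ) + 1) ^ (1 / 4 : ℝ)) := by
            refine mul_le_mul (mul_le_mul_of_nonneg_left h4 (by positivity)) h3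
              (Nat.cast_nonneg _) (by positivity)
        _ = 98 * (m + 1) * (C + 1) * (((h : ℝ) + 1) ^ (1 / 2 : ℝ) *
            ((h : ℝ) + 1) ^ (1 / 4 : ℝ)) := by ring
        _ = 98 * (m + 1) * (C + 1) * ((h : ℝ) + 1) ^ (3 / 4 : ℝ) := by
            rw [← Real.rpow_add hx]
            norm_num
    linarith
  · obtain ⟨P, h1, h2, h3, _⟩ := upper (pyramid h) k hk1 (pyrTop h) S
    refine ⟨P, h1, h2, fun x l R hl => ?_⟩
    obtain ⟨h4, _⟩ := h3 x l R hl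
    have h6 : l.length ^ C ≤ N := by
      refine le_trans ?_ hkN
      rw [h4, hk]
      calc Fintype.card (pyramid h).V ^ C ≤ ((h + 1) ^ 2) ^ C :=
            Nat.pow_le_pow_left (pyramid_card_le h) C
        _ = ((h + 1) ^ C) ^ 2 := by rw [← pow_mul, ← pow_mul, mul_comm]
    have h7 : ((l.length : ℝ)) = (((l.length : ℝ)) ^ C) ^ (1 / (C : ℝ)) := by
      rw [← Real.rpow_natCast, ← Real.rpow_mul (by positivity), mul_one_div_cancel hC0.ne',
        Real.rpow_one]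
    rw [h7]
    calc (((l.length : ℝ)) ^ C) ^ (1 / (C : ℝ)) ≤ (N : ℝ) ^ (1 / (C : ℝ)) :=
          Real.rpow_le_rpow (by positivity) (by exact_mod_cast h6) (by positivity)
      _ ≤ (N : ℝ) ^ δ := Real.rpow_le_rpow_of_exponent_le hN1' hCδ

end Pool.Agent.W994.DE
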