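import Pool.Agent.W994.DE.Dag

/-!
# Pebbling from a hierarchical structure of sets with small boundaries
-/

set_option autoImplicit false

namespace Pool.Agent.W994.DE

namespace Dag

open Finset

variable {G : Dag}

/-- The boundary of `E`: the elements with a parent which is not in `E`. -/
def Bd (E : Finset G.V) : Finset G.V :=
  univ.filter fun j => j ∈ E ∧ ∃ i, i ∉ E ∧ ∃ s, G.kid i s = j

theorem mem_Bd {E : Finset G.V} {j : G.V} : j ∈ Bd E ↔ j ∈ E ∧ ∃ i, i ∉ E ∧ ∃ s, G.kid i s = j := by
  simp [Bd]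

/-- `Str φ e E`: the complement of `E` is contained in the complements of two sets with boundaries
of size at most `φ`, and so on, `e` times, until at most one element is left. -/
inductive Str (φ : ℕ) : ℕ → Finset G.V → Prop
  | zero (E : Finset G.V) (i₀ : G.V) (h : ∀ i, i ≠ i₀ → i ∈ E) : Str φ 0 E
  | succ (e : ℕ) (E E₁ E₂ : Finset G.V) (h1 : Str φ e E₁) (h2 : Str φ e E₂)
      (hB1 : (Bd E₁).card ≤ φ) (hB2 : (Bd E₂).card ≤ φ) (h : E₁ ∩ E₂ ⊆ E) : Str φ (e + 1) E

theorem Str.inv_zero {φ : ℕ} {E : Finset G.V} (h : Str φ 0 E) : ∃ i₀, ∀ i, i ≠ i₀ → i ∈ E := by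
  cases h
  exact ⟨_, by assumption⟩

theorem Str.inv_succ {φ e : ℕ} {E : Finset G.V} (h : Str φ (e + 1) E) : ∃ E₁ E₂ : Finset G.V,
    Str φ e E₁ ∧ Str φ e E₂ ∧ (Bd E₁).card ≤ φ ∧ (Bd E₂).card ≤ φ ∧ E₁ ∩ E₂ ⊆ E := by
  cases h
  rename_i E₁ E₂ hB1 hB2 h1 h2 h
  exact ⟨E₁, E₂, h1, h2, hB1, hB2, h⟩

theorem Str.mono {φ e : ℕ} {E E' : Finset G.V} (h : Str φ e E) (hE : E ⊆ E') : Str φ e E' := by
  cases e with
  | zero =>
    obtain ⟨i₀, h⟩ := h.inv_zero
    exact Str.zero _ i₀ fun i hi => hE (h i hi)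
  | succ e =>
    obtain ⟨E₁, E₂, h1, h2, hB1, hB2, h⟩ := h.inv_succ
    exact Str.succ e _ _ _ h1 h2 hB1 hB2 (h.trans hE)

/-- The node `v` can be reached from `i` downwards outside `C`. -/
def Reg (C : Finset G.V) (i v : G.V) : Prop :=
  Relation.ReflTransGen (fun a b => (∃ s, G.kid a s = b) ∧ b ∉ C) i v

theorem Reg.rank_le {C : Finset G.V} {i v : G.V} (h : Reg C i v) : G.rank v ≤ G.rank i := by
  induction h with
  | refl => exact le_rfl
  | tail _ hab ih =>
    obtain ⟨⟨s, hs⟩, _⟩ := hab
    rw [← hs]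
    exact (G.rank_lt _ _).le.trans ih

theorem Reg.mono {C C' : Finset G.V} (hC : C ⊆ C') {i v : G.V} (h : Reg C' i v) : Reg C i v :=
  Relation.ReflTransGen.mono (fun _ _ hab => ⟨hab.1, fun hb => hab.2 (hC hb)⟩) _ _ h

theorem reach_of_str {φ : ℕ} : ∀ (e : ℕ) (E : Finset G.V), Str φ e E → ∀ (i : G.V)
    (C : Finset G.V), (∀ v, Reg C i v → v ∉ E) →
      G.Reach (C.card + 2 * φ * e + 1) C (insert i C) := by
  classical
  intro e
  induction e with
  | zero =>
    intro E hE i C hC
    obtain ⟨i₀, h⟩ := hE.inv_zero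
    · have hi : i = i₀ := by
        by_contra hne
        exact hC i Relation.ReflTransGen.refl (h i hne)
      refine Reach.place (fun s => ?_) (by simp)
      by_contra hk
      have h1 := hC (G.kid i s) (Relation.ReflTransGen.single ⟨⟨s, rfl⟩, hk⟩)
      have h2 : G.kid i s = i₀ := by
        by_contra hne
        exact h1 (h _ hne)
      have h3 := G.rank_lt i s
      rw [h2, hi] at h3
      exact lt_irrefl _ h3
  | succ e ih =>
    intro E hE i C hC
    obtain ⟨E₁, E₂, h1, h2, hB1, hB2, hEE⟩ := hE.inv_succ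
    · set Q := ((Bd E₁ ∪ Bd E₂) \ C).filter fun v => Reg C i v with hQ
      have hQcard : Q.card ≤ 2 * φ := by
        calc Q.card ≤ (Bd E₁ ∪ Bd E₂).card :=
              (card_filter_le _ _).trans (card_le_card sdiff_subset)
          _ ≤ (Bd E₁).card + (Bd E₂).card := card_union_le _ _
          _ ≤ 2 * φ := by omega
      have hmemQ : ∀ v, v ∈ Q ↔ ((v ∈ Bd E₁ ∨ v ∈ Bd E₂) ∧ v ∉ C) ∧ Reg C i v := by
        intro v
        rw [hQ, mem_filter, mem_sdiff, mem_union]
      set s := C.card + 2 * φ * (e + 1) + 1 with hs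
      have hadd : ∀ D ⊆ Q, ∀ m, Reg C i m → (∀ m' ∈ Q, G.rank m' < G.rank m → m' ∈ D) →
          G.Reach s (C ∪ D) (insert m (C ∪ D)) := by
        intro D hD m hm hD'
        have hcard : (C ∪ D).card + 2 * φ * e + 1 ≤ s := by
          have h3 := card_union_le C D
          have h4 := card_le_card hD
          have h5 : 2 * φ * (e + 1) = 2 * φ * e + 2 * φ := by ring
          omega
        have key : ∀ E' : Finset G.V, (∀ v, v ∈ Bd E' → v ∈ Bd E₁ ∨ v ∈ Bd E₂) → m ∉ E' →
            ∀ v, Reg (C ∪ D) m v → v ∉ E' := by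
          intro E' hE' hmE v hv
          induction hv with
          | refl => exact hmE
          | @tail b c hmb hbc ihb =>
            obtain ⟨⟨σ, hσ⟩, hcC⟩ := hbc
            intro hcE
            have hcBd : c ∈ Bd E' := mem_Bd.mpr ⟨hcE, b, ihb, σ, hσ⟩
            have hcC' : c ∉ C := fun h => hcC (mem_union_left _ h)
            have hreg : Reg C i c := by
              have h6 : Reg (C ∪ D) m c := hmb.tail ⟨⟨σ, hσ⟩, hcC⟩
              exact Relation.ReflTransGen.trans hm (Reg.mono subset_union_left h6)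
            have hcQ : c ∈ Q := (hmemQ c).mpr ⟨⟨hE' c hcBd, hcC'⟩, hreg⟩
            have hrk : G.rank c < G.rank m := by
              have h7 : G.rank b ≤ G.rank m := Reg.rank_le hmb
              rw [← hσ]
              exact lt_of_lt_of_le (G.rank_lt _ _) h7
            exact hcC (mem_union_right _ (hD' c hcQ hrk))
        have hmE : m ∉ E₁ ∨ m ∉ E₂ := by
          by_contra hno
          push Not at hno
          exact hC m hm (hEE (mem_inter.mpr hno))
        rcases hmE with hmE | hmE
        · exact (ih E₁ h1 m (C ∪ D) (key E₁ (fun v hv => Or.inl hv) hmE)).mono hcard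
        · exact (ih E₂ h2 m (C ∪ D) (key E₂ (fun v hv => Or.inr hv) hmE)).mono hcard
      have hfill : ∀ q : ℕ, ∀ D ⊆ Q, (Q \ D).card = q → G.Reach s (C ∪ D) (C ∪ Q) := by
        intro q
        induction q with
        | zero =>
          intro D hD hq
          rw [card_eq_zero, sdiff_eq_empty_iff_subset] at hq
          rw [Subset.antisymm hD hq]
          exact Reach.refl _ _
        | succ q ihq =>
          intro D hD hq
          obtain ⟨m, hm, hmin⟩ := exists_min_image (Q \ D) G.rank (card_pos.mp (by omega))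
          have hmQ := (mem_sdiff.mp hm).1
          have h3 : G.Reach s (C ∪ D) (insert m (C ∪ D)) := by
            refine hadd D hD m ((hmemQ m).mp hmQ).2 (fun m' hm' hlt => ?_)
            by_contra hnot
            have := hmin m' (mem_sdiff.mpr ⟨hm', hnot⟩)
            omega
          refine h3.trans ?_
          rw [← union_insert]
          refine ihq _ (insert_subset hmQ hD) ?_
          rw [sdiff_insert, card_erase_of_mem hm, hq]
          rfl
      have h0 := hfill _ ∅ (empty_subset _) rfl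
      rw [union_empty] at h0
      have h3 : G.Reach s (C ∪ Q) (insert i (C ∪ Q)) :=
        hadd Q Subset.rfl i Relation.ReflTransGen.refl (fun m' hm' _ => hm')
      refine (h0.trans h3).trans (Reach.remove ?_ ?_)
      · exact insert_subset_insert _ subset_union_left
      · have h4 := card_insert_le i (C ∪ Q)
        have h5 := card_union_le C Q
        have h6 : 2 * φ * (e + 1) = 2 * φ * e + 2 * φ := by ring
        omega

theorem pebblable_of_str {φ e : ℕ} {E : Finset G.V} (hE : Str φ e E) {r : G.V}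
    (h : ∀ v, Reg ∅ r v → v ∉ E) : G.Pebblable (2 * φ * e + 1) r := by
  have := reach_of_str e E hE r ∅ h
  exact ⟨{r}, mem_singleton_self r, by simpa using this⟩

end Dag

end Pool.Agent.W994.DE
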