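import Pool.Agent.W994.DE.Nd
import Pool.Agent.W994.DE.Str

/-!
# Certificates: partial computations with local information about their inputs
-/

set_option autoImplicit false

namespace Pool.Agent.W994.DE

open Finset
open Pool.Agent.H554R2.Thrifty (BP)

namespace Dag

variable {G : Dag} {k : ℕ}

/-- `Cert P δ v len s t Pr l y E`: the walk `l` of `P` on the input `y` leads from `s` to `t`. The
entries which it reads are those of `inp v δ`, except for entries with a coordinate in a private set
`Pr j`; the relevant entries have the right values; the relevant entries of the nodes of `E` are not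
read. -/
structure Cert (P : BP (G.Var k) k) (δ : Fin k) (v : G.V → Fin k) (len : ℕ)
    (s t : P.State ⊕ Bool) (Pr : G.V → Finset (Fin k)) (l : List P.State)
    (y : G.Var k → Fin k) (E : Finset G.V) : Prop where
  trav : Trav P y l s t
  len_le : l.length ≤ len
  old : ∀ q ∈ l, (∀ σ, (P.query q).2 σ ∉ Pr (G.kid (P.query q).1 σ)) →
    y (P.query q) = inp v δ (P.query q)
  cons : ∀ q ∈ l, (P.query q).2 = kidVal v (P.query q).1 → y (P.query q) = v (P.query q).1
  del : ∀ q ∈ l, ∀ σ, (P.query q).2 σ = δ → y (P.query q) = δ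
  elim : ∀ q ∈ l, (P.query q).1 ∈ E → (P.query q).2 ≠ kidVal v (P.query q).1

variable {P : BP (G.Var k) k} {δ : Fin k} {v w : G.V → Fin k} {len len' : ℕ}
  {s t u : P.State ⊕ Bool} {Pr Pr' : G.V → Finset (Fin k)} {l l' : List P.State}
  {y y' : G.Var k → Fin k} {E E' : Finset G.V}

theorem Cert.mono (h : Cert P δ v len s t Pr l y E) (hPr : ∀ j, Pr j ⊆ Pr' j) :
    Cert P δ v len s t Pr' l y E :=
  ⟨h.trav, h.len_le, fun q hq hσ => h.old q hq fun σ hm => hσ σ (hPr _ hm), h.cons, h.del, h.elim⟩

/-- A part of a computation on `inp v δ` with at most one step. -/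
theorem Cert.base {φ : ℕ} (r : G.V) (hv : ∀ i, v i ≠ δ) {l₀ : List P.State}
    (h₀ : Trav P (inp v δ) l₀ s t) (a : ℕ) : ∃ l y E,
      Cert P δ v 1 (pt l₀ t a) (pt l₀ t (a + 1)) (fun _ => ∅) l y E ∧ Str φ 0 E := by
  have h1 := trav_seg h₀ (Nat.le_succ a)
  set l := (l₀.drop a).take (a + 1 - a) with hl
  have hlen : l.length ≤ 1 := by
    rw [hl, List.length_take, Nat.add_sub_cancel_left]
    exact Nat.min_le_left _ _
  have hE : ∃ E : Finset G.V, Str φ 0 E ∧ ∀ q ∈ l, (P.query q).1 ∉ E := by
    match l, hlen with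
    | [], _ => exact ⟨univ.erase r, Str.zero _ r (fun i hi => mem_erase.mpr ⟨hi, mem_univ _⟩),
        fun q hq => absurd hq List.not_mem_nil⟩
    | [q], _ =>
      refine ⟨univ.erase (P.query q).1,
        Str.zero _ (P.query q).1 (fun i hi => mem_erase.mpr ⟨hi, mem_univ _⟩), fun q' hq' => ?_⟩
      rw [List.mem_singleton.mp hq']
      exact notMem_erase _ _
  obtain ⟨E, hE1, hE2⟩ := hE
  refine ⟨l, inp v δ, E, ⟨h1, hlen, fun _ _ _ => rfl, fun q _ hq => if_pos hq, ?_,
    fun q hq hE => absurd hE (hE2 q hq)⟩, hE1⟩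
  intro q _ σ hσ
  refine if_neg fun h => hv (G.kid (P.query q).1 σ) ?_
  rw [← hσ, h]
  rfl

/-- The walk `l` reads no entry with a coordinate in a set of `Pr`. -/
def Avoids (P : BP (G.Var k) k) (l : List P.State) (Pr : G.V → Finset (Fin k)) : Prop :=
  ∀ q ∈ l, ∀ σ, (P.query q).2 σ ∉ Pr (G.kid (P.query q).1 σ)

/-- Two certificates can be combined if their walks avoid the private sets of the other one. -/
theorem Cert.glue (h : Cert P δ v len s u Pr l y E) (h' : Cert P δ v len' u t Pr' l' y' E')
    (ha : Avoids P l Pr') (ha' : Avoids P l' Pr) :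
    ∃ y'', Cert P δ v (len + len') s t (fun j => Pr j ∪ Pr' j) (l ++ l') y'' (E ∩ E') := by
  classical
  let y'' : G.Var k → Fin k := fun u => if ∃ q ∈ l, P.query q = u then y u else y' u
  have h1 : ∀ q ∈ l, y'' (P.query q) = y (P.query q) := fun q hq => if_pos ⟨q, hq, rfl⟩
  have h2 : ∀ q ∈ l', y'' (P.query q) = y' (P.query q) := by
    intro q hq
    by_cases hex : ∃ q' ∈ l, P.query q' = P.query q
    · obtain ⟨q', hq', heq⟩ := hex
      have h3 : y'' (P.query q) = y (P.query q) := if_pos ⟨q', hq', heq⟩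
      have h4 : y (P.query q') = inp v δ (P.query q') := by
        refine h.old q' hq' ?_
        rw [heq]
        exact ha' q hq
      have h5 : y' (P.query q) = inp v δ (P.query q) := by
        refine h'.old q hq ?_
        rw [← heq]
        exact ha q' hq'
      rw [h3, h5, ← heq, h4]
    · exact if_neg hex
  refine ⟨y'', ⟨?_, ?_, ?_, ?_, ?_, ?_⟩⟩
  · exact trav_append.mpr ⟨u, trav_congr (fun q hq => (h1 q hq).symm) h.trav,
      trav_congr (fun q hq => (h2 q hq).symm) h'.trav⟩
  · rw [List.length_append]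
    exact Nat.add_le_add h.len_le h'.len_le
  · intro q hq hσ
    rcases List.mem_append.mp hq with hq | hq
    · rw [h1 q hq]
      exact h.old q hq fun σ hm => hσ σ (mem_union_left _ hm)
    · rw [h2 q hq]
      exact h'.old q hq fun σ hm => hσ σ (mem_union_right _ hm)
  · intro q hq hc
    rcases List.mem_append.mp hq with hq | hq
    · rw [h1 q hq]
      exact h.cons q hq hc
    · rw [h2 q hq]
      exact h'.cons q hq hc
  · intro q hq σ hσ
    rcases List.mem_append.mp hq with hq | hq
    · rw [h1 q hq]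
      exact h.del q hq σ hσ
    · rw [h2 q hq]
      exact h'.del q hq σ hσ
  · intro q hq hE
    rcases List.mem_append.mp hq with hq | hq
    · exact h.elim q hq (mem_inter.mp hE).1
    · exact h'.elim q hq (mem_inter.mp hE).2

/-- A certificate for `w` is one for `v`, if `v` and `w` differ only at elements of the boundary of
`E`, where the values of `w` are private and those of `v` are not read. -/
theorem Cert.switch (h : Cert P δ w len s t Pr l y E) {J : Finset G.V} (hJ : J ⊆ Bd E)
    (hoff : ∀ i, i ∉ J → w i = v i) (hne : w ≠ v) {Q : G.V → Finset (Fin k)}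
    (hQ : ∀ j ∈ J, w j ≠ v j → w j ∈ Q j)
    (hl : ∀ q ∈ l, ∀ σ, w (G.kid (P.query q).1 σ) ≠ v (G.kid (P.query q).1 σ) →
      (P.query q).2 σ ≠ v (G.kid (P.query q).1 σ)) :
    ∃ E'', Cert P δ v len s t (fun j => Pr j ∪ Q j) l y E'' ∧ E ⊂ E'' := by
  classical
  let E'' : Finset G.V := E ∪ univ.filter fun i => ∃ σ, w (G.kid i σ) ≠ v (G.kid i σ)
  have hEE : ∀ i, i ∈ E'' ↔ i ∈ E ∨ ∃ σ, w (G.kid i σ) ≠ v (G.kid i σ) := by
    intro i
    rw [mem_union, mem_filter]
    simp
  have hmemJ : ∀ j, w j ≠ v j → j ∈ J := by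
    intro j hj
    by_contra hnot
    exact hj (hoff j hnot)
  -- the relevant entries which are read
  have h1 : ∀ q ∈ l, (P.query q).2 = kidVal v (P.query q).1 →
      (P.query q).2 = kidVal w (P.query q).1 := by
    intro q hq hc
    rw [hc]
    funext σ
    by_contra hd
    exact hl q hq σ (Ne.symm hd) (congrFun hc σ)
  have h2 : ∀ q ∈ l, (P.query q).2 = kidVal w (P.query q).1 →
      w (P.query q).1 = v (P.query q).1 := by
    intro q hq hc
    by_contra hd
    exact h.elim q hq (mem_Bd.mp (hJ (hmemJ _ hd))).1 hc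
  refine ⟨E'', ⟨h.trav, h.len_le, ?_, ?_, h.del, ?_⟩, ?_⟩
  · intro q hq hσ
    rw [h.old q hq fun σ hm => hσ σ (mem_union_left _ hm)]
    by_cases hc : (P.query q).2 = kidVal w (P.query q).1
    · have h3 : (P.query q).2 = kidVal v (P.query q).1 := by
        rw [hc]
        funext σ
        by_contra hd
        refine hσ σ (mem_union_right _ ?_)
        rw [hc]
        exact hQ _ (hmemJ _ hd) hd
      simp only [inp, if_pos hc, if_pos h3]
      exact h2 q hq hc
    · have h3 : ¬ (P.query q).2 = kidVal v (P.query q).1 := fun h4 => hc (h1 q hq h4)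
      simp only [inp, if_neg hc, if_neg h3]
  · intro q hq hc
    have h3 := h1 q hq hc
    rw [h.cons q hq h3]
    exact h2 q hq h3
  · intro q hq hE hc
    rcases (hEE _).mp hE with hE | ⟨σ, hσ⟩
    · exact h.elim q hq hE (h1 q hq hc)
    · exact hl q hq σ hσ (congrFun hc σ)
  · obtain ⟨j, hj⟩ := Function.ne_iff.mp hne
    obtain ⟨_, i, hi, σ, hσ⟩ := mem_Bd.mp (hJ (hmemJ j hj))
    refine ⟨subset_union_left, fun hsub => hi (hsub ((hEE i).mpr (Or.inr ⟨σ, ?_⟩)))⟩
    rw [hσ]
    exact hj

theorem Below.rank_le {r i : G.V} (h : G.Below r i) : G.rank i ≤ G.rank r := by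
  induction h with
  | refl => exact le_rfl
  | tail _ hab ih =>
    obtain ⟨σ, hσ⟩ := hab
    refine ih.trans ?_
    rw [← hσ]
    exact (G.rank_lt _ _).le

/-- In a certificate for a complete accepting computation the relevant entries of all nodes below
`r` are read. -/
theorem Cert.final {r : G.V} {S : Fin k → Bool} (hP : Decides P r S) (hδ : S δ = false)
    (h : Cert P δ v len (Sum.inl P.start) (Sum.inr true) Pr l y E) {i : G.V}
    (hi : G.Below r i) : i ∉ E := by
  classical
  intro hiE
  let z : G.V → Fin k := fun j => if G.Below j i then δ else v j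
  let x : G.Var k → Fin k := fun u => if ∃ q ∈ l, P.query q = u then y u else
    if u.2 = kidVal z u.1 then z u.1 else δ
  have hkid : ∀ j, (∀ σ, ¬ G.Below (G.kid j σ) i) → kidVal z j = kidVal v j := by
    intro j hj
    funext σ
    exact if_neg (hj σ)
  have hval : value x = z := by
    refine value_unique _ _ fun j => ?_
    by_cases hex : ∃ q ∈ l, P.query q = (⟨j, kidVal z j⟩ : G.Var k)
    · have h1 : x ⟨j, kidVal z j⟩ = y ⟨j, kidVal z j⟩ := if_pos hex
      rw [h1]
      obtain ⟨q, hq, hqj⟩ := hex
      rw [← hqj]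
      have e1 : (P.query q).1 = j := by rw [hqj]
      by_cases hb : G.Below j i
      · have h2 : z j = δ := if_pos hb
        rcases Relation.ReflTransGen.cases_tail hb with hij | ⟨j', hj', hjj⟩
        · exfalso
          refine h.elim q hq (by rw [e1, hij]; exact hiE) ?_
          rw [hqj]
          refine hkid j fun σ hσ => ?_
          have h3 := hσ.rank_le
          have h4 := G.rank_lt j σ
          have h5 : G.rank j = G.rank i := by rw [hij]
          omega
        · obtain ⟨σ, hσ⟩ := hjj
          rw [h2]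
          have h3 : ∀ u : G.Var k, u = ⟨j, kidVal z j⟩ → ∃ σ', u.2 σ' = δ := by
            rintro u rfl
            refine ⟨σ, ?_⟩
            simp only [kidVal]
            rw [hσ]
            exact if_pos hj'
          obtain ⟨σ', hσ'⟩ := h3 _ hqj
          exact h.del q hq σ' hσ'
      · have h2 : z j = v j := if_neg hb
        have h3 : kidVal z j = kidVal v j := hkid j fun σ hσ =>
          hb (Relation.ReflTransGen.tail hσ ⟨σ, rfl⟩)
        rw [h2]
        have h4 : (P.query q).2 = kidVal v (P.query q).1 := by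
          rw [hqj]
          exact h3
        rw [h.cons q hq h4, e1]
    · have h1 : x ⟨j, kidVal z j⟩ = if (kidVal z j) = kidVal z j then z j else δ := if_neg hex
      rw [h1, if_pos rfl]
  have hcomp : P.IsComp x l true := by
    rw [isComp_iff]
    exact trav_congr (fun q hq => (if_pos ⟨q, hq, rfl⟩ : x (P.query q) = y (P.query q)).symm)
      h.trav
  have h1 := (hP x).mp ⟨l, hcomp⟩
  have h2 : z r = δ := if_pos hi
  rw [hval, h2, hδ] at h1
  exact absurd h1 (by simp)

end Dag

end Pool.Agent.W994.DE
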