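import Mathlib

/-!
# Directed acyclic graphs: evaluation and black pebbling

The DAG evaluation problem (Cook, McKenzie, Wehr, Braverman, Santhanam 2012 for trees; Wehr for
general graphs): every node `i` has a table `[k]^(deg i) → [k]`; the value of a node is the entry
of its table at the values of its children.
-/

set_option autoImplicit false

namespace Pool.Agent.W994.DE

/-- A finite directed acyclic graph with ordered children. -/
structure Dag where
  /-- the nodes -/
  V : Type
  [fin : Fintype V]
  [dec : DecidableEq V]
  /-- the number of children of a node; the sources have none -/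
  deg : V → ℕ
  /-- the children of a node -/
  kid : (i : V) → Fin (deg i) → V
  /-- a height function, which shows that there are no cycles -/
  rank : V → ℕ
  rank_lt : ∀ i a, rank (kid i a) < rank i

attribute [instance] Dag.fin Dag.dec

namespace Dag

variable (G : Dag)

/-- The variables of the evaluation problem over the alphabet `Fin k`: the entries of the tables. -/
abbrev Var (k : ℕ) : Type := Σ i : G.V, (Fin (G.deg i) → Fin k)

variable {G}

/-- The value of a node on the input `x`. -/
def value {k : ℕ} (x : G.Var k → Fin k) (i : G.V) : Fin k :=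
  x ⟨i, fun a => value x (G.kid i a)⟩
termination_by G.rank i
decreasing_by exact G.rank_lt i a

/-- The tuple of the values of the children. -/
def kidVal {k : ℕ} (w : G.V → Fin k) (i : G.V) : Fin (G.deg i) → Fin k := fun a => w (G.kid i a)

theorem value_eq {k : ℕ} (x : G.Var k → Fin k) (i : G.V) :
    value x i = x ⟨i, kidVal (value x) i⟩ := by
  rw [value]; rfl

theorem rank_induction {p : G.V → Prop} (h : ∀ i, (∀ a, p (G.kid i a)) → p i) (i : G.V) : p i := by
  have : ∀ n, ∀ i, G.rank i < n → p i := by
    intro n
    induction n with
    | zero => intro i hi; omega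
    | succ n ih => exact fun i hi => h i fun a => ih _ (by have := G.rank_lt i a; omega)
  exact this _ i (Nat.lt_succ_self _)

theorem value_unique {k : ℕ} (x : G.Var k → Fin k) (w : G.V → Fin k)
    (h : ∀ i, x ⟨i, kidVal w i⟩ = w i) : value x = w := by
  funext i
  refine rank_induction (p := fun i => value x i = w i) (fun i ih => ?_) i
  rw [value_eq, ← h i]
  congr 2
  funext a
  exact ih a

/-! ### Black pebbling -/

/-- One move of the black pebble game: a pebble is removed, or a pebble is put on a node all of
whose children carry pebbles. -/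
inductive Move (G : Dag) : Finset G.V → Finset G.V → Prop
  | remove (A : Finset G.V) (i : G.V) : Move G A (A.erase i)
  | place (A : Finset G.V) (i : G.V) (h : ∀ a, G.kid i a ∈ A) : Move G A (insert i A)

theorem Move.inv {A B : Finset G.V} (h : G.Move A B) :
    (∃ i, B = A.erase i) ∨ ∃ i, (∀ a, G.kid i a ∈ A) ∧ B = insert i A := by
  cases h with
  | remove i => exact Or.inl ⟨i, rfl⟩
  | place i h => exact Or.inr ⟨i, h, rfl⟩

/-- `G.Reach s A B`: the configuration `B` can be reached from `A` by moves of the pebble game with
at most `s` pebbles on the graph after each move. -/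
def Reach (G : Dag) (s : ℕ) : Finset G.V → Finset G.V → Prop :=
  Relation.ReflTransGen fun A B => G.Move A B ∧ B.card ≤ s

/-- `G.Pebblable s r`: starting from the empty graph the node `r` can be pebbled with `s`
pebbles. -/
def Pebblable (G : Dag) (s : ℕ) (r : G.V) : Prop := ∃ B, r ∈ B ∧ G.Reach s ∅ B

theorem Reach.mono {s s' : ℕ} (h : s ≤ s') {A B : Finset G.V} (hr : G.Reach s A B) :
    G.Reach s' A B := by
  induction hr with
  | refl => exact Relation.ReflTransGen.refl
  | tail _ h' ih => exact ih.tail ⟨h'.1, h'.2.trans h⟩

theorem Reach.trans {s : ℕ} {A B C : Finset G.V} (h : G.Reach s A B) (h' : G.Reach s B C) :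
    G.Reach s A C := Relation.ReflTransGen.trans h h'

theorem Reach.refl (s : ℕ) (A : Finset G.V) : G.Reach s A A := Relation.ReflTransGen.refl

theorem Reach.place {s : ℕ} {A : Finset G.V} {i : G.V} (h : ∀ a, G.kid i a ∈ A)
    (hs : A.card + 1 ≤ s) : G.Reach s A (insert i A) :=
  Relation.ReflTransGen.single ⟨Move.place A i h, (Finset.card_insert_le _ _).trans hs⟩

/-- Removing pebbles. -/
theorem Reach.remove {s : ℕ} {A B : Finset G.V} (h : B ⊆ A) (hs : A.card ≤ s) :
    G.Reach s A B := by
  classical
  have key : ∀ n : ℕ, ∀ A : Finset G.V, B ⊆ A → A.card ≤ s → (A \ B).card = n → G.Reach s A B := by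
    intro n
    induction n with
    | zero =>
      intro A h hs hn
      rw [Finset.card_eq_zero, Finset.sdiff_eq_empty_iff_subset] at hn
      rw [Finset.Subset.antisymm hn h]
      exact Reach.refl _ _
    | succ n ih =>
      intro A h hs hn
      obtain ⟨i, hi⟩ : (A \ B).Nonempty := by
        rw [← Finset.card_pos]; omega
      rw [Finset.mem_sdiff] at hi
      have hc : (A.erase i).card ≤ A.card := Finset.card_erase_le
      refine Relation.ReflTransGen.head ⟨Move.remove A i, hc.trans hs⟩ (ih _ ?_ (hc.trans hs) ?_)
      · exact Finset.subset_erase.mpr ⟨h, hi.2⟩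
      · rw [Finset.erase_sdiff_comm, Finset.card_erase_of_mem (Finset.mem_sdiff.mpr hi), hn]
        rfl
  exact key _ A h hs rfl

end Dag

end Pool.Agent.W994.DE
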