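import Pool.Agent.W994.DE.NdCount

/-!
# Random sets which single out one element of a family
-/

set_option autoImplicit false

namespace Pool.Agent.W994.DE

open Finset

section Iso

variable {α : Type} [Fintype α] [DecidableEq α] {M : ℕ} [NeZero M]

/-- The function `c`, changed to zero on `A`. -/
def zer (A : Finset α) (c : α → Fin M) : α → Fin M := fun a => if a ∈ A then 0 else c a

/-- The functions which vanish on `A`. -/
def Van (M : ℕ) [NeZero M] (A : Finset α) : Finset (α → Fin M) :=
  univ.filter fun c => ∀ a ∈ A, c a = 0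

theorem mem_Van {A : Finset α} {c : α → Fin M} : c ∈ Van M A ↔ ∀ a ∈ A, c a = 0 := by
  simp [Van]

theorem card_Van (A : Finset α) : (Van M A).card * M ^ A.card = M ^ Fintype.card α := by
  have h1 : Van M A = Fintype.piFinset fun i =>
      if i ∈ Aᶜ then (univ : Finset (Fin M)) else {(0 : Fin M)} := by
    ext c
    rw [mem_Van, Fintype.mem_piFinset]
    refine forall_congr' fun a => ?_
    by_cases ha : a ∈ A
    · simp [ha]
    · simp [ha]
  rw [h1, pi_card (Aᶜ) (fun _ => (0 : Fin M)), ← pow_add, card_compl_add_card]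

theorem card_zer (A : Finset α) (p : (α → Fin M) → Prop) [DecidablePred p] :
    (univ.filter fun c : α → Fin M => p (zer A c)).card ≤
      M ^ A.card * ((Van M A).filter p).card := by
  classical
  have h1 := card_le_mul_card_image (f := zer A) (univ.filter fun c : α → Fin M => p (zer A c))
    (M ^ A.card) (by
      intro c' _
      rw [← pi_card A c']
      refine card_le_card fun c hc => ?_
      have hcc := (mem_filter.mp hc).2
      rw [Fintype.mem_piFinset]
      intro a
      by_cases ha : a ∈ A
      · simp [ha]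
      · rw [if_neg ha, mem_singleton, ← hcc, zer, if_neg ha])
  refine h1.trans (Nat.mul_le_mul_left _ (card_le_card ?_))
  intro c hc
  obtain ⟨c₀, hc₀, rfl⟩ := mem_image.mp hc
  exact mem_filter.mpr ⟨mem_Van.mpr fun a ha => if_pos ha, (mem_filter.mp hc₀).2⟩

/-- `c` vanishes on the own elements of `w`, and on no other element of `Co w`. -/
def Clean {κ : Type} (own Co : κ → Finset α) (w : κ) (c : α → Fin M) : Prop :=
  (∀ a ∈ own w, c a = 0) ∧ ∀ a ∈ Co w, a ∉ own w → c a ≠ 0

/-- The isolation lemma: for most `c` and `v ∈ K` there is another `w ∈ K` such that `c`, changed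
to zero on the own elements of `v`, vanishes on the own elements of `w` and on no other element of
`Co w`. -/
theorem iso {κ : Type} [DecidableEq κ] (K : Finset κ) (own Co : κ → Finset α) {m B : ℕ}
    (hown : ∀ v ∈ K, (own v).card = m) (hCo : ∀ v ∈ K, (Co v).card ≤ B)
    (Bad : κ → Finset (α → Fin M))
    (hBad : ∀ v ∈ K, ∀ c ∈ Bad v, ¬ ∃ w ∈ K, w ≠ v ∧ Clean own Co w (zer (own v) c)) :
    (∑ v ∈ K, (Bad v).card) * M ≤ (M ^ m * M + K.card * B) * M ^ Fintype.card α := by
  classical
  set p : κ → (α → Fin M) → Prop := fun v c => ¬ ∃ w ∈ K, w ≠ v ∧ Clean own Co w c with hp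
  have h1 : ∀ v ∈ K, (Bad v).card ≤ M ^ m *
      (((Van M (own v)).filter fun c => p v c ∧ Clean own Co v c).card +
        ((Van M (own v)).filter fun c => ¬ Clean own Co v c).card) := by
    intro v hv
    have h2 : (Bad v).card ≤ (univ.filter fun c : α → Fin M => p v (zer (own v) c)).card :=
      card_le_card fun c hc => mem_filter.mpr ⟨mem_univ _, hBad v hv c hc⟩
    have h3 := card_zer (own v) (p v)
    rw [hown v hv] at h3
    refine h2.trans (h3.trans (Nat.mul_le_mul_left _ ?_))
    rw [← card_union_of_disjoint]
    · refine card_le_card fun c hc => ?_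
      obtain ⟨hc1, hc2⟩ := mem_filter.mp hc
      rw [mem_union, mem_filter, mem_filter]
      by_cases hcl : Clean own Co v c
      · exact Or.inl ⟨hc1, hc2, hcl⟩
      · exact Or.inr ⟨hc1, hcl⟩
    · rw [disjoint_left]
      intro c hc hc'
      exact (mem_filter.mp hc').2 (mem_filter.mp hc).2.2
  have h4 : ∀ v ∈ K, M ^ m * ((Van M (own v)).filter fun c => ¬ Clean own Co v c).card * M ≤
      B * M ^ Fintype.card α := by
    intro v hv
    have h5 : ((Van M (own v)).filter fun c => ¬ Clean own Co v c) ⊆
        (Co v \ own v).biUnion fun a => Van M (insert a (own v)) := by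
      intro c hc
      obtain ⟨hc1, hc2⟩ := mem_filter.mp hc
      have hc3 := mem_Van.mp hc1
      rw [Clean, not_and] at hc2
      have hc4 := hc2 hc3
      push Not at hc4
      obtain ⟨a, ha1, ha2, ha3⟩ := hc4
      rw [mem_biUnion]
      refine ⟨a, mem_sdiff.mpr ⟨ha1, ha2⟩, mem_Van.mpr fun b hb => ?_⟩
      rcases mem_insert.mp hb with rfl | hb
      · exact ha3
      · exact hc3 b hb
    calc M ^ m * ((Van M (own v)).filter fun c => ¬ Clean own Co v c).card * M
        ≤ M ^ m * (∑ a ∈ Co v \ own v, (Van M (insert a (own v))).card) * M :=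
          Nat.mul_le_mul_right _ (Nat.mul_le_mul_left _ ((card_le_card h5).trans card_biUnion_le))
      _ = ∑ a ∈ Co v \ own v, (Van M (insert a (own v))).card * M ^ (m + 1) := by
          rw [mul_sum, sum_mul]
          exact sum_congr rfl fun a _ => by ring
      _ = ∑ a ∈ Co v \ own v, M ^ Fintype.card α := by
          refine sum_congr rfl fun a ha => ?_
          have h6 := card_Van (M := M) (insert a (own v))
          rw [card_insert_of_notMem (mem_sdiff.mp ha).2, hown v hv] at h6
          exact h6
      _ = (Co v \ own v).card * M ^ Fintype.card α := by rw [sum_const, smul_eq_mul]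
      _ ≤ B * M ^ Fintype.card α :=
          Nat.mul_le_mul_right _ ((card_le_card sdiff_subset).trans (hCo v hv))
  have h7 : ∑ v ∈ K, ((Van M (own v)).filter fun c => p v c ∧ Clean own Co v c).card ≤
      M ^ Fintype.card α := by
    rw [← card_biUnion]
    · refine (card_le_univ _).trans ?_
      rw [Fintype.card_fun, Fintype.card_fin]
    · intro v hv w hw hvw
      rw [Function.onFun, disjoint_left]
      intro c hc hc'
      exact (mem_filter.mp hc).2.1 ⟨w, hw, hvw.symm, (mem_filter.mp hc').2.2⟩
  calc (∑ v ∈ K, (Bad v).card) * M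
      ≤ (∑ v ∈ K, M ^ m * (((Van M (own v)).filter fun c => p v c ∧ Clean own Co v c).card +
        ((Van M (own v)).filter fun c => ¬ Clean own Co v c).card)) * M :=
        Nat.mul_le_mul_right _ (sum_le_sum h1)
    _ = M ^ m * M * (∑ v ∈ K, ((Van M (own v)).filter fun c => p v c ∧ Clean own Co v c).card) +
        ∑ v ∈ K, M ^ m * ((Van M (own v)).filter fun c => ¬ Clean own Co v c).card * M := by
        rw [sum_mul, mul_sum, ← sum_add_distrib]
        exact sum_congr rfl fun v _ => by ring
    _ ≤ M ^ m * M * M ^ Fintype.card α + ∑ v ∈ K, B * M ^ Fintype.card α :=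
        Nat.add_le_add (Nat.mul_le_mul_left _ h7) (sum_le_sum h4)
    _ = (M ^ m * M + K.card * B) * M ^ Fintype.card α := by
        rw [sum_const, smul_eq_mul]
        ring

end Iso

end Pool.Agent.W994.DE
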