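import Pool.Agent.W994.DE.Cert
import Pool.Agent.W994.DE.Iso

/-!
# Random families of certificates
-/

set_option autoImplicit false

namespace Pool.Agent.W994.DE

open Finset
open Pool.Agent.H554R2.Thrifty (BP)

theorem sum_card_swap {A B : Type} (s : Finset A) (t : Finset B) (p : A → B → Prop)
    [∀ a b, Decidable (p a b)] :
    ∑ b ∈ t, ((s.filter fun a => p a b).card : ℝ) =
      ∑ a ∈ s, ((t.filter fun b => p a b).card : ℝ) := by
  simp only [card_filter, Nat.cast_sum]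
  exact sum_comm

namespace Dag

variable {G : Dag} {k : ℕ}

/-- The coordinates of the entries which are read by a walk. -/
noncomputable def Co (P : BP (G.Var k) k) (l : List P.State) : Finset (G.V × Fin k) := by
  classical
  exact l.toFinset.biUnion fun q =>
    univ.image fun σ => (G.kid (P.query q).1 σ, (P.query q).2 σ)

theorem mem_Co {P : BP (G.Var k) k} {l : List P.State} {c : G.V × Fin k} :
    c ∈ Co P l ↔ ∃ q ∈ l, ∃ σ, (G.kid (P.query q).1 σ, (P.query q).2 σ) = c := by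
  classical
  simp [Co]

theorem card_Co {P : BP (G.Var k) k} {dg len : ℕ} (hd : ∀ i, G.deg i ≤ dg) {l : List P.State}
    (hl : l.length ≤ len) : (Co P l).card ≤ len * dg := by
  classical
  refine (card_biUnion_le_card_mul _ _ dg fun q _ => ?_).trans
    (Nat.mul_le_mul_right _ ((List.toFinset_card_le l).trans hl))
  refine card_image_le.trans ?_
  rw [card_univ, Fintype.card_fin]
  exact hd _

variable (P : BP (G.Var k) k) (δ : Fin k) (W : Finset (G.V → Fin k))
  (e : (G.V → Fin k) → ℕ → P.State ⊕ Bool)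

/-- `v` has a certificate for the interval `[a, b)`, whose set has the property `Φ`. -/
def Ok (Φ : Finset G.V → Prop) (a b : ℕ) (Pr : G.V → Finset (Fin k)) (v : G.V → Fin k) : Prop :=
  ∃ l y E, Cert P δ v (b - a) (e v a) (e v b) Pr l y E ∧ Φ E

open Classical in
/-- There is a random family of private sets, for which all but a fraction `ε` of the elements of
`W` have certificates, and no element is private with a probability of more than `η`. -/
def FamP (Φ : Finset G.V → Prop) (a b : ℕ) (ε η : ℝ) : Prop :=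
  ∃ (D : Type) (_ : Fintype D) (_ : Nonempty D) (Pr : D → G.V → Finset (Fin k)),
    (∑ d : D, ((W.filter fun v => ¬ Ok P δ e Φ a b (Pr d) v).card : ℝ)) ≤
      ε * (Fintype.card D * W.card) ∧
    ∀ j x, ((univ.filter fun d => x ∈ Pr d j).card : ℝ) ≤ η * Fintype.card D

variable {P δ W e}

theorem Ok.mono {Φ Φ' : Finset G.V → Prop} {a b : ℕ} {Pr Pr' : G.V → Finset (Fin k)}
    {v : G.V → Fin k} (h : Ok P δ e Φ a b Pr v) (hPr : ∀ j, Pr j ⊆ Pr' j)
    (hΦ : ∀ E, Φ E → Φ' E) : Ok P δ e Φ' a b Pr' v := by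
  obtain ⟨l, y, E, h1, h2⟩ := h
  exact ⟨l, y, E, h1.mono hPr, hΦ E h2⟩

theorem FamP.mono {Φ Φ' : Finset G.V → Prop} {a b : ℕ} {ε η ε' η' : ℝ}
    (h : FamP P δ W e Φ a b ε η) (hΦ : ∀ E, Φ E → Φ' E) (hε : ε ≤ ε') (hη : η ≤ η') :
    FamP P δ W e Φ' a b ε' η' := by
  classical
  obtain ⟨D, hD, hD', Pr, h1, h2⟩ := h
  refine ⟨D, hD, hD', Pr, ?_, fun j x => (h2 j x).trans ?_⟩
  · refine le_trans (sum_le_sum fun d _ => ?_) (h1.trans ?_)
    · refine Nat.cast_le.mpr (card_le_card fun v hv => ?_)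
      obtain ⟨hv1, hv2⟩ := mem_filter.mp hv
      exact mem_filter.mpr ⟨hv1, fun hv' => hv2 (hv'.mono (fun _ => subset_rfl) hΦ)⟩
    · exact mul_le_mul_of_nonneg_right hε (by positivity)
  · exact mul_le_mul_of_nonneg_right hη (by positivity)

theorem card_not_avoids {D : Type} [Fintype D] {Pr : D → G.V → Finset (Fin k)} {η : ℝ}
    (h : ∀ j x, ((univ.filter fun d => x ∈ Pr d j).card : ℝ) ≤ η * Fintype.card D)
    (r : G.V) (δ : Fin k)
    {dg len : ℕ} (hd : ∀ i, G.deg i ≤ dg) {l : List P.State} (hl : l.length ≤ len)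
    [DecidablePred fun d => ¬ Avoids P l (Pr d)] :
    ((univ.filter fun d => ¬ Avoids P l (Pr d)).card : ℝ) ≤
      (len * dg : ℕ) * (η * Fintype.card D) := by
  classical
  have h0 : 0 ≤ η * Fintype.card D := le_trans (Nat.cast_nonneg _) (h r δ)
  have h1 : (univ.filter fun d => ¬ Avoids P l (Pr d)) ⊆
      (Co P l).biUnion fun c => univ.filter fun d => c.2 ∈ Pr d c.1 := by
    intro d hd
    have h2 := (mem_filter.mp hd).2
    rw [Avoids] at h2
    push Not at h2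
    obtain ⟨q, hq, σ, hσ⟩ := h2
    rw [mem_biUnion]
    exact ⟨_, mem_Co.mpr ⟨q, hq, σ, rfl⟩, mem_filter.mpr ⟨mem_univ _, hσ⟩⟩
  calc ((univ.filter fun d => ¬ Avoids P l (Pr d)).card : ℝ)
      ≤ (∑ c ∈ Co P l, (univ.filter fun d => c.2 ∈ Pr d c.1).card : ℕ) := by
        exact_mod_cast (card_le_card h1).trans card_biUnion_le
    _ ≤ ∑ _c ∈ Co P l, η * Fintype.card D := by
        rw [Nat.cast_sum]
        exact sum_le_sum fun c _ => h _ _
    _ = (Co P l).card * (η * Fintype.card D) := by rw [sum_const, nsmul_eq_mul]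
    _ ≤ (len * dg : ℕ) * (η * Fintype.card D) := by
        refine mul_le_mul_of_nonneg_right ?_ h0
        exact_mod_cast card_Co hd hl

/-- Combination of two neighbouring intervals. -/
theorem FamP.glue (r : G.V) {dg : ℕ} (hd : ∀ i, G.deg i ≤ dg) {Φ₁ Φ₂ Φ : Finset G.V → Prop}
    (hΦ : ∀ E₁ E₂, Φ₁ E₁ → Φ₂ E₂ → Φ (E₁ ∩ E₂)) {a b c : ℕ} (hab : a ≤ b) (hbc : b ≤ c)
    {ε₁ ε₂ η₁ η₂ : ℝ}
    (h₁ : FamP P δ W e Φ₁ a b ε₁ η₁) (h₂ : FamP P δ W e Φ₂ b c ε₂ η₂) :
    FamP P δ W e Φ a c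
      (ε₁ + ε₂ + ((b - a) * dg : ℕ) * η₂ + ((c - b) * dg : ℕ) * η₁) (η₁ + η₂) := by
  classical
  obtain ⟨D₁, _, _, Pr₁, hs₁, hη₁⟩ := h₁
  obtain ⟨D₂, _, _, Pr₂, hs₂, hη₂⟩ := h₂
  have hex₁ : ∀ d v, ∃ l y E, Ok P δ e Φ₁ a b (Pr₁ d) v →
      Cert P δ v (b - a) (e v a) (e v b) (Pr₁ d) l y E ∧ Φ₁ E := by
    intro d v
    by_cases h : Ok P δ e Φ₁ a b (Pr₁ d) v
    · obtain ⟨l, y, E, h1⟩ := h
      exact ⟨l, y, E, fun _ => h1⟩
    · exact ⟨[], fun _ => δ, ∅, fun h' => absurd h' h⟩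
  have hex₂ : ∀ d v, ∃ l y E, Ok P δ e Φ₂ b c (Pr₂ d) v →
      Cert P δ v (c - b) (e v b) (e v c) (Pr₂ d) l y E ∧ Φ₂ E := by
    intro d v
    by_cases h : Ok P δ e Φ₂ b c (Pr₂ d) v
    · obtain ⟨l, y, E, h1⟩ := h
      exact ⟨l, y, E, fun _ => h1⟩
    · exact ⟨[], fun _ => δ, ∅, fun h' => absurd h' h⟩
  choose l₁ y₁ E₁ hc₁ using hex₁
  choose l₂ y₂ E₂ hc₂ using hex₂
  refine ⟨D₁ × D₂, inferInstance, inferInstance, fun d j => Pr₁ d.1 j ∪ Pr₂ d.2 j, ?_, ?_⟩
  · have hsub : ∀ d : D₁ × D₂,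
        ((W.filter fun v => ¬ Ok P δ e Φ a c (fun j => Pr₁ d.1 j ∪ Pr₂ d.2 j) v).card : ℝ) ≤
        (W.filter fun v => ¬ Ok P δ e Φ₁ a b (Pr₁ d.1) v).card +
        (W.filter fun v => ¬ Ok P δ e Φ₂ b c (Pr₂ d.2) v).card +
        (W.filter fun v => Ok P δ e Φ₁ a b (Pr₁ d.1) v ∧
          ¬ Avoids P (l₁ d.1 v) (Pr₂ d.2)).card +
        (W.filter fun v => Ok P δ e Φ₂ b c (Pr₂ d.2) v ∧
          ¬ Avoids P (l₂ d.2 v) (Pr₁ d.1)).card := by
      intro d
      have h1 : (W.filter fun v => ¬ Ok P δ e Φ a c (fun j => Pr₁ d.1 j ∪ Pr₂ d.2 j) v) ⊆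
          (((W.filter fun v => ¬ Ok P δ e Φ₁ a b (Pr₁ d.1) v) ∪
          (W.filter fun v => ¬ Ok P δ e Φ₂ b c (Pr₂ d.2) v)) ∪
          (W.filter fun v => Ok P δ e Φ₁ a b (Pr₁ d.1) v ∧
            ¬ Avoids P (l₁ d.1 v) (Pr₂ d.2))) ∪
          (W.filter fun v => Ok P δ e Φ₂ b c (Pr₂ d.2) v ∧
            ¬ Avoids P (l₂ d.2 v) (Pr₁ d.1)) := by
        intro v hv
        obtain ⟨hvW, hv'⟩ := mem_filter.mp hv
        by_contra hno
        simp only [mem_union, mem_filter, hvW, true_and, not_or, not_not, not_and] at hno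
        obtain ⟨⟨⟨g1, g2⟩, g3⟩, g4⟩ := hno
        obtain ⟨c1, c2⟩ := hc₁ d.1 v g1
        obtain ⟨c3, c4⟩ := hc₂ d.2 v g2
        obtain ⟨y, hy⟩ := c1.glue c3 (g3 g1) (g4 g2)
        have e1 : b - a + (c - b) = c - a := by omega
        rw [e1] at hy
        exact hv' ⟨_, y, _, hy, hΦ _ _ c2 c4⟩
      calc ((W.filter fun v =>
            ¬ Ok P δ e Φ a c (fun j => Pr₁ d.1 j ∪ Pr₂ d.2 j) v).card : ℝ) ≤ _ :=
            Nat.cast_le.mpr (card_le_card h1)
        _ ≤ _ := by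
            have g1 := card_union_le (((W.filter fun v => ¬ Ok P δ e Φ₁ a b (Pr₁ d.1) v) ∪
              (W.filter fun v => ¬ Ok P δ e Φ₂ b c (Pr₂ d.2) v)) ∪
              (W.filter fun v => Ok P δ e Φ₁ a b (Pr₁ d.1) v ∧
                ¬ Avoids P (l₁ d.1 v) (Pr₂ d.2)))
              (W.filter fun v => Ok P δ e Φ₂ b c (Pr₂ d.2) v ∧
                ¬ Avoids P (l₂ d.2 v) (Pr₁ d.1))
            have g2 := card_union_le ((W.filter fun v => ¬ Ok P δ e Φ₁ a b (Pr₁ d.1) v) ∪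
              (W.filter fun v => ¬ Ok P δ e Φ₂ b c (Pr₂ d.2) v))
              (W.filter fun v => Ok P δ e Φ₁ a b (Pr₁ d.1) v ∧
                ¬ Avoids P (l₁ d.1 v) (Pr₂ d.2))
            have g3 := card_union_le (W.filter fun v => ¬ Ok P δ e Φ₁ a b (Pr₁ d.1) v)
              (W.filter fun v => ¬ Ok P δ e Φ₂ b c (Pr₂ d.2) v)
            have g4 := g1.trans (Nat.add_le_add_right (g2.trans (Nat.add_le_add_right g3 _)) _)
            exact_mod_cast g4
    have hA : ∑ d : D₁ × D₂, ((W.filter fun v => ¬ Ok P δ e Φ₁ a b (Pr₁ d.1) v).card : ℝ) ≤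
        ε₁ * (Fintype.card (D₁ × D₂) * W.card) := by
      rw [Fintype.sum_prod_type]
      simp only [sum_const, card_univ, nsmul_eq_mul]
      rw [← mul_sum]
      calc (Fintype.card D₂ : ℝ) *
            ∑ d, ((W.filter fun v => ¬ Ok P δ e Φ₁ a b (Pr₁ d) v).card : ℝ)
          ≤ Fintype.card D₂ * (ε₁ * (Fintype.card D₁ * W.card)) :=
            mul_le_mul_of_nonneg_left hs₁ (Nat.cast_nonneg _)
        _ = _ := by rw [Fintype.card_prod]; push_cast; ring
    have hB : ∑ d : D₁ × D₂, ((W.filter fun v => ¬ Ok P δ e Φ₂ b c (Pr₂ d.2) v).card : ℝ) ≤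
        ε₂ * (Fintype.card (D₁ × D₂) * W.card) := by
      rw [Fintype.sum_prod_type]
      simp only [sum_const, card_univ, nsmul_eq_mul]
      calc (Fintype.card D₁ : ℝ) *
            ∑ d, ((W.filter fun v => ¬ Ok P δ e Φ₂ b c (Pr₂ d) v).card : ℝ)
          ≤ Fintype.card D₁ * (ε₂ * (Fintype.card D₂ * W.card)) :=
            mul_le_mul_of_nonneg_left hs₂ (Nat.cast_nonneg _)
        _ = _ := by rw [Fintype.card_prod]; push_cast; ring
    have hC : ∑ d : D₁ × D₂, ((W.filter fun v => Ok P δ e Φ₁ a b (Pr₁ d.1) v ∧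
          ¬ Avoids P (l₁ d.1 v) (Pr₂ d.2)).card : ℝ) ≤
        (((b - a) * dg : ℕ) * η₂) * (Fintype.card (D₁ × D₂) * W.card) := by
      rw [Fintype.sum_prod_type]
      calc ∑ d₁ : D₁, ∑ d₂ : D₂, ((W.filter fun v => Ok P δ e Φ₁ a b (Pr₁ d₁) v ∧
            ¬ Avoids P (l₁ d₁ v) (Pr₂ d₂)).card : ℝ)
          = ∑ d₁ : D₁, ∑ v ∈ W, ((univ.filter fun d₂ => Ok P δ e Φ₁ a b (Pr₁ d₁) v ∧
            ¬ Avoids P (l₁ d₁ v) (Pr₂ d₂)).card : ℝ) :=
            sum_congr rfl fun d₁ _ => sum_card_swap _ _ _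
        _ ≤ ∑ _d₁ : D₁, ∑ _v ∈ W, (((b - a) * dg : ℕ) * (η₂ * Fintype.card D₂)) := by
            refine sum_le_sum fun d₁ _ => sum_le_sum fun v _ => ?_
            have hη0 : 0 ≤ η₂ * Fintype.card D₂ := le_trans (Nat.cast_nonneg _) (hη₂ r δ)
            by_cases hok : Ok P δ e Φ₁ a b (Pr₁ d₁) v
            · simp only [hok, true_and]
              exact card_not_avoids hη₂ r δ hd (hc₁ d₁ v hok).1.len_le
            · simp only [hok, false_and, filter_false, card_empty, Nat.cast_zero]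
              positivity
        _ = _ := by
            simp only [sum_const, card_univ, nsmul_eq_mul]
            rw [Fintype.card_prod]
            push_cast
            ring
    have hD : ∑ d : D₁ × D₂, ((W.filter fun v => Ok P δ e Φ₂ b c (Pr₂ d.2) v ∧
          ¬ Avoids P (l₂ d.2 v) (Pr₁ d.1)).card : ℝ) ≤
        (((c - b) * dg : ℕ) * η₁) * (Fintype.card (D₁ × D₂) * W.card) := by
      rw [Fintype.sum_prod_type_right]
      calc ∑ d₂ : D₂, ∑ d₁ : D₁, ((W.filter fun v => Ok P δ e Φ₂ b c (Pr₂ d₂) v ∧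
            ¬ Avoids P (l₂ d₂ v) (Pr₁ d₁)).card : ℝ)
          = ∑ d₂ : D₂, ∑ v ∈ W, ((univ.filter fun d₁ => Ok P δ e Φ₂ b c (Pr₂ d₂) v ∧
            ¬ Avoids P (l₂ d₂ v) (Pr₁ d₁)).card : ℝ) :=
            sum_congr rfl fun d₂ _ => sum_card_swap _ _ _
        _ ≤ ∑ _d₂ : D₂, ∑ _v ∈ W, (((c - b) * dg : ℕ) * (η₁ * Fintype.card D₁)) := by
            refine sum_le_sum fun d₂ _ => sum_le_sum fun v _ => ?_
            have hη0 : 0 ≤ η₁ * Fintype.card D₁ := le_trans (Nat.cast_nonneg _) (hη₁ r δ)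
            by_cases hok : Ok P δ e Φ₂ b c (Pr₂ d₂) v
            · simp only [hok, true_and]
              exact card_not_avoids hη₁ r δ hd (hc₂ d₂ v hok).1.len_le
            · simp only [hok, false_and, filter_false, card_empty, Nat.cast_zero]
              positivity
        _ = _ := by
            simp only [sum_const, card_univ, nsmul_eq_mul]
            rw [Fintype.card_prod]
            push_cast
            ring
    refine (sum_le_sum fun d _ => hsub d).trans ?_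
    rw [sum_add_distrib, sum_add_distrib, sum_add_distrib]
    calc _ ≤ ε₁ * (Fintype.card (D₁ × D₂) * W.card) + ε₂ * (Fintype.card (D₁ × D₂) * W.card) +
          (((b - a) * dg : ℕ) * η₂) * (Fintype.card (D₁ × D₂) * W.card) +
          (((c - b) * dg : ℕ) * η₁) * (Fintype.card (D₁ × D₂) * W.card) :=
          add_le_add (add_le_add (add_le_add hA hB) hC) hD
      _ = _ := by ring
  · intro j x
    have h1 : (univ.filter fun d : D₁ × D₂ => x ∈ Pr₁ d.1 j ∪ Pr₂ d.2 j) ⊆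
        (univ.filter fun d => x ∈ Pr₁ d j) ×ˢ univ ∪
          univ ×ˢ (univ.filter fun d => x ∈ Pr₂ d j) := by
      intro d hd
      have := mem_union.mp (mem_filter.mp hd).2
      simp only [mem_union, mem_product, mem_filter, mem_univ, true_and, and_true]
      exact this
    calc ((univ.filter fun d : D₁ × D₂ => x ∈ Pr₁ d.1 j ∪ Pr₂ d.2 j).card : ℝ)
        ≤ ((univ.filter fun d => x ∈ Pr₁ d j).card * Fintype.card D₂ +
          Fintype.card D₁ * (univ.filter fun d => x ∈ Pr₂ d j).card : ℕ) := by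
          refine Nat.cast_le.mpr ((card_le_card h1).trans ((card_union_le _ _).trans ?_))
          rw [card_product, card_product, card_univ, card_univ]
      _ = (univ.filter fun d => x ∈ Pr₁ d j).card * (Fintype.card D₂ : ℝ) +
          Fintype.card D₁ * (univ.filter fun d => x ∈ Pr₂ d j).card := by push_cast; ring
      _ ≤ (η₁ * Fintype.card D₁) * (Fintype.card D₂ : ℝ) +
          Fintype.card D₁ * (η₂ * Fintype.card D₂) :=
          add_le_add (mul_le_mul_of_nonneg_right (hη₁ j x) (Nat.cast_nonneg _))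
            (mul_le_mul_of_nonneg_left (hη₂ j x) (Nat.cast_nonneg _))
      _ = (η₁ + η₂) * Fintype.card (D₁ × D₂) := by
          rw [Fintype.card_prod]; push_cast; ring

end Dag

end Pool.Agent.W994.DE
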