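import Pool.Agent.W994.DE.Dag

/-!
# Sequences of nodes with small boundaries give pebblings with few pebbles
-/

set_option autoImplicit false

namespace Pool.Agent.W994.DE

namespace Dag

open Finset

variable {G : Dag}

/-- The nodes which occur in the sequence `R` in the interval `[a, b)`. -/
def M (R : ℕ → Finset G.V) (a b : ℕ) : Finset G.V := (Ico a b).biUnion R

/-- The missing nodes of the interval `[a, b)`: they do not occur in it, but a parent does. -/
def Mis (R : ℕ → Finset G.V) (a b : ℕ) : Finset G.V :=
  univ.filter fun j => j ∉ M R a b ∧ ∃ i ∈ M R a b, ∃ s, G.kid i s = j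

theorem mem_M {R : ℕ → Finset G.V} {a b : ℕ} {j : G.V} :
    j ∈ M R a b ↔ ∃ t, a ≤ t ∧ t < b ∧ j ∈ R t := by
  simp [M, and_assoc]

theorem mem_Mis {R : ℕ → Finset G.V} {a b : ℕ} {j : G.V} :
    j ∈ Mis R a b ↔ j ∉ M R a b ∧ ∃ i ∈ M R a b, ∃ s, G.kid i s = j := by
  simp [Mis]

theorem M_union {R : ℕ → Finset G.V} {a b c : ℕ} (h : a ≤ c) (h' : c ≤ b) :
    M R a b = M R a c ∪ M R c b := by
  ext j
  simp only [mem_union, mem_M]
  constructor
  · rintro ⟨t, h1, h2, h3⟩
    by_cases ht : t < c
    · exact Or.inl ⟨t, h1, ht, h3⟩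
    · exact Or.inr ⟨t, by omega, h2, h3⟩
  · rintro (⟨t, h1, h2, h3⟩ | ⟨t, h1, h2, h3⟩)
    · exact ⟨t, h1, by omega, h3⟩
    · exact ⟨t, by omega, h2, h3⟩

theorem reach_interval {R : ℕ → Finset G.V} (hR : ∀ t, (R t).card ≤ 1) {p : ℕ}
    (hp : ∀ a b, (Mis R a b).card ≤ p) : ∀ n a b : ℕ, b ≤ a + 2 ^ n → ∀ j ∈ M R a b,
    ∀ C : Finset G.V, (∀ m ∈ Mis R a b, G.rank m < G.rank j → m ∈ C) →
      G.Reach (C.card + 2 * p * n + 1) C (insert j C) := by
  intro n
  induction n with
  | zero =>
    intro a b hab j hj C hC
    refine Reach.place (fun s => ?_) (by simp)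
    have hlt := G.rank_lt j s
    have hnot : G.kid j s ∉ M R a b := by
      intro hk
      rw [mem_M] at hj hk
      obtain ⟨t, h1, h2, h3⟩ := hj
      obtain ⟨t', h1', h2', h3'⟩ := hk
      have h4 : t = t' := by
        have : b ≤ a + 1 := by simpa using hab
        omega
      subst h4
      have := Finset.card_le_one.mp (hR t) _ h3 _ h3'
      rw [← this] at hlt
      exact lt_irrefl _ hlt
    exact hC _ (mem_Mis.mpr ⟨hnot, j, hj, s, rfl⟩) hlt
  | succ n ih =>
    intro a b hab j hj C hC
    by_cases hb : b ≤ a + 2 ^ n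
    · refine (ih a b hb j hj C hC).mono ?_
      have : 2 * p * n ≤ 2 * p * (n + 1) := Nat.mul_le_mul_left _ (Nat.le_succ n)
      omega
    · push Not at hb
      set c := a + 2 ^ n with hc
      have hMu : M R a b = M R a c ∪ M R c b := M_union (by omega) hb.le
      have hcb : b ≤ c + 2 ^ n := by rw [hc, add_assoc, ← two_mul, ← pow_succ']; exact hab
      set Q := ((Mis R a c ∪ Mis R c b).filter fun m => G.rank m < G.rank j) \ C with hQ
      have hQcard : Q.card ≤ 2 * p := by
        calc Q.card ≤ (Mis R a c ∪ Mis R c b).card :=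
              (card_le_card sdiff_subset).trans (card_filter_le _ _)
          _ ≤ (Mis R a c).card + (Mis R c b).card := card_union_le _ _
          _ ≤ 2 * p := by have := hp a c; have := hp c b; omega
      have hQM : ∀ m ∈ Q, m ∈ M R a b := by
        intro m hm
        by_contra hnot
        rw [hQ, mem_sdiff, mem_filter, mem_union] at hm
        refine hm.2 (hC m (mem_Mis.mpr ⟨hnot, ?_⟩) hm.1.2)
        rcases hm.1.1 with h | h <;> rw [mem_Mis] at h <;> obtain ⟨_, i, hi, s, hs⟩ := h
        · exact ⟨i, by rw [hMu]; exact mem_union_left _ hi, s, hs⟩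
        · exact ⟨i, by rw [hMu]; exact mem_union_right _ hi, s, hs⟩
      set s := C.card + 2 * p * (n + 1) + 1 with hs
      -- one more node, by the induction hypothesis for one of the halves
      have hadd : ∀ D ⊆ Q, ∀ m ∈ M R a b,
          (∀ m' ∈ Q, G.rank m' < G.rank m → m' ∈ D) → G.rank m ≤ G.rank j →
          G.Reach s (C ∪ D) (insert m (C ∪ D)) := by
        intro D hD m hm hD' hmj
        have hcard : (C ∪ D).card + 2 * p * n + 1 ≤ s := by
          have h1 := card_union_le C D
          have h2 := card_le_card hD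
          have h3 : 2 * p * (n + 1) = 2 * p * n + 2 * p := by ring
          omega
        have hall : ∀ m' ∈ Mis R a c ∪ Mis R c b, G.rank m' < G.rank m → m' ∈ C ∪ D := by
          intro m' hm' hlt
          by_cases hC' : m' ∈ C
          · exact mem_union_left _ hC'
          · refine mem_union_right _ (hD' m' ?_ hlt)
            rw [hQ, mem_sdiff, mem_filter]
            exact ⟨⟨hm', lt_of_lt_of_le hlt hmj⟩, hC'⟩
        rw [hMu, mem_union] at hm
        rcases hm with hm | hm
        · exact (ih a c le_rfl m hm (C ∪ D)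
            fun m' hm' hlt => hall m' (mem_union_left _ hm') hlt).mono hcard
        · exact (ih c b hcb m hm (C ∪ D)
            fun m' hm' hlt => hall m' (mem_union_right _ hm') hlt).mono hcard
      have hfill : ∀ q : ℕ, ∀ D ⊆ Q, (Q \ D).card = q → G.Reach s (C ∪ D) (C ∪ Q) := by
        intro q
        induction q with
        | zero =>
          intro D hD hq
          rw [card_eq_zero, sdiff_eq_empty_iff_subset] at hq
          rw [Subset.antisymm hD hq]
          exact Reach.refl _ _
        | succ q ihq =>
          intro D hD hq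
          obtain ⟨m, hm, hmin⟩ := exists_min_image (Q \ D) G.rank (card_pos.mp (by omega))
          have hmQ := (mem_sdiff.mp hm).1
          have h1 : G.Reach s (C ∪ D) (insert m (C ∪ D)) := by
            refine hadd D hD m (hQM m hmQ) (fun m' hm' hlt => ?_) ?_
            · by_contra hnot
              have := hmin m' (mem_sdiff.mpr ⟨hm', hnot⟩)
              omega
            · rw [hQ, mem_sdiff, mem_filter] at hmQ
              exact hmQ.1.2.le
          refine h1.trans ?_
          rw [← union_insert]
          refine ihq _ (insert_subset hmQ hD) ?_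
          rw [sdiff_insert, card_erase_of_mem hm, hq]
          rfl
      have h0 := hfill _ ∅ (empty_subset _) rfl
      rw [union_empty] at h0
      have h1 : G.Reach s (C ∪ Q) (insert j (C ∪ Q)) :=
        hadd Q Subset.rfl j hj (fun m' hm' _ => hm') le_rfl
      refine (h0.trans h1).trans (Reach.remove ?_ ?_)
      · exact insert_subset_insert _ subset_union_left
      · have h1 := card_insert_le j (C ∪ Q)
        have h2 := card_union_le C Q
        have h3 : 2 * p * (n + 1) = 2 * p * n + 2 * p := by ring
        omega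

/-- If no interval of a sequence of length `≤ 2 ^ n` has more than `p` missing nodes, and the whole
sequence has none, then each of its nodes can be pebbled with `2 p n + 1` pebbles. -/
theorem pebblable_of_interval {R : ℕ → Finset G.V} (hR : ∀ t, (R t).card ≤ 1) {p n T : ℕ}
    (hp : ∀ a b, (Mis R a b).card ≤ p) (hT : T ≤ 2 ^ n) (h0 : Mis R 0 T = ∅) {r : G.V}
    (hr : r ∈ M R 0 T) : G.Pebblable (2 * p * n + 1) r := by
  have := reach_interval hR hp n 0 T (by omega) r hr ∅ (by rw [h0]; simp)
  exact ⟨{r}, mem_singleton_self r, by simpa using this⟩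

end Dag

end Pool.Agent.W994.DE
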