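import Pool.Agent.W994.DE.Stage

/-!
# Nondeterministic programs for DAG evaluation with few steps
-/

set_option autoImplicit false

namespace Pool.Agent.W994.DE

open Finset
open Pool.Agent.H554R2.Thrifty (BP)

namespace Dag

variable {G : Dag} {k : ℕ} {P : BP (G.Var k) k} {r : G.V} {S : Fin k → Bool} {a₀ δ : Fin k}

/-- All intervals of length `2 ^ e`. -/
theorem level {W : Finset (G.V → Fin k)} {ρ : (G.V → Fin k) → List P.State} (r : G.V)
    (hW : ∀ v ∈ W, ∀ i, v i ≠ δ)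
    (hρ : ∀ v ∈ W, Trav P (inp v δ) (ρ v) (Sum.inl P.start) (Sum.inr true)) {dg : ℕ}
    (hd : ∀ i, G.deg i ≤ dg) {φ M : ℕ} [NeZero M] {ι : ℝ} (hι0 : 0 ≤ ι)
    (hι : ((P.size * P.size * ((Fintype.card G.V).choose φ * k ^ (Fintype.card G.V - φ)) *
      M ^ φ : ℕ) : ℝ) ≤ ι * W.card) (e : ℕ) : ∀ a : ℕ,
    FamP P δ W (fun v => pt (ρ v) (Sum.inr true)) (fun E => Str φ e E ∧ (Bd E).card ≤ φ)
      a (a + 2 ^ e)
      (2 * 4 ^ e * (dg * (Fintype.card G.V + 1) / M) +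
        (2 ^ (e + 1) - 1) * ((Fintype.card G.V + 1) * ι))
      ((2 ^ (e + 1) - 1) * ((Fintype.card G.V + 1) / M)) := by
  have hM0 : (0 : ℝ) < M := by exact_mod_cast Nat.pos_of_ne_zero (NeZero.ne M)
  have hn0 : (0 : ℝ) ≤ Fintype.card G.V := Nat.cast_nonneg _
  obtain ⟨ν, hν⟩ : ∃ ν : ℝ, (Fintype.card G.V : ℝ) = ν := ⟨_, rfl⟩
  rw [hν] at hn0
  induction e with
  | zero =>
    intro a
    have h0 : FamP P δ W (fun v => pt (ρ v) (Sum.inr true)) (fun E => Str φ 0 E) a (a + 1)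
        0 0 := by
      classical
      refine ⟨Unit, inferInstance, inferInstance, fun _ _ => ∅, ?_, fun j x => ?_⟩
      · have h1 : (W.filter fun v => ¬ Ok P δ (fun v => pt (ρ v) (Sum.inr true))
            (fun E => Str φ 0 E) a (a + 1) (fun _ => ∅) v) = ∅ := by
          rw [eq_empty_iff_forall_notMem]
          intro v hv
          obtain ⟨hv1, hv2⟩ := mem_filter.mp hv
          obtain ⟨l, y, E, h1, h2⟩ := Cert.base (φ := φ) r (hW v hv1) (hρ v hv1) a
          refine hv2 ⟨l, y, E, ?_, h2⟩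
          rw [Nat.add_sub_cancel_left]
          exact h1
        simp [h1]
      · simp
    have h1 := h0.stages r hd (fun E E' h h' => h.mono h') hι
    rw [Nat.add_sub_cancel_left, one_mul] at h1
    refine h1.mono (fun E h => h) ?_ ?_
    · rw [hν]
      have h2 : (0 : ℝ) ≤ (ν + 1) * (dg / M) := by positivity
      have h3 : (0 : ℝ) ≤ (ν + 1) * ι := by positivity
      have h4 : (dg : ℝ) * (ν + 1) / M = (ν + 1) * (dg / M) := by ring
      rw [h4]
      norm_num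
      linarith
    · rw [hν]
      norm_num
      exact le_of_eq (by ring)
  | succ e ih =>
    intro a
    have h1 := FamP.glue r hd (Φ := fun E => Str φ (e + 1) E)
      (fun E₁ E₂ h1 h2 => Str.succ e _ _ _ h1.1 h2.1 h1.2 h2.2 subset_rfl)
      (Nat.le_add_right a (2 ^ e)) (Nat.le_add_right (a + 2 ^ e) (2 ^ e)) (ih a) (ih (a + 2 ^ e))
    have e1 : a + 2 ^ e + 2 ^ e = a + 2 ^ (e + 1) := by rw [pow_succ]; ring
    rw [e1] at h1
    have e2 : a + 2 ^ e - a = 2 ^ e := Nat.add_sub_cancel_left _ _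
    have e3 : a + 2 ^ (e + 1) - (a + 2 ^ e) = 2 ^ e := by rw [pow_succ]; omega
    have e4 : a + 2 ^ (e + 1) - a = 2 ^ (e + 1) := Nat.add_sub_cancel_left _ _
    rw [e2, e3] at h1
    have h2 := h1.stages r hd (fun E E' h h' => h.mono h') hι
    rw [e4, hν] at h2
    refine h2.mono (fun E h => h) ?_ ?_
    · rw [hν]
      push_cast
      obtain ⟨p, hp⟩ : ∃ p : ℝ, (2 : ℝ) ^ e = p := ⟨_, rfl⟩
      have h4 : (4 : ℝ) ^ e = p ^ 2 := by
        rw [← hp, ← pow_mul, mul_comm, pow_mul]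
        norm_num
      have h5 : (4 : ℝ) ^ (e + 1) = 4 * p ^ 2 := by rw [pow_succ, h4]; ring
      have h6 : (2 : ℝ) ^ (e + 1) = 2 * p := by rw [pow_succ, hp]; ring
      have h7 : (2 : ℝ) ^ (e + 1 + 1) = 4 * p := by rw [pow_succ, h6]; ring
      rw [h5, h7, h6, h4, hp]
      refine le_of_eq ?_
      field_simp
      ring
    · rw [hν]
      obtain ⟨p, hp⟩ : ∃ p : ℝ, (2 : ℝ) ^ e = p := ⟨_, rfl⟩
      have h6 : (2 : ℝ) ^ (e + 1) = 2 * p := by rw [pow_succ, hp]; ring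
      have h7 : (2 : ℝ) ^ (e + 1 + 1) = 4 * p := by rw [pow_succ, h6]; ring
      rw [h7, h6]
      refine le_of_eq ?_
      ring

theorem pt_zero {P : BP (G.Var k) k} {x : G.Var k → Fin k} {l : List P.State}
    {s t : P.State ⊕ Bool} (h : Trav P x l s t) : pt l t 0 = s := by
  have := (trav_pt h 0).1
  rw [List.take_zero] at this
  exact this.symm

theorem pt_end {P : BP (G.Var k) k} {l : List P.State} {t : P.State ⊕ Bool} {a : ℕ}
    (h : l.length ≤ a) : pt l t a = t := by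
  rw [pt, List.getElem?_eq_none h]

/-- The lower bound before the choice of the parameters. -/
theorem tl_aux (hP : Decides P r S) (hSa : S a₀ = true) (hSδ : S δ = false) {dg τ : ℕ}
    (hd : ∀ i, G.deg i ≤ dg) (hdg : 1 ≤ dg)
    (hT : ∀ x, S (value x r) = true → ∃ l, P.IsComp x l true ∧ l.length ≤ 2 ^ τ) {φ : ℕ}
    (hφ : 4 * 2 ^ τ * (Fintype.card G.V + 1) *
      (P.size * P.size * ((Fintype.card G.V).choose φ * k ^ (Fintype.card G.V - φ)) *
      (4 * 4 ^ τ * dg * (Fintype.card G.V + 1)) ^ φ) < (k - 1) ^ (Fintype.card G.V - 1)) :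
    G.Pebblable (2 * φ * τ + 1) r := by
  classical
  have hδ : a₀ ≠ δ := fun h => by rw [h, hSδ] at hSa; exact absurd hSa (by simp)
  have hcomp : ∀ v : G.V → Fin k, ∃ l : List P.State, v ∈ vals r a₀ δ →
      P.IsComp (inp v δ) l true ∧ l.length ≤ 2 ^ τ := by
    intro v
    by_cases hv : v ∈ vals r a₀ δ
    · obtain ⟨l, hl⟩ := hT (inp v δ) (by rw [value_inp, (mem_vals hδ hv).2, hSa])
      exact ⟨l, fun _ => hl⟩
    · exact ⟨[], fun h => absurd h hv⟩
  choose ρ hρ using hcomp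
  obtain ⟨n, hn⟩ : ∃ n, Fintype.card G.V = n := ⟨_, rfl⟩
  obtain ⟨M, hM⟩ : ∃ M, 4 * 4 ^ τ * dg * (n + 1) = M := ⟨_, rfl⟩
  have hMpos : 0 < M := by rw [← hM]; positivity
  have : NeZero M := ⟨hMpos.ne'⟩
  rw [hn, hM] at hφ
  have hWcard := vals_card r a₀ δ
  rw [hn] at hWcard
  have hW0 : 0 < (vals r a₀ δ).card := card_pos.mpr (vals_nonempty hδ)
  obtain ⟨z, hz⟩ : ∃ z, P.size * P.size * (n.choose φ * k ^ (n - φ)) * M ^ φ = z := ⟨_, rfl⟩
  rw [hz, ← hWcard] at hφ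
  have hWR : (0 : ℝ) < (vals r a₀ δ).card := by exact_mod_cast hW0
  have hlev := level (G := G) (P := P) (δ := δ) (W := vals r a₀ δ) (ρ := ρ) r
    (fun v hv => (mem_vals hδ hv).1) (fun v hv => isComp_iff.mp (hρ v hv).1) hd (φ := φ)
    (M := M) (ι := (z : ℝ) / (vals r a₀ δ).card) (by positivity) (by
      rw [hn, hz, div_mul_cancel₀ _ hWR.ne']) τ 0
  rw [Nat.zero_add, hn] at hlev
  obtain ⟨D, _, _, Pr, h1, _⟩ := hlev
  have hlt : (2 * 4 ^ τ * (dg * ((n : ℝ) + 1) / M) +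
      (2 ^ (τ + 1) - 1) * (((n : ℝ) + 1) * ((z : ℝ) / (vals r a₀ δ).card))) < 1 := by
    have h2 : 2 * 4 ^ τ * (dg * ((n : ℝ) + 1) / M) = 1 / 2 := by
      have h3 : (M : ℝ) = 4 * 4 ^ τ * dg * ((n : ℝ) + 1) := by rw [← hM]; push_cast; ring
      have h4 : (0 : ℝ) < dg := by exact_mod_cast hdg
      rw [h3]
      field_simp
      norm_num
    have h3 : (4 : ℝ) * 2 ^ τ * ((n : ℝ) + 1) * z < (vals r a₀ δ).card := by
      exact_mod_cast hφ
    have h4 : (2 ^ (τ + 1) - 1) * (((n : ℝ) + 1) * ((z : ℝ) / (vals r a₀ δ).card)) ≤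
        2 ^ (τ + 1) * (((n : ℝ) + 1) * ((z : ℝ) / (vals r a₀ δ).card)) :=
      mul_le_mul_of_nonneg_right (by linarith) (by positivity)
    have h5 : 2 ^ (τ + 1) * (((n : ℝ) + 1) * ((z : ℝ) / (vals r a₀ δ).card)) < 1 / 2 := by
      have h6 : 2 ^ (τ + 1) * (((n : ℝ) + 1) * ((z : ℝ) / (vals r a₀ δ).card)) =
          (4 * 2 ^ τ * ((n : ℝ) + 1) * z) / (vals r a₀ δ).card / 2 := by
        rw [pow_succ]
        field_simp
        ring
      rw [h6]
      have h7 : (4 * 2 ^ τ * ((n : ℝ) + 1) * z) / (vals r a₀ δ).card < 1 := by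
        rw [div_lt_one hWR]
        exact h3
      linarith
    linarith
  -- a good element
  have hex : ∃ d, ∃ v ∈ vals r a₀ δ, Ok P δ (fun v => pt (ρ v) (Sum.inr true))
      (fun E => Str φ τ E ∧ (Bd E).card ≤ φ) 0 (2 ^ τ) (Pr d) v := by
    by_contra hno
    push Not at hno
    have h2 : ∑ d : D, (((vals r a₀ δ).filter fun v =>
        ¬ Ok P δ (fun v => pt (ρ v) (Sum.inr true))
        (fun E => Str φ τ E ∧ (Bd E).card ≤ φ) 0 (2 ^ τ) (Pr d) v).card : ℝ) =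
        Fintype.card D * (vals r a₀ δ).card := by
      rw [sum_congr rfl (g := fun _ => ((vals r a₀ δ).card : ℝ))]
      · rw [sum_const, card_univ, nsmul_eq_mul]
      · intro d _
        rw [filter_true_of_mem fun v hv => hno d v hv]
    rw [h2] at h1
    have h3 : (0 : ℝ) < Fintype.card D * (vals r a₀ δ).card :=
      mul_pos (by exact_mod_cast Fintype.card_pos) hWR
    nlinarith
  obtain ⟨d, v, hv, l, y, E, hcert, hstr, _⟩ := hex
  have e1 : pt (ρ v) (Sum.inr true) 0 = Sum.inl P.start := pt_zero (isComp_iff.mp (hρ v hv).1)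
  have e2 : pt (ρ v) (Sum.inr true) (2 ^ τ) = Sum.inr true := pt_end (hρ v hv).2
  simp only [e1, e2] at hcert
  refine pebblable_of_str hstr fun i hi => hcert.final hP hSδ ?_
  induction hi with
  | refl => exact Relation.ReflTransGen.refl
  | tail _ hab ih =>
    obtain ⟨⟨σ, hσ⟩, _⟩ := hab
    exact Relation.ReflTransGen.head ⟨σ, hσ⟩ ih

/-- The time-space lower bound. -/
theorem main_tl (hP : Decides P r S) (hSa : S a₀ = true) (hSδ : S δ = false) {dg τ s m : ℕ}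
    (hd : ∀ i, G.deg i ≤ dg) (hdg : 1 ≤ dg)
    (hT : ∀ x, S (value x r) = true → ∃ l, P.IsComp x l true ∧ l.length ≤ 2 ^ τ)
    (hs : P.size ≤ 2 ^ s)
    (hk : (4 * 4 ^ τ * dg * Fintype.card G.V * (Fintype.card G.V + 1)) ^ (m + 1) ≤ k ^ m)
    (hk' : 8 * 4 ^ τ * dg * (Fintype.card G.V + 1) < k) :
    G.Pebblable (2 * (m + 1) * (3 + 2 * s / Nat.log 2 k) * τ + 1) r := by
  classical
  obtain ⟨n, hn⟩ : ∃ n, Fintype.card G.V = n := ⟨_, rfl⟩
  have hn1 : 1 ≤ n := by rw [← hn]; exact Fintype.card_pos_iff.mpr ⟨r⟩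
  obtain ⟨M, hM⟩ : ∃ M, 4 * 4 ^ τ * dg * (n + 1) = M := ⟨_, rfl⟩
  obtain ⟨g, hg⟩ : ∃ g, 3 + 2 * s / Nat.log 2 k = g := ⟨_, rfl⟩
  have hMk : (n * M) ^ (m + 1) ≤ k ^ m := by
    refine le_trans (le_of_eq ?_) hk
    rw [hn, ← hM]
    congr 1
    ring
  have hkM : 2 * M < k := by
    refine lt_of_le_of_lt (le_of_eq ?_) hk'
    rw [hn, ← hM]
    ring
  have h4τ : 2 ^ τ ≤ 4 ^ τ := Nat.pow_le_pow_left (by norm_num) τ
  have hτ : 1 ≤ 2 ^ τ := Nat.one_le_two_pow
  have hM1 : 4 * 2 ^ τ * (n + 1) ≤ M := by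
    rw [← hM]
    calc 4 * 2 ^ τ * (n + 1) ≤ 4 * 4 ^ τ * (n + 1) :=
          Nat.mul_le_mul_right _ (Nat.mul_le_mul_left _ h4τ)
      _ = 4 * 4 ^ τ * 1 * (n + 1) := by ring
      _ ≤ 4 * 4 ^ τ * dg * (n + 1) := Nat.mul_le_mul_right _ (Nat.mul_le_mul_left _ hdg)
  have hM2 : n + 1 ≤ M := le_trans (by nlinarith) hM1
  have hk0 : 0 < k := by omega
  have hkn : 2 * (n - 1) ≤ k := by omega
  have hκ1 : 1 ≤ Nat.log 2 k := Nat.log_pos (by norm_num) (by omega)
  have hκk : 2 ^ Nat.log 2 k ≤ k := Nat.pow_log_le_self 2 (by omega)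
  have h4s : 4 ^ s * k ^ 2 ≤ k ^ g := by
    have h1 : 2 * s ≤ Nat.log 2 k * (2 * s / Nat.log 2 k + 1) :=
      (Nat.lt_mul_div_succ _ (by omega)).le
    calc 4 ^ s * k ^ 2 = 2 ^ (2 * s) * k ^ 2 := by rw [pow_mul]; norm_num
      _ ≤ 2 ^ (Nat.log 2 k * (2 * s / Nat.log 2 k + 1)) * k ^ 2 :=
          Nat.mul_le_mul_right _ (Nat.pow_le_pow_right (by norm_num) h1)
      _ = (2 ^ Nat.log 2 k) ^ (2 * s / Nat.log 2 k + 1) * k ^ 2 := by rw [pow_mul]
      _ ≤ k ^ (2 * s / Nat.log 2 k + 1) * k ^ 2 :=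
          Nat.mul_le_mul_right _ (Nat.pow_le_pow_left hκk _)
      _ = k ^ g := by rw [← pow_add, ← hg]; congr 1; omega
  have hSS : P.size * P.size ≤ 4 ^ s := by
    calc P.size * P.size ≤ 2 ^ s * 2 ^ s := Nat.mul_le_mul hs hs
      _ = 4 ^ s := by rw [← mul_pow]; norm_num
  have hB : k ^ (n - 1) ≤ 2 * (k - 1) ^ (n - 1) := pow_le_two_mul hkn (by omega)
  obtain ⟨φ, hφ⟩ : ∃ φ, (m + 1) * g = φ := ⟨_, rfl⟩
  have hgφ : g ≤ φ := by rw [← hφ]; exact Nat.le_mul_of_pos_left _ (Nat.succ_pos m)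
  have hmain : 4 * 2 ^ τ * (n + 1) * (P.size * P.size * (n.choose φ * k ^ (n - φ)) *
      M ^ φ) < (k - 1) ^ (n - 1) := by
    rcases Nat.lt_or_ge n φ with hlt | hge
    · rw [Nat.choose_eq_zero_of_lt hlt]
      simp only [zero_mul, mul_zero]
      exact pow_pos (by omega) _
    · have h1 : 2 * (4 * 2 ^ τ * (n + 1) * (P.size * P.size * (n.choose φ *
          k ^ (n - φ)) * M ^ φ)) < k ^ (n - 1) := by
        have hgn : m * g + (n - φ) = n - g := by
          have : φ = m * g + g := by rw [← hφ]; ring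
          omega
        have h2 : 2 * (4 * 2 ^ τ * (n + 1) * (P.size * P.size * (n.choose φ *
            k ^ (n - φ)) * M ^ φ)) ≤ 2 * M * (4 ^ s * k ^ (n - g)) := by
          calc 2 * (4 * 2 ^ τ * (n + 1) * (P.size * P.size * (n.choose φ *
              k ^ (n - φ)) * M ^ φ))
              ≤ 2 * (M * (4 ^ s * (n ^ φ * k ^ (n - φ)) * M ^ φ)) := by
                refine Nat.mul_le_mul_left _ (Nat.mul_le_mul hM1 (Nat.mul_le_mul_right _
                  (Nat.mul_le_mul hSS (Nat.mul_le_mul_right _ (Nat.choose_le_pow _ _)))))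
            _ = 2 * M * (4 ^ s * (((n * M) ^ (m + 1)) ^ g * k ^ (n - φ))) := by
                rw [← pow_mul, hφ, mul_pow]; ring
            _ ≤ 2 * M * (4 ^ s * ((k ^ m) ^ g * k ^ (n - φ))) :=
                Nat.mul_le_mul_left _ (Nat.mul_le_mul_left _ (Nat.mul_le_mul_right _
                  (Nat.pow_le_pow_left hMk g)))
            _ = 2 * M * (4 ^ s * k ^ (n - g)) := by rw [← pow_mul, ← pow_add, hgn]
        refine lt_of_le_of_lt h2 ?_
        have hg3 : 3 ≤ g := by rw [← hg]; exact Nat.le_add_right _ _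
        have h3 : 2 * M * (4 ^ s * k ^ (n - g)) * k ^ 2 < k ^ (n - 1) * k ^ 2 := by
          calc 2 * M * (4 ^ s * k ^ (n - g)) * k ^ 2
              = 2 * M * (4 ^ s * k ^ 2 * k ^ (n - g)) := by ring
            _ ≤ 2 * M * (k ^ g * k ^ (n - g)) :=
                Nat.mul_le_mul_left _ (Nat.mul_le_mul_right _ h4s)
            _ = 2 * M * k ^ n := by
                have e3 : g + (n - g) = n := by omega
                rw [← pow_add, e3]
            _ < k * k ^ n := Nat.mul_lt_mul_of_pos_right hkM (pow_pos hk0 _)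
            _ = k ^ (n - 1) * k ^ 2 := by
                have e3 : n + 1 = n - 1 + 2 := by omega
                rw [← pow_succ', ← pow_add, e3]
        exact Nat.lt_of_mul_lt_mul_right h3
      omega
  have h1 := tl_aux (φ := φ) hP hSa hSδ hd hdg hT (by rw [hn, hM]; exact hmain)
  have h2 : 2 * φ * τ + 1 = 2 * (m + 1) * (3 + 2 * s / Nat.log 2 k) * τ + 1 := by
    rw [hg, ← hφ]; ring
  rwa [h2] at h1

end Dag

end Pool.Agent.W994.DE
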