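import Pool.Agent.W994.DE.Main2

/-!
# The structure of short nondeterministic computations
-/

set_option autoImplicit false

namespace Pool.Agent.W994.DE

open Finset
open Pool.Agent.H554R2.Thrifty (BP)

namespace Dag

variable {G : Dag} {k : ℕ} {P : BP (G.Var k) k} {r : G.V} {S : Fin k → Bool} {a₀ δ : Fin k}

/-- The structure of the short computations, before the choice of the parameters. -/
theorem tl_str (hP : Decides P r S) (hSa : S a₀ = true) (hSδ : S δ = false) {dg τ : ℕ}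
    (hd : ∀ i, G.deg i ≤ dg) (hdg : 1 ≤ dg)
    (hT : ∀ x, S (value x r) = true → ∃ l, P.IsComp x l true ∧ l.length ≤ 2 ^ τ) {φ : ℕ}
    (hφ : 4 * 2 ^ τ * (Fintype.card G.V + 1) *
      (P.size * P.size * ((Fintype.card G.V).choose φ * k ^ (Fintype.card G.V - φ)) *
      (4 * 4 ^ τ * dg * (Fintype.card G.V + 1)) ^ φ) < (k - 1) ^ (Fintype.card G.V - 1)) :
    ∃ E : Finset G.V, Str φ τ E ∧ (Bd E).card ≤ φ ∧ ∀ i, G.Below r i → i ∉ E := by
  classical
  have hδ : a₀ ≠ δ := fun h => by rw [h, hSδ] at hSa; exact absurd hSa (by simp)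
  have hcomp : ∀ v : G.V → Fin k, ∃ l : List P.State, v ∈ vals r a₀ δ →
      P.IsComp (inp v δ) l true ∧ l.length ≤ 2 ^ τ := by
    intro v
    by_cases hv : v ∈ vals r a₀ δ
    · obtain ⟨l, hl⟩ := hT (inp v δ) (by rw [value_inp, (mem_vals hδ hv).2, hSa])
      exact ⟨l, fun _ => hl⟩
    · exact ⟨[], fun h => absurd h hv⟩
  choose ρ hρ using hcomp
  obtain ⟨n, hn⟩ : ∃ n, Fintype.card G.V = n := ⟨_, rfl⟩
  obtain ⟨M, hM⟩ : ∃ M, 4 * 4 ^ τ * dg * (n + 1) = M := ⟨_, rfl⟩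
  have hMpos : 0 < M := by rw [← hM]; positivity
  have : NeZero M := ⟨hMpos.ne'⟩
  rw [hn, hM] at hφ
  have hWcard := vals_card r a₀ δ
  rw [hn] at hWcard
  have hW0 : 0 < (vals r a₀ δ).card := card_pos.mpr (vals_nonempty hδ)
  obtain ⟨z, hz⟩ : ∃ z, P.size * P.size * (n.choose φ * k ^ (n - φ)) * M ^ φ = z := ⟨_, rfl⟩
  rw [hz, ← hWcard] at hφ
  have hWR : (0 : ℝ) < (vals r a₀ δ).card := by exact_mod_cast hW0
  have hlev := level (G := G) (P := P) (δ := δ) (W := vals r a₀ δ) (ρ := ρ) r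
    (fun v hv => (mem_vals hδ hv).1) (fun v hv => isComp_iff.mp (hρ v hv).1) hd (φ := φ)
    (M := M) (ι := (z : ℝ) / (vals r a₀ δ).card) (by positivity) (by
      rw [hn, hz, div_mul_cancel₀ _ hWR.ne']) τ 0
  rw [Nat.zero_add, hn] at hlev
  obtain ⟨D, _, _, Pr, h1, _⟩ := hlev
  have hlt : (2 * 4 ^ τ * (dg * ((n : ℝ) + 1) / M) +
      (2 ^ (τ + 1) - 1) * (((n : ℝ) + 1) * ((z : ℝ) / (vals r a₀ δ).card))) < 1 := by
    have h2 : 2 * 4 ^ τ * (dg * ((n : ℝ) + 1) / M) = 1 / 2 := by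
      have h3 : (M : ℝ) = 4 * 4 ^ τ * dg * ((n : ℝ) + 1) := by rw [← hM]; push_cast; ring
      have h4 : (0 : ℝ) < dg := by exact_mod_cast hdg
      rw [h3]
      field_simp
      norm_num
    have h3 : (4 : ℝ) * 2 ^ τ * ((n : ℝ) + 1) * z < (vals r a₀ δ).card := by
      exact_mod_cast hφ
    have h4 : (2 ^ (τ + 1) - 1) * (((n : ℝ) + 1) * ((z : ℝ) / (vals r a₀ δ).card)) ≤
        2 ^ (τ + 1) * (((n : ℝ) + 1) * ((z : ℝ) / (vals r a₀ δ).card)) :=
      mul_le_mul_of_nonneg_right (by linarith) (by positivity)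
    have h5 : 2 ^ (τ + 1) * (((n : ℝ) + 1) * ((z : ℝ) / (vals r a₀ δ).card)) < 1 / 2 := by
      have h6 : 2 ^ (τ + 1) * (((n : ℝ) + 1) * ((z : ℝ) / (vals r a₀ δ).card)) =
          (4 * 2 ^ τ * ((n : ℝ) + 1) * z) / (vals r a₀ δ).card / 2 := by
        rw [pow_succ]
        field_simp
        ring
      rw [h6]
      have h7 : (4 * 2 ^ τ * ((n : ℝ) + 1) * z) / (vals r a₀ δ).card < 1 := by
        rw [div_lt_one hWR]
        exact h3
      linarith
    linarith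
  -- a good element
  have hex : ∃ d, ∃ v ∈ vals r a₀ δ, Ok P δ (fun v => pt (ρ v) (Sum.inr true))
      (fun E => Str φ τ E ∧ (Bd E).card ≤ φ) 0 (2 ^ τ) (Pr d) v := by
    by_contra hno
    push Not at hno
    have h2 : ∑ d : D, (((vals r a₀ δ).filter fun v =>
        ¬ Ok P δ (fun v => pt (ρ v) (Sum.inr true))
        (fun E => Str φ τ E ∧ (Bd E).card ≤ φ) 0 (2 ^ τ) (Pr d) v).card : ℝ) =
        Fintype.card D * (vals r a₀ δ).card := by
      rw [sum_congr rfl (g := fun _ => ((vals r a₀ δ).card : ℝ))]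
      · rw [sum_const, card_univ, nsmul_eq_mul]
      · intro d _
        rw [filter_true_of_mem fun v hv => hno d v hv]
    rw [h2] at h1
    have h3 : (0 : ℝ) < Fintype.card D * (vals r a₀ δ).card :=
      mul_pos (by exact_mod_cast Fintype.card_pos) hWR
    nlinarith
  obtain ⟨d, v, hv, l, y, E, hcert, hstr, hBd⟩ := hex
  have e1 : pt (ρ v) (Sum.inr true) 0 = Sum.inl P.start := pt_zero (isComp_iff.mp (hρ v hv).1)
  have e2 : pt (ρ v) (Sum.inr true) (2 ^ τ) = Sum.inr true := pt_end (hρ v hv).2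
  simp only [e1, e2] at hcert
  exact ⟨E, hstr, hBd, fun i hi => hcert.final hP hSδ hi⟩

/-- The structure of the short computations. -/
theorem main_str (hP : Decides P r S) (hSa : S a₀ = true) (hSδ : S δ = false) {dg τ s m : ℕ}
    (hd : ∀ i, G.deg i ≤ dg) (hdg : 1 ≤ dg)
    (hT : ∀ x, S (value x r) = true → ∃ l, P.IsComp x l true ∧ l.length ≤ 2 ^ τ)
    (hs : P.size ≤ 2 ^ s)
    (hk : (4 * 4 ^ τ * dg * Fintype.card G.V * (Fintype.card G.V + 1)) ^ (m + 1) ≤ k ^ m)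
    (hk' : 8 * 4 ^ τ * dg * (Fintype.card G.V + 1) < k) :
    ∃ E : Finset G.V, Str ((m + 1) * (3 + 2 * s / Nat.log 2 k)) τ E ∧
      (Bd E).card ≤ (m + 1) * (3 + 2 * s / Nat.log 2 k) ∧ ∀ i, G.Below r i → i ∉ E := by
  classical
  obtain ⟨n, hn⟩ : ∃ n, Fintype.card G.V = n := ⟨_, rfl⟩
  have hn1 : 1 ≤ n := by rw [← hn]; exact Fintype.card_pos_iff.mpr ⟨r⟩
  obtain ⟨M, hM⟩ : ∃ M, 4 * 4 ^ τ * dg * (n + 1) = M := ⟨_, rfl⟩
  obtain ⟨g, hg⟩ : ∃ g, 3 + 2 * s / Nat.log 2 k = g := ⟨_, rfl⟩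
  have hMk : (n * M) ^ (m + 1) ≤ k ^ m := by
    refine le_trans (le_of_eq ?_) hk
    rw [hn, ← hM]
    congr 1
    ring
  have hkM : 2 * M < k := by
    refine lt_of_le_of_lt (le_of_eq ?_) hk'
    rw [hn, ← hM]
    ring
  have h4τ : 2 ^ τ ≤ 4 ^ τ := Nat.pow_le_pow_left (by norm_num) τ
  have hτ : 1 ≤ 2 ^ τ := Nat.one_le_two_pow
  have hM1 : 4 * 2 ^ τ * (n + 1) ≤ M := by
    rw [← hM]
    calc 4 * 2 ^ τ * (n + 1) ≤ 4 * 4 ^ τ * (n + 1) :=
          Nat.mul_le_mul_right _ (Nat.mul_le_mul_left _ h4τ)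
      _ = 4 * 4 ^ τ * 1 * (n + 1) := by ring
      _ ≤ 4 * 4 ^ τ * dg * (n + 1) := Nat.mul_le_mul_right _ (Nat.mul_le_mul_left _ hdg)
  have hM2 : n + 1 ≤ M := le_trans (by nlinarith) hM1
  have hk0 : 0 < k := by omega
  have hkn : 2 * (n - 1) ≤ k := by omega
  have hκ1 : 1 ≤ Nat.log 2 k := Nat.log_pos (by norm_num) (by omega)
  have hκk : 2 ^ Nat.log 2 k ≤ k := Nat.pow_log_le_self 2 (by omega)
  have h4s : 4 ^ s * k ^ 2 ≤ k ^ g := by
    have h1 : 2 * s ≤ Nat.log 2 k * (2 * s / Nat.log 2 k + 1) :=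
      (Nat.lt_mul_div_succ _ (by omega)).le
    calc 4 ^ s * k ^ 2 = 2 ^ (2 * s) * k ^ 2 := by rw [pow_mul]; norm_num
      _ ≤ 2 ^ (Nat.log 2 k * (2 * s / Nat.log 2 k + 1)) * k ^ 2 :=
          Nat.mul_le_mul_right _ (Nat.pow_le_pow_right (by norm_num) h1)
      _ = (2 ^ Nat.log 2 k) ^ (2 * s / Nat.log 2 k + 1) * k ^ 2 := by rw [pow_mul]
      _ ≤ k ^ (2 * s / Nat.log 2 k + 1) * k ^ 2 :=
          Nat.mul_le_mul_right _ (Nat.pow_le_pow_left hκk _)
      _ = k ^ g := by rw [← pow_add, ← hg]; congr 1; omega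
  have hSS : P.size * P.size ≤ 4 ^ s := by
    calc P.size * P.size ≤ 2 ^ s * 2 ^ s := Nat.mul_le_mul hs hs
      _ = 4 ^ s := by rw [← mul_pow]; norm_num
  have hB : k ^ (n - 1) ≤ 2 * (k - 1) ^ (n - 1) := pow_le_two_mul hkn (by omega)
  obtain ⟨φ, hφ⟩ : ∃ φ, (m + 1) * g = φ := ⟨_, rfl⟩
  have hgφ : g ≤ φ := by rw [← hφ]; exact Nat.le_mul_of_pos_left _ (Nat.succ_pos m)
  have hmain : 4 * 2 ^ τ * (n + 1) * (P.size * P.size * (n.choose φ * k ^ (n - φ)) *
      M ^ φ) < (k - 1) ^ (n - 1) := by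
    rcases Nat.lt_or_ge n φ with hlt | hge
    · rw [Nat.choose_eq_zero_of_lt hlt]
      simp only [zero_mul, mul_zero]
      exact pow_pos (by omega) _
    · have h1 : 2 * (4 * 2 ^ τ * (n + 1) * (P.size * P.size * (n.choose φ *
          k ^ (n - φ)) * M ^ φ)) < k ^ (n - 1) := by
        have hgn : m * g + (n - φ) = n - g := by
          have : φ = m * g + g := by rw [← hφ]; ring
          omega
        have h2 : 2 * (4 * 2 ^ τ * (n + 1) * (P.size * P.size * (n.choose φ *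
            k ^ (n - φ)) * M ^ φ)) ≤ 2 * M * (4 ^ s * k ^ (n - g)) := by
          calc 2 * (4 * 2 ^ τ * (n + 1) * (P.size * P.size * (n.choose φ *
              k ^ (n - φ)) * M ^ φ))
              ≤ 2 * (M * (4 ^ s * (n ^ φ * k ^ (n - φ)) * M ^ φ)) := by
                refine Nat.mul_le_mul_left _ (Nat.mul_le_mul hM1 (Nat.mul_le_mul_right _
                  (Nat.mul_le_mul hSS (Nat.mul_le_mul_right _ (Nat.choose_le_pow _ _)))))
            _ = 2 * M * (4 ^ s * (((n * M) ^ (m + 1)) ^ g * k ^ (n - φ))) := by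
                rw [← pow_mul, hφ, mul_pow]; ring
            _ ≤ 2 * M * (4 ^ s * ((k ^ m) ^ g * k ^ (n - φ))) :=
                Nat.mul_le_mul_left _ (Nat.mul_le_mul_left _ (Nat.mul_le_mul_right _
                  (Nat.pow_le_pow_left hMk g)))
            _ = 2 * M * (4 ^ s * k ^ (n - g)) := by rw [← pow_mul, ← pow_add, hgn]
        refine lt_of_le_of_lt h2 ?_
        have hg3 : 3 ≤ g := by rw [← hg]; exact Nat.le_add_right _ _
        have h3 : 2 * M * (4 ^ s * k ^ (n - g)) * k ^ 2 < k ^ (n - 1) * k ^ 2 := by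
          calc 2 * M * (4 ^ s * k ^ (n - g)) * k ^ 2
              = 2 * M * (4 ^ s * k ^ 2 * k ^ (n - g)) := by ring
            _ ≤ 2 * M * (k ^ g * k ^ (n - g)) :=
                Nat.mul_le_mul_left _ (Nat.mul_le_mul_right _ h4s)
            _ = 2 * M * k ^ n := by
                have e3 : g + (n - g) = n := by omega
                rw [← pow_add, e3]
            _ < k * k ^ n := Nat.mul_lt_mul_of_pos_right hkM (pow_pos hk0 _)
            _ = k ^ (n - 1) * k ^ 2 := by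
                have e3 : n + 1 = n - 1 + 2 := by omega
                rw [← pow_succ', ← pow_add, e3]
        exact Nat.lt_of_mul_lt_mul_right h3
      omega
  have h1 := tl_str (φ := φ) hP hSa hSδ hd hdg hT (by rw [hn, hM]; exact hmain)
  rw [hg, hφ]
  exact h1

end Dag

end Pool.Agent.W994.DE
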