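import Pool.Agent.H554R2.Thrifty.Defs

/-!
# Computations of branching programs as walks
-/

set_option autoImplicit false

namespace Pool.Agent.W994.DE

open Pool.Agent.H554R2.Thrifty (BP)

variable {V : Type} {k : ℕ}

/-- The walk `l` leads from `s` to `t` on the input `x`. -/
def Trav (P : BP V k) (x : V → Fin k) : List P.State → P.State ⊕ Bool → P.State ⊕ Bool → Prop
  | [], s, t => s = t
  | q :: l, s, t => s = Sum.inl q ∧ ∃ u, P.edge q (x (P.query q)) u ∧ Trav P x l u t

theorem trav_append {P : BP V k} {x : V → Fin k} {l m : List P.State} {s t : P.State ⊕ Bool} :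
    Trav P x (l ++ m) s t ↔ ∃ u, Trav P x l s u ∧ Trav P x m u t := by
  induction l generalizing s with
  | nil => simp [Trav]
  | cons q l ih =>
    simp only [List.cons_append, Trav, ih]
    constructor
    · rintro ⟨h1, u, h2, v, h3, h4⟩
      exact ⟨v, ⟨h1, u, h2, h3⟩, h4⟩
    · rintro ⟨v, ⟨h1, u, h2, h3⟩, h4⟩
      exact ⟨h1, u, h2, v, h3, h4⟩

theorem trav_isPath {P : BP V k} {x : V → Fin k} {q : P.State} {l : List P.State} {r : Bool} :
    P.IsPath x (q :: l) r ↔ Trav P x (q :: l) (Sum.inl q) (Sum.inr r) := by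
  induction l generalizing q with
  | nil =>
    simp only [BP.IsPath, Trav, true_and]
    constructor
    · intro h; exact ⟨_, h, rfl⟩
    · rintro ⟨u, h, rfl⟩; exact h
  | cons q' l ih =>
    simp only [BP.IsPath]
    rw [ih, Trav]
    constructor
    · rintro ⟨h1, h2⟩
      exact ⟨rfl, _, h1, h2⟩
    · rintro ⟨_, u, h1, h2⟩
      have h3 : u = Sum.inl q' := h2.1
      rw [h3] at h1 h2
      exact ⟨h1, h2⟩

theorem isComp_iff {P : BP V k} {x : V → Fin k} {l : List P.State} {r : Bool} :
    P.IsComp x l r ↔ Trav P x l (Sum.inl P.start) (Sum.inr r) := by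
  cases l with
  | nil => simp [BP.IsComp, BP.IsPath, Trav]
  | cons q l =>
    rw [BP.IsComp, trav_isPath]
    constructor
    · rintro ⟨h1, h2⟩
      have h3 : q = P.start := by simpa using h1
      rw [h3] at h2 ⊢
      exact h2
    · intro h
      have h3 : P.start = q := Sum.inl_injective h.1
      refine ⟨by rw [h3]; rfl, ?_⟩
      rw [h3] at h
      exact h

theorem trav_congr {P : BP V k} {x y : V → Fin k} {l : List P.State} {s t : P.State ⊕ Bool}
    (h : ∀ q ∈ l, x (P.query q) = y (P.query q)) (ht : Trav P x l s t) : Trav P y l s t := by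
  induction l generalizing s with
  | nil => exact ht
  | cons q l ih =>
    obtain ⟨h1, u, h2, h3⟩ := ht
    exact ⟨h1, u, by rw [← h q (by simp)]; exact h2, ih (fun q' hq' => h q' (by simp [hq'])) h3⟩

/-- A walk can be made simple. -/
theorem exists_nodup {P : BP V k} {x : V → Fin k} {l : List P.State} {s t : P.State ⊕ Bool}
    (ht : Trav P x l s t) : ∃ l' : List P.State, l'.Nodup ∧ Trav P x l' s t := by
  induction l generalizing s with
  | nil => exact ⟨[], List.nodup_nil, ht⟩
  | cons q l ih =>
    obtain ⟨h1, u, h2, h3⟩ := ht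
    obtain ⟨l', hnd, hl'⟩ := ih h3
    by_cases hq : q ∈ l'
    · obtain ⟨m1, m2, rfl⟩ := List.append_of_mem hq
      obtain ⟨v, h4, h5⟩ := trav_append.mp hl'
      have h6 : v = Sum.inl q := h5.1
      refine ⟨q :: m2, hnd.sublist (List.sublist_append_right _ _), ?_⟩
      rw [h1, ← h6]
      exact h5
    · exact ⟨q :: l', List.nodup_cons.mpr ⟨hq, hnd⟩, h1, u, h2, hl'⟩

/-- The point of a walk after `a` steps. -/
def pt {P : BP V k} (l : List P.State) (t : P.State ⊕ Bool) (a : ℕ) : P.State ⊕ Bool :=
  match l[a]? with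
  | some q => Sum.inl q
  | none => t

theorem trav_pt {P : BP V k} {x : V → Fin k} {l : List P.State} {s t : P.State ⊕ Bool}
    (h : Trav P x l s t) (a : ℕ) :
    Trav P x (l.take a) s (pt l t a) ∧ Trav P x (l.drop a) (pt l t a) t := by
  rw [← List.take_append_drop a l] at h
  obtain ⟨u, h1, h2⟩ := trav_append.mp h
  have h3 : pt l t a = u := by
    rw [pt]
    by_cases ha : a < l.length
    · rw [List.drop_eq_getElem_cons ha] at h2
      rw [List.getElem?_eq_getElem ha]
      exact h2.1.symm
    · rw [List.drop_eq_nil_of_le (by omega)] at h2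
      rw [List.getElem?_eq_none (by omega)]
      exact h2.symm
  rw [h3]
  exact ⟨h1, h2⟩

/-- The part of a walk between two of its points. -/
theorem trav_seg {P : BP V k} {x : V → Fin k} {l : List P.State} {s t : P.State ⊕ Bool}
    (h : Trav P x l s t) {a b : ℕ} (hab : a ≤ b) :
    Trav P x ((l.drop a).take (b - a)) (pt l t a) (pt l t b) := by
  have h1 := (trav_pt h b).1
  have h2 := (trav_pt h a).2
  obtain ⟨h3, h4⟩ := trav_pt h2 (b - a)
  have h5 : pt (l.drop a) t (b - a) = pt l t b := by
    rw [pt, pt, List.getElem?_drop, Nat.add_sub_cancel' hab]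
  rw [h5] at h3
  exact h3

end Pool.Agent.W994.DE
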