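import Pool.Agent.W994.DE.Interval
import Pool.Agent.W994.DE.Trav

/-!
# Nondeterministic programs for DAG evaluation: hybrid computations
-/

set_option autoImplicit false

namespace Pool.Agent.W994.DE

open Finset
open Pool.Agent.H554R2.Thrifty (BP)

namespace Dag

variable {G : Dag} {k : ℕ}

/-- The variable `v` is relevant for the input `x`: it is the entry of the table of its node which
belongs to the values of the children. -/
def Relevant (x : G.Var k → Fin k) (v : G.Var k) : Prop := v.2 = kidVal (value x) v.1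

/-- The input with value `w i` at each node `i`, all of whose irrelevant entries are `δ`. -/
def inp (w : G.V → Fin k) (δ : Fin k) : G.Var k → Fin k :=
  fun v => if v.2 = kidVal w v.1 then w v.1 else δ

theorem inp_rel (w : G.V → Fin k) (δ : Fin k) (i : G.V) : inp w δ ⟨i, kidVal w i⟩ = w i :=
  if_pos rfl

theorem value_inp (w : G.V → Fin k) (δ : Fin k) : value (inp w δ) = w :=
  value_unique _ _ fun i => inp_rel w δ i

/-- `i` is `r` or below `r`. -/
def Below (G : Dag) (r : G.V) (i : G.V) : Prop :=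
  Relation.ReflTransGen (fun a b => ∃ s, G.kid b s = a) i r

theorem Below.kid {r i : G.V} (h : G.Below r i) (s : Fin (G.deg i)) : G.Below r (G.kid i s) :=
  Relation.ReflTransGen.head ⟨s, rfl⟩ h

/-- If the relevant entry of `i` is changed to `δ`, then all values above `i` become `δ`. -/
theorem value_update {w : G.V → Fin k} {δ : Fin k} (hw : ∀ i, w i ≠ δ) {r i : G.V}
    (h : G.Below r i) :
    value (Function.update (inp w δ) ⟨i, kidVal w i⟩ δ) r = δ := by
  classical
  have key : ∀ (u : G.V) (c : Fin (G.deg u) → Fin k),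
      ((⟨u, c⟩ : G.Var k) = ⟨i, kidVal w i⟩ ∨ c ≠ kidVal w u) →
      Function.update (inp w δ) ⟨i, kidVal w i⟩ δ ⟨u, c⟩ = δ := by
    intro u c h
    by_cases h1 : (⟨u, c⟩ : G.Var k) = ⟨i, kidVal w i⟩
    · rw [h1, Function.update_self]
    · rw [Function.update_of_ne h1]
      exact if_neg (h.resolve_left h1)
  induction h with
  | refl =>
    rw [value_eq]
    by_cases h1 : kidVal (value (Function.update (inp w δ) ⟨i, kidVal w i⟩ δ)) i = kidVal w i
    · exact key _ _ (Or.inl (by rw [h1]))
    · exact key _ _ (Or.inr h1)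
  | tail _ hab ih =>
    obtain ⟨s, hs⟩ := hab
    rw [value_eq]
    refine key _ _ (Or.inr fun heq => ?_)
    have h1 := congrFun heq s
    rw [kidVal, kidVal, hs, ih] at h1
    exact hw _ h1.symm

variable {P : BP (G.Var k) k} {r : G.V} {S : Fin k → Bool} {a₀ δ : Fin k} {t : ℕ}

/-- The nondeterministic program `P` decides whether the value of `r` has the property `S`: it has
an accepting computation exactly on the inputs for which this is the case. -/
def Decides (P : BP (G.Var k) k) (r : G.V) (S : Fin k → Bool) : Prop :=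
  ∀ x, (∃ l, P.IsComp x l true) ↔ S (value x r) = true

/-- Every accepting computation reads at most `t` different irrelevant variables. -/
def Waste (P : BP (G.Var k) k) (t : ℕ) : Prop :=
  ∀ (x : G.Var k → Fin k) (l : List P.State), P.IsComp x l true →
    ∀ F : Finset (G.Var k), (∀ v ∈ F, ¬ Relevant x v ∧ ∃ q ∈ l, P.query q = v) → F.card ≤ t

/-- An accepting computation on `inp w δ` reads all relevant variables below `r`. -/
theorem reads_all (hP : Decides P r S) (hδ : S δ = false) {w : G.V → Fin k} (hw : ∀ i, w i ≠ δ)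
    {l : List P.State} (hl : P.IsComp (inp w δ) l true) {i : G.V} (hi : G.Below r i) :
    ∃ q ∈ l, P.query q = ⟨i, kidVal w i⟩ := by
  classical
  by_contra hno
  push Not at hno
  have h1 : P.IsComp (Function.update (inp w δ) ⟨i, kidVal w i⟩ δ) l true := by
    rw [isComp_iff] at hl ⊢
    refine trav_congr (fun q hq => ?_) hl
    rw [Function.update_of_ne (hno q hq)]
  have h2 := (hP _).mp ⟨l, h1⟩
  rw [value_update hw hi, hδ] at h2
  exact absurd h2 (by simp)

/-- The relevant node read in step `a` of a computation, if it is below `r`. -/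
noncomputable def rd (P : BP (G.Var k) k) (r : G.V) (w : G.V → Fin k) (l : List P.State) (a : ℕ) :
    Finset G.V := by
  classical
  exact univ.filter fun i => G.Below r i ∧ ∃ q, l[a]? = some q ∧ P.query q = ⟨i, kidVal w i⟩

theorem mem_rd {w : G.V → Fin k} {l : List P.State} {a : ℕ} {i : G.V} :
    i ∈ rd P r w l a ↔ G.Below r i ∧ ∃ q, l[a]? = some q ∧ P.query q = ⟨i, kidVal w i⟩ := by
  classical
  simp [rd]

theorem rd_card (w : G.V → Fin k) (l : List P.State) (a : ℕ) : (rd P r w l a).card ≤ 1 := by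
  rw [Finset.card_le_one]
  intro i hi j hj
  rw [mem_rd] at hi hj
  obtain ⟨_, q, h1, h2⟩ := hi
  obtain ⟨_, q', h1', h2'⟩ := hj
  rw [h1] at h1'
  rw [← Option.some.inj h1', h2] at h2'
  exact congrArg (fun v : G.Var k => v.1) h2'

/-- If `r` needs many pebbles, then there is an interval with many missing nodes. -/
theorem exists_interval (hP : Decides P r S) (hδ : S δ = false) {w : G.V → Fin k}
    (hw : ∀ i, w i ≠ δ) {l : List P.State} (hl : P.IsComp (inp w δ) l true) {p n : ℕ}
    (hlen : l.length ≤ 2 ^ n) (hG : ¬ G.Pebblable (2 * p * n + 1) r) :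
    ∃ a b, a ≤ b ∧ p < (Mis (rd P r w l) a b).card := by
  by_contra hno
  push Not at hno
  refine hG (pebblable_of_interval (R := rd P r w l) (rd_card w l) (T := l.length) ?_ hlen ?_ ?_)
  · intro a b
    by_cases hab : a ≤ b
    · exact hno a b hab
    · have : Mis (rd P r w l) a b = ∅ := by
        rw [eq_empty_iff_forall_notMem]
        intro j hj
        obtain ⟨_, i, hi, _⟩ := mem_Mis.mp hj
        obtain ⟨τ, h1, h2, _⟩ := mem_M.mp hi
        omega
      rw [this]
      exact Nat.zero_le _
  · rw [eq_empty_iff_forall_notMem]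
    intro j hj
    obtain ⟨h0, i, hi, s, hs⟩ := mem_Mis.mp hj
    obtain ⟨τ, h1, h2, h3⟩ := mem_M.mp hi
    obtain ⟨h4, _⟩ := mem_rd.mp h3
    have h5 : G.Below r j := hs ▸ h4.kid s
    obtain ⟨q, hq, hq'⟩ := reads_all hP hδ hw hl h5
    obtain ⟨a, ha, haq⟩ := List.getElem_of_mem hq
    exact h0 (mem_M.mpr ⟨a, Nat.zero_le _, ha, mem_rd.mpr ⟨h5, q, by
      rw [List.getElem?_eq_getElem ha, haq], hq'⟩⟩)
  · have h5 : G.Below r r := Relation.ReflTransGen.refl
    obtain ⟨q, hq, hq'⟩ := reads_all hP hδ hw hl h5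
    obtain ⟨a, ha, haq⟩ := List.getElem_of_mem hq
    exact mem_M.mpr ⟨a, Nat.zero_le _, ha, mem_rd.mpr ⟨h5, q, by
      rw [List.getElem?_eq_getElem ha, haq], hq'⟩⟩

/-- The nodes at which irrelevant entries are read. -/
def Wst (P : BP (G.Var k) k) (w : G.V → Fin k) (l : List P.State) (i : G.V) : Prop :=
  ∃ q ∈ l, (P.query q).1 = i ∧ ¬ (P.query q).2 = kidVal w (P.query q).1

/-- Two computations which pass through the same two states can be combined; therefore the values
of the missing nodes cannot differ at many places. -/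
theorem hybrid {d : ℕ} (hd : ∀ i, G.deg i ≤ d) (hW : Waste P t) {w z : G.V → Fin k}
    {lw lz : List P.State} (hlw : P.IsComp (inp w δ) lw true) (hlz : P.IsComp (inp z δ) lz true)
    {a b a' b' : ℕ} (hab : a ≤ b)
    (ha : pt lw (Sum.inr true) a = pt lz (Sum.inr true) a')
    (hb : pt lw (Sum.inr true) b = pt lz (Sum.inr true) b') {J : Finset G.V}
    (hJ : J ⊆ Mis (rd P r w lw) a b) (hJb : ∀ j ∈ J, G.Below r j) (hwz : ∀ i, i ∉ J → w i = z i)
    (hJw : ∀ i, Wst P w lw i → ∀ s, G.kid i s ∉ J) (hJz : ∀ i, Wst P z lz i → ∀ s, G.kid i s ∉ J) :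
    (J.filter fun j => w j ≠ z j).card ≤ d * t := by
  classical
  rw [isComp_iff] at hlw hlz
  set lm := (lw.drop a).take (b - a) with hlm
  -- the nodes which are read in the middle part
  set Mr : Finset G.V := univ.filter fun i => ∃ q ∈ lm, P.query q = ⟨i, kidVal w i⟩ with hMr
  have hMr' : ∀ i, i ∈ Mr ↔ ∃ q ∈ lm, P.query q = ⟨i, kidVal w i⟩ := fun i => by simp [hMr]
  have hmem : ∀ q ∈ lm, ∃ c, a ≤ c ∧ c < b ∧ lw[c]? = some q := by
    intro q hq
    rw [hlm, List.mem_take_iff_getElem] at hq
    obtain ⟨c, hc, hcq⟩ := hq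
    rw [List.length_drop] at hc
    have hc1 : c < b - a := lt_of_lt_of_le hc (Nat.min_le_left _ _)
    have hc2 : c < lw.length - a := lt_of_lt_of_le hc (Nat.min_le_right _ _)
    refine ⟨a + c, by omega, by omega, ?_⟩
    rw [List.getElem?_eq_getElem (by omega), ← hcq, List.getElem_drop]
  have hMM : ∀ i ∈ Mr, G.Below r i → i ∈ M (rd P r w lw) a b := by
    intro i hi hbel
    obtain ⟨q, hq, hqi⟩ := (hMr' i).mp hi
    obtain ⟨c, h1, h2, h3⟩ := hmem q hq
    exact mem_M.mpr ⟨c, h1, h2, mem_rd.mpr ⟨hbel, q, h3, hqi⟩⟩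
  have hMJ : ∀ i ∈ Mr, i ∉ J := fun i hi hiJ =>
    (mem_Mis.mp (hJ hiJ)).1 (hMM i hi (hJb i hiJ))
  -- the input on which the combined computation runs
  let I : G.Var k → Fin k := fun v => if v.2 = kidVal z v.1 then z v.1 else
    if v.2 = kidVal w v.1 ∧ v.1 ∈ Mr then w v.1 else δ
  have hI : value I = z := value_unique _ _ fun i => if_pos rfl
  have hIz : ∀ q ∈ lz, inp z δ (P.query q) = I (P.query q) := by
    intro q hq
    by_cases h1 : (P.query q).2 = kidVal z (P.query q).1
    · simp only [inp, I, if_pos h1]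
    · have h2 : ∀ s, G.kid (P.query q).1 s ∉ J := hJz _ ⟨q, hq, rfl, h1⟩
      have h3 : kidVal w (P.query q).1 = kidVal z (P.query q).1 :=
        funext fun s => hwz _ (h2 s)
      simp only [inp, I, if_neg h1]
      rw [if_neg]
      rintro ⟨h4, _⟩
      exact h1 (h4.trans h3)
  have hIw : ∀ q ∈ lm, inp w δ (P.query q) = I (P.query q) := by
    intro q hq
    have hql : q ∈ lw := by
      obtain ⟨c, _, _, h3⟩ := hmem q hq
      exact List.mem_of_getElem? h3
    by_cases h1 : (P.query q).2 = kidVal w (P.query q).1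
    · have h2 : (P.query q).1 ∈ Mr := (hMr' _).mpr ⟨q, hq, by
        conv_lhs => rw [← Sigma.eta (P.query q)]
        rw [h1]⟩
      simp only [inp, I, if_pos h1]
      by_cases h3 : (P.query q).2 = kidVal z (P.query q).1
      · rw [if_pos h3]
        exact hwz _ (hMJ _ h2)
      · rw [if_neg h3, if_pos ⟨h1, h2⟩]
    · have h2 : ∀ s, G.kid (P.query q).1 s ∉ J := hJw _ ⟨q, hql, rfl, h1⟩
      have h3 : kidVal w (P.query q).1 = kidVal z (P.query q).1 :=
        funext fun s => hwz _ (h2 s)
      have h4 : ¬ (P.query q).2 = kidVal z (P.query q).1 := fun h => h1 (h.trans h3.symm)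
      simp only [inp, I, if_neg h1, if_neg h4]
      rw [if_neg]
      exact fun h => h1 h.1
  -- the combined computation
  have hcomp : P.IsComp I (lz.take a' ++ (lm ++ lz.drop b')) true := by
    rw [isComp_iff, trav_append]
    refine ⟨_, trav_congr (fun q hq => hIz q (List.mem_of_mem_take hq)) (trav_pt hlz a').1, ?_⟩
    rw [trav_append]
    refine ⟨_, ?_, trav_congr (fun q hq => hIz q (List.mem_of_mem_drop hq)) (trav_pt hlz b').2⟩
    rw [← ha, ← hb]
    exact trav_congr hIw (trav_seg hlw hab)
  -- the irrelevant variables which it reads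
  set D := Mr.filter fun i => kidVal w i ≠ kidVal z i with hD
  have hDt : D.card ≤ t := by
    have h1 := hW I _ hcomp (D.image fun i => (⟨i, kidVal w i⟩ : G.Var k)) (by
      intro v hv
      obtain ⟨i, hi, rfl⟩ := mem_image.mp hv
      obtain ⟨hi1, hi2⟩ := mem_filter.mp hi
      refine ⟨fun h => hi2 (by rw [Relevant, hI] at h; exact h), ?_⟩
      obtain ⟨q, hq, hqi⟩ := (hMr' i).mp hi1
      exact ⟨q, by simp [hq], hqi⟩)
    rwa [card_image_of_injective _ (fun i j hij => congrArg (fun v : G.Var k => v.1) hij)] at h1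
  have hsub : (J.filter fun j => w j ≠ z j) ⊆
      D.biUnion fun i => (univ : Finset (Fin (G.deg i))).image (G.kid i) := by
    intro j hj
    obtain ⟨hjJ, hjne⟩ := mem_filter.mp hj
    obtain ⟨_, i, hi, s, hs⟩ := mem_Mis.mp (hJ hjJ)
    obtain ⟨c, h1, h2, h3⟩ := mem_M.mp hi
    obtain ⟨_, q, h4, h5⟩ := mem_rd.mp h3
    rw [mem_biUnion]
    refine ⟨i, mem_filter.mpr ⟨(hMr' i).mpr ⟨q, ?_, h5⟩, fun heq => hjne ?_⟩,
      mem_image.mpr ⟨s, mem_univ _, hs⟩⟩
    · have hc : c < lw.length := by
        by_contra hc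
        rw [List.getElem?_eq_none (by omega)] at h4
        exact absurd h4 (by simp)
      rw [List.getElem?_eq_getElem hc] at h4
      rw [hlm, List.mem_take_iff_getElem]
      refine ⟨c - a, ?_, ?_⟩
      · rw [List.length_drop]; omega
      · rw [List.getElem_drop, ← Option.some.inj h4]
        congr 1
        omega
    · have := congrFun heq s
      rw [kidVal, kidVal, hs] at this
      exact this
  calc (J.filter fun j => w j ≠ z j).card
      ≤ (D.biUnion fun i => (univ : Finset (Fin (G.deg i))).image (G.kid i)).card :=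
        card_le_card hsub
    _ ≤ D.card * d := card_biUnion_le_card_mul _ _ _ (fun i _ => card_image_le.trans (by
        rw [card_univ, Fintype.card_fin]; exact hd i))
    _ ≤ t * d := Nat.mul_le_mul_right _ hDt
    _ = d * t := Nat.mul_comm _ _

end Dag

end Pool.Agent.W994.DE
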