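import Pool.Agent.W994.DE.Nd

/-!
# Nondeterministic programs for DAG evaluation: counting
-/

set_option autoImplicit false

namespace Pool.Agent.W994.DE

open Finset
open Pool.Agent.H554R2.Thrifty (BP)

section Ham

variable {V : Type} [Fintype V] [DecidableEq V] {k : ℕ}

theorem pi_card (D : Finset V) (w₀ : V → Fin k) :
    (Fintype.piFinset fun i => if i ∈ D then (univ : Finset (Fin k)) else {w₀ i}).card =
      k ^ D.card := by
  rw [Fintype.card_piFinset]
  calc ∏ i, (if i ∈ D then (univ : Finset (Fin k)) else {w₀ i}).card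
      = ∏ i, (if i ∈ D then k else 1) := by
        refine prod_congr rfl fun i _ => ?_
        split <;> simp
    _ = k ^ D.card := by
        rw [prod_ite_mem, univ_inter, prod_const]

/-- Functions which differ from `w₀` in at most `e` places of `J`. -/
theorem ham_card (hk : 1 ≤ k) {K : Finset (V → Fin k)} {J : Finset V} {e : ℕ} {w₀ : V → Fin k}
    (h : ∀ w ∈ K, (∀ i, i ∉ J → w i = w₀ i) ∧ (J.filter fun j => w j ≠ w₀ j).card ≤ e) :
    K.card ≤ 2 ^ J.card * k ^ e := by
  classical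
  have hsub : K ⊆ (J.powerset.filter fun D => D.card ≤ e).biUnion
      (fun D => Fintype.piFinset fun i => if i ∈ D then (univ : Finset (Fin k)) else {w₀ i}) := by
    intro w hw
    obtain ⟨h1, h2⟩ := h w hw
    rw [mem_biUnion]
    refine ⟨J.filter fun j => w j ≠ w₀ j, mem_filter.mpr ⟨mem_powerset.mpr (filter_subset _ _),
      h2⟩, Fintype.mem_piFinset.mpr fun i => ?_⟩
    split
    · exact mem_univ _
    · rename_i h3
      rw [mem_filter, not_and_or, not_not] at h3
      rw [mem_singleton]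
      exact h3.elim (h1 i) id
  calc K.card ≤ _ := card_le_card hsub
    _ ≤ (J.powerset.filter fun D => D.card ≤ e).card * k ^ e := by
        refine card_biUnion_le_card_mul _ _ _ fun D hD => ?_
        rw [pi_card]
        exact Nat.pow_le_pow_right hk (mem_filter.mp hD).2
    _ ≤ 2 ^ J.card * k ^ e := by
        refine Nat.mul_le_mul_right _ ((card_filter_le _ _).trans ?_)
        rw [card_powerset]

theorem fiber_card (hk : 1 ≤ k) (δ : Fin k) {F : Finset (V → Fin k)} {J : Finset V} {e : ℕ}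
    (h : ∀ w ∈ F, ∀ z ∈ F, (∀ i, i ∉ J → w i = z i) → (J.filter fun j => w j ≠ z j).card ≤ e) :
    F.card ≤ 2 ^ J.card * k ^ e * k ^ (Fintype.card V - J.card) := by
  classical
  let f : (V → Fin k) → (V → Fin k) := fun w i => if i ∈ J then δ else w i
  have h1 := card_le_mul_card_image (f := f) F (2 ^ J.card * k ^ e) (by
    intro g hg
    obtain ⟨w₀, hw₀, rfl⟩ := mem_image.mp hg
    refine ham_card hk (w₀ := w₀) fun w hw => ?_
    obtain ⟨hwF, hwf⟩ := mem_filter.mp hw
    have hoff : ∀ i, i ∉ J → w i = w₀ i := by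
      intro i hi
      have := congrFun hwf i
      simpa only [f, if_neg hi] using this
    exact ⟨hoff, h w hwF w₀ hw₀ hoff⟩)
  refine h1.trans (Nat.mul_le_mul_left _ ?_)
  have h2 : F.image f ⊆
      Fintype.piFinset fun i => if i ∈ Jᶜ then (univ : Finset (Fin k)) else {δ} := by
    intro g hg
    obtain ⟨w, _, rfl⟩ := mem_image.mp hg
    refine Fintype.mem_piFinset.mpr fun i => ?_
    split
    · exact mem_univ _
    · rename_i h3
      rw [mem_compl, not_not] at h3
      rw [mem_singleton]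
      exact if_pos h3
  refine (card_le_card h2).trans ?_
  rw [pi_card (Jᶜ) (fun _ => δ), card_compl]

end Ham

namespace Dag

variable {G : Dag} {k : ℕ} {P : BP (G.Var k) k} {r : G.V} {S : Fin k → Bool} {a₀ δ : Fin k}
  {t : ℕ}

/-- The value functions which are used. -/
noncomputable def vals (r : G.V) (a₀ δ : Fin k) : Finset (G.V → Fin k) :=
  Fintype.piFinset fun i => if i = r then {a₀} else univ.erase δ

theorem vals_card (r : G.V) (a₀ δ : Fin k) :
    (vals r a₀ δ).card = (k - 1) ^ (Fintype.card G.V - 1) := by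
  classical
  rw [vals, Fintype.card_piFinset, ← mul_prod_erase univ _ (mem_univ r), if_pos rfl,
    card_singleton, one_mul]
  rw [prod_congr rfl (g := fun _ => k - 1)]
  · rw [prod_const, card_erase_of_mem (mem_univ _), card_univ]
  · intro i hi
    rw [if_neg (ne_of_mem_erase hi), card_erase_of_mem (mem_univ _), card_univ, Fintype.card_fin]

theorem mem_vals (hδ : a₀ ≠ δ) {w : G.V → Fin k} (hw : w ∈ vals r a₀ δ) :
    (∀ i, w i ≠ δ) ∧ w r = a₀ := by
  rw [vals, Fintype.mem_piFinset] at hw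
  have h1 : w r = a₀ := by
    have := hw r
    rwa [if_pos rfl, mem_singleton] at this
  refine ⟨fun i => ?_, h1⟩
  by_cases hi : i = r
  · rw [hi, h1]; exact hδ
  · have := hw i
    rw [if_neg hi] at this
    exact ne_of_mem_erase this

theorem vals_nonempty (hδ : a₀ ≠ δ) : (vals r a₀ δ).Nonempty := by
  refine ⟨fun _ => a₀, Fintype.mem_piFinset.mpr fun i => ?_⟩
  split
  · exact mem_singleton_self _
  · exact mem_erase.mpr ⟨hδ, mem_univ _⟩

/-- The main counting inequality. -/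
theorem count (hP : Decides P r S) (hW : Waste P t) (hSa : S a₀ = true) (hSδ : S δ = false)
    {d : ℕ}
    (hd : ∀ i, G.deg i ≤ d) {s m : ℕ} (hs : P.size ≤ 2 ^ s)
    (hG : ¬ G.Pebblable (2 * (m + d * t - 1) * s + 1) r) (hm : 1 ≤ m) :
    m ≤ Fintype.card G.V ∧ (k - 1) ^ (Fintype.card G.V - 1) ≤
      2 ^ m * k ^ (d * t) * k ^ (Fintype.card G.V - m) *
        (P.size * P.size * Fintype.card G.V ^ m) := by
  classical
  have hk : 1 ≤ k := a₀.pos
  have hδ : a₀ ≠ δ := fun h => by rw [h, hSδ] at hSa; exact absurd hSa (by simp)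
  have : Nonempty (G.Var k) := ⟨⟨r, fun _ => a₀⟩⟩
  -- choose simple accepting computations
  have hcomp : ∀ w ∈ vals r a₀ δ, ∃ l : List P.State, l.Nodup ∧ P.IsComp (inp w δ) l true := by
    intro w hw
    obtain ⟨h1, h2⟩ := mem_vals hδ hw
    obtain ⟨l, hl⟩ := (hP (inp w δ)).mpr (by rw [value_inp, h2, hSa])
    rw [isComp_iff] at hl
    obtain ⟨l', h3, h4⟩ := exists_nodup hl
    exact ⟨l', h3, isComp_iff.mpr h4⟩
  choose! L hLnd hL using hcomp
  -- choose intervals and sets of missing nodes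
  have hint : ∀ w ∈ vals r a₀ δ, ∃ a b, ∃ J : Finset G.V, a ≤ b ∧
      J ⊆ Mis (rd P r w (L w)) a b ∧ J.card = m ∧ (∀ j ∈ J, G.Below r j) ∧
      ∀ i, Wst P w (L w) i → ∀ σ, G.kid i σ ∉ J := by
    intro w hw
    obtain ⟨h1, h2⟩ := mem_vals hδ hw
    have hlen : (L w).length ≤ 2 ^ s := by
      refine (hLnd w hw).length_le_card.trans (le_trans ?_ hs)
      exact Nat.le_add_right _ 2
    obtain ⟨a, b, hab, hp⟩ := exists_interval hP hSδ h1 (hL w hw) hlen hG
    -- nodes with wasteful reads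
    set Z : Finset G.V := univ.filter fun i => Wst P w (L w) i with hZ
    have hZt : Z.card ≤ t := by
      have hex : ∀ i ∈ Z, ∃ v : G.Var k, v.1 = i ∧ ¬ v.2 = kidVal w v.1 ∧
          ∃ q ∈ L w, P.query q = v := by
        intro i hi
        obtain ⟨q, hq, h3, h4⟩ := (mem_filter.mp hi).2
        exact ⟨P.query q, h3, h4, q, hq, rfl⟩
      choose! v hv1 hv2 hv3 using hex
      have h3 := hW (inp w δ) (L w) (hL w hw) (Z.image v) (by
        intro u hu
        obtain ⟨i, hi, rfl⟩ := mem_image.mp hu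
        refine ⟨?_, hv3 i hi⟩
        rw [Relevant, value_inp]
        exact hv2 i hi)
      rwa [card_image_of_injOn] at h3
      intro i hi j hj hij
      have h4 : (v i).1 = (v j).1 := by rw [hij]
      rwa [hv1 i hi, hv1 j hj] at h4
    set KZ : Finset G.V := Z.biUnion fun i => (univ : Finset (Fin (G.deg i))).image (G.kid i)
      with hKZ
    have hKZ' : KZ.card ≤ d * t := by
      calc KZ.card ≤ Z.card * d := card_biUnion_le_card_mul _ _ _ (fun i _ =>
            card_image_le.trans (by rw [card_univ, Fintype.card_fin]; exact hd i))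
        _ ≤ t * d := Nat.mul_le_mul_right _ hZt
        _ = d * t := Nat.mul_comm _ _
    have h3 : m ≤ (Mis (rd P r w (L w)) a b \ KZ).card := by
      have := le_card_sdiff KZ (Mis (rd P r w (L w)) a b)
      omega
    obtain ⟨J, hJ1, hJ2⟩ := exists_subset_card_eq h3
    refine ⟨a, b, J, hab, fun j hj => (mem_sdiff.mp (hJ1 hj)).1, hJ2, ?_, ?_⟩
    · intro j hj
      obtain ⟨_, i, hi, σ, hσ⟩ := mem_Mis.mp (mem_sdiff.mp (hJ1 hj)).1
      obtain ⟨c, _, _, h4⟩ := mem_M.mp hi
      exact hσ ▸ (mem_rd.mp h4).1.kid σ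
    · intro i hi σ hσ
      refine (mem_sdiff.mp (hJ1 hσ)).2 ?_
      rw [hKZ, mem_biUnion]
      exact ⟨i, by simp [hZ, hi], mem_image.mpr ⟨σ, mem_univ _, rfl⟩⟩
  choose! A B J hAB hJ hJm hJb hJW using hint
  -- the signature
  let sig : (G.V → Fin k) → ((P.State ⊕ Bool) × (P.State ⊕ Bool)) × Finset G.V := fun w =>
    ((pt (L w) (Sum.inr true) (A w), pt (L w) (Sum.inr true) (B w)), J w)
  have h1 := card_le_mul_card_image (f := sig) (vals r a₀ δ)
    (2 ^ m * k ^ (d * t) * k ^ (Fintype.card G.V - m)) (by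
    intro g hg
    obtain ⟨w₀, hw₀, rfl⟩ := mem_image.mp hg
    have h2 := fiber_card hk δ (F := (vals r a₀ δ).filter fun w => sig w = sig w₀)
      (J := J w₀) (e := d * t) (by
        intro w hw z hz hwz
        obtain ⟨hwv, hws⟩ := mem_filter.mp hw
        obtain ⟨hzv, hzs⟩ := mem_filter.mp hz
        simp only [sig, Prod.mk.injEq] at hws hzs
        obtain ⟨⟨hw1, hw2⟩, hw3⟩ := hws
        obtain ⟨⟨hz1, hz2⟩, hz3⟩ := hzs
        refine hybrid (r := r) (J := J w₀) hd hW (hL w hwv) (hL z hzv) (hAB w hwv) (hw1.trans hz1.symm)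
          (hw2.trans hz2.symm) ?_ ?_ hwz ?_ ?_
        · rw [← hw3]; exact hJ w hwv
        · rw [← hw3]; exact hJb w hwv
        · rw [← hw3]; exact hJW w hwv
        · rw [← hz3]; exact hJW z hzv)
    rw [hJm w₀ hw₀] at h2
    exact h2)
  rw [vals_card] at h1
  refine ⟨?_, ?_⟩
  · obtain ⟨w, hw⟩ := vals_nonempty (r := r) hδ
    rw [← hJm w hw]
    exact card_le_univ _
  refine h1.trans (Nat.mul_le_mul_left _ ?_)
  have h2 : (vals r a₀ δ).image sig ⊆ (univ ×ˢ univ) ×ˢ powersetCard m univ := by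
    intro g hg
    obtain ⟨w, hw, rfl⟩ := mem_image.mp hg
    simp only [mem_product, mem_univ, true_and, mem_powersetCard, subset_univ]
    exact hJm w hw
  refine (card_le_card h2).trans ?_
  rw [card_product, card_product, card_univ, card_powersetCard, card_univ, Fintype.card_sum,
    Fintype.card_bool]
  exact Nat.mul_le_mul_left _ (Nat.choose_le_pow _ _)

theorem pow_le_two_mul {k j : ℕ} (h : 2 * j ≤ k) (hk : 1 ≤ k) : k ^ j ≤ 2 * (k - 1) ^ j := by
  have hk0 : (0 : ℝ) < k := by exact_mod_cast hk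
  have h1 := one_add_mul_le_pow (a := -(1 / (k : ℝ))) (by
    have : 1 / (k : ℝ) ≤ 1 := by
      rw [div_le_one hk0]; exact_mod_cast hk
    linarith) j
  have h2 : (1 : ℝ) / 2 ≤ 1 + j * (-(1 / (k : ℝ))) := by
    have h3 : (j : ℝ) * (1 / (k : ℝ)) ≤ 1 / 2 := by
      rw [mul_one_div, div_le_iff₀ hk0]
      have : (2 * j : ℝ) ≤ k := by exact_mod_cast h
      linarith
    linarith
  have h3 : (k : ℝ) ^ j ≤ 2 * ((k : ℝ) - 1) ^ j := by
    have h4 : ((k : ℝ) - 1) ^ j = (k : ℝ) ^ j * (1 + -(1 / (k : ℝ))) ^ j := by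
      rw [← mul_pow]
      congr 1
      field_simp
      ring
    rw [h4]
    have h5 : (0 : ℝ) < (k : ℝ) ^ j := by positivity
    nlinarith [h1, h2]
  have h4 : ((k - 1 : ℕ) : ℝ) = (k : ℝ) - 1 := by
    rw [Nat.cast_sub hk, Nat.cast_one]
  rw [← h4] at h3
  exact_mod_cast h3

/-- The lower bound: if a nondeterministic program with at most `2 ^ s` states decides a nontrivial
property `S` of the value of `r`, and no accepting computation reads more than `t` irrelevant
variables, then `r` can be pebbled with few pebbles. -/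
theorem main_nd (hP : Decides P r S) (hSa : S a₀ = true) (hSδ : S δ = false) (hW : Waste P t) {d : ℕ} (hd : ∀ i, G.deg i ≤ d) {s : ℕ}
    (hs : P.size ≤ 2 ^ s) (hk : (2 * Fintype.card G.V) ^ 2 ≤ k) :
    G.Pebblable (2 * (3 * (d * t) + 2 + (4 * s + 2) / Nat.log 2 k) * s + 1) r := by
  classical
  by_contra hG
  set n := Fintype.card G.V with hn
  have hn1 : 1 ≤ n := Fintype.card_pos_iff.mpr ⟨r⟩
  have hk4 : 4 ≤ k := le_trans (by nlinarith) hk
  set κ := Nat.log 2 k with hκ
  have hκ1 : 1 ≤ κ := Nat.log_pos (by norm_num) (by omega)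
  have hκk : 2 ^ κ ≤ k := Nat.pow_log_le_self 2 (by omega)
  obtain ⟨g, hg⟩ : ∃ g, (4 * s + 2) / κ = g := ⟨_, rfl⟩
  rw [hg] at hG
  set e := g + 1 with he
  set m := e + (2 * (d * t) + 2) with hm
  have hG' : ¬ G.Pebblable (2 * (m + d * t - 1) * s + 1) r := by
    have : m + d * t - 1 = 3 * (d * t) + 2 + g := by omega
    rw [this]
    exact hG
  obtain ⟨hmn, hc⟩ := count hP hW hSa hSδ hd hs hG' (by omega)
  rw [← hn] at hmn hc
  have hB : k ^ (n - 1) ≤ 2 * (k - 1) ^ (n - 1) := pow_le_two_mul (by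
    have : 2 * (n - 1) ≤ (2 * n) ^ 2 := by nlinarith [Nat.sub_le n 1]
    omega) (by omega)
  have hk0 : 0 < k := by omega
  have hSS : P.size * P.size ≤ 2 ^ (2 * s) := by
    calc P.size * P.size ≤ 2 ^ s * 2 ^ s := Nat.mul_le_mul hs hs
      _ = 2 ^ (2 * s) := by rw [← pow_add]; congr 1; ring
  -- `k ^ m ≤ 2 (2 n) ^ m k ^ (d t + 1) 4 ^ s`
  have h1 : k ^ m ≤ 2 * (2 * n) ^ m * k ^ (d * t + 1) * 2 ^ (2 * s) := by
    have h2 : k ^ (n - 1) * k ^ m ≤
        k ^ (n - 1) * (2 * (2 * n) ^ m * k ^ (d * t + 1) * 2 ^ (2 * s)) := by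
      calc k ^ (n - 1) * k ^ m ≤ 2 * (k - 1) ^ (n - 1) * k ^ m := Nat.mul_le_mul_right _ hB
        _ ≤ 2 * (2 ^ m * k ^ (d * t) * k ^ (n - m) * (P.size * P.size * n ^ m)) * k ^ m :=
            Nat.mul_le_mul_right _ (Nat.mul_le_mul_left _ hc)
        _ ≤ 2 * (2 ^ m * k ^ (d * t) * k ^ (n - m) * (2 ^ (2 * s) * n ^ m)) * k ^ m :=
            Nat.mul_le_mul_right _ (Nat.mul_le_mul_left _ (Nat.mul_le_mul_left _
              (Nat.mul_le_mul_right _ hSS)))
        _ = 2 * (2 * n) ^ m * k ^ (d * t) * (k ^ (n - m) * k ^ m) * 2 ^ (2 * s) := by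
            rw [mul_pow]; ring
        _ = k ^ (n - 1) * (2 * (2 * n) ^ m * k ^ (d * t + 1) * 2 ^ (2 * s)) := by
            have h3 : k ^ (n - m) * k ^ m = k ^ (n - 1) * k := by
              rw [← pow_add, ← pow_succ]
              congr 1
              omega
            rw [h3, pow_succ k (d * t)]
            ring
    exact Nat.le_of_mul_le_mul_left h2 (by positivity)
  -- squaring
  have h2 : k ^ m ≤ k ^ (2 * (d * t) + 2) * 2 ^ (4 * s + 2) := by
    have h3 : k ^ m * k ^ m ≤ k ^ m * (k ^ (2 * (d * t) + 2) * 2 ^ (4 * s + 2)) := by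
      calc k ^ m * k ^ m ≤ (2 * (2 * n) ^ m * k ^ (d * t + 1) * 2 ^ (2 * s)) *
            (2 * (2 * n) ^ m * k ^ (d * t + 1) * 2 ^ (2 * s)) := Nat.mul_le_mul h1 h1
        _ = ((2 * n) ^ 2) ^ m * (k ^ (2 * (d * t) + 2) * 2 ^ (4 * s + 2)) := by
            have e1 : k ^ (2 * (d * t) + 2) = k ^ (d * t + 1) * k ^ (d * t + 1) := by
              rw [← pow_add]; congr 1; ring
            have e2 : 2 ^ (4 * s + 2) = 2 ^ (2 * s) * 2 ^ (2 * s) * 4 := by
              rw [show 4 * s + 2 = 2 * s + 2 * s + 2 by ring, pow_add, pow_add]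
              norm_num
            rw [e1, e2, ← pow_mul, mul_comm 2 m, pow_mul, sq]
            ring
        _ ≤ k ^ m * (k ^ (2 * (d * t) + 2) * 2 ^ (4 * s + 2)) :=
            Nat.mul_le_mul_right _ (Nat.pow_le_pow_left hk m)
    exact Nat.le_of_mul_le_mul_left h3 (by positivity)
  have h3 : 2 ^ (κ * e) ≤ 2 ^ (4 * s + 2) := by
    have h4 : k ^ (2 * (d * t) + 2) * 2 ^ (κ * e) ≤ k ^ (2 * (d * t) + 2) * 2 ^ (4 * s + 2) := by
      calc k ^ (2 * (d * t) + 2) * 2 ^ (κ * e) = k ^ (2 * (d * t) + 2) * (2 ^ κ) ^ e := by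
            rw [pow_mul]
        _ ≤ k ^ (2 * (d * t) + 2) * k ^ e := Nat.mul_le_mul_left _ (Nat.pow_le_pow_left hκk e)
        _ = k ^ m := by rw [← pow_add, hm, Nat.add_comm]
        _ ≤ _ := h2
    exact Nat.le_of_mul_le_mul_left h4 (by positivity)
  have h4 : κ * e ≤ 4 * s + 2 := (Nat.pow_le_pow_iff_right (by norm_num)).mp h3
  have h5 : 4 * s + 2 < κ * e := by
    rw [he, ← hg]
    exact Nat.lt_mul_div_succ _ (by omega)
  omega

end Dag

end Pool.Agent.W994.DE
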