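import Pool.Agent.W994.DE.Fam

/-!
# The boundaries of the sets of the certificates become small
-/

set_option autoImplicit false

namespace Pool.Agent.W994.DE

open Finset
open Pool.Agent.H554R2.Thrifty (BP)

namespace Dag

variable {G : Dag} {k : ℕ} {P : BP (G.Var k) k} {δ : Fin k} {W : Finset (G.V → Fin k)}
  {e : (G.V → Fin k) → ℕ → P.State ⊕ Bool}

/-- The elements `(j, v j)` for `j ∈ J v`. -/
def own (J : (G.V → Fin k) → Finset G.V) (v : G.V → Fin k) : Finset (G.V × Fin k) :=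
  (J v).image fun j => (j, v j)

theorem card_own (J : (G.V → Fin k) → Finset G.V) (v : G.V → Fin k) :
    (own J v).card = (J v).card :=
  card_image_of_injective _ fun _ _ hij => congrArg Prod.fst hij

theorem mem_own {J : (G.V → Fin k) → Finset G.V} {v : G.V → Fin k} {j : G.V} {x : Fin k} :
    (j, x) ∈ own J v ↔ j ∈ J v ∧ x = v j := by
  rw [own, mem_image]
  constructor
  · rintro ⟨j', h1, h2⟩
    obtain ⟨rfl, rfl⟩ := Prod.mk.inj h2
    exact ⟨h1, rfl⟩
  · rintro ⟨h1, rfl⟩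
    exact ⟨j, h1, rfl⟩

/-- The class of `v`: the ends of the interval, the set `J v`, and the values outside of it. -/
def key (P : BP (G.Var k) k) (δ : Fin k) (e : (G.V → Fin k) → ℕ → P.State ⊕ Bool) (a b : ℕ)
    (J : (G.V → Fin k) → Finset G.V) (v : G.V → Fin k) :
    ((P.State ⊕ Bool) × (P.State ⊕ Bool)) × (Finset G.V × (G.V → Fin k)) :=
  ((e v a, e v b), (J v, fun i => if i ∈ J v then δ else v i))

theorem card_keys {a b φ : ℕ} {J : (G.V → Fin k) → Finset G.V}
    [DecidableEq (((P.State ⊕ Bool) × (P.State ⊕ Bool)) × (Finset G.V × (G.V → Fin k)))]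
    {N : Finset (G.V → Fin k)} (hJ : ∀ v ∈ N, (J v).card = φ) :
    (N.image (key P δ e a b J)).card ≤
      P.size * P.size * ((Fintype.card G.V).choose φ * k ^ (Fintype.card G.V - φ)) := by
  classical
  have h1 : N.image (key P δ e a b J) ⊆ (univ ×ˢ univ) ×ˢ
      ((powersetCard φ univ).biUnion fun J' : Finset G.V => {J'} ×ˢ
        (Fintype.piFinset fun i => if i ∈ J'ᶜ then (univ : Finset (Fin k)) else {δ})) := by
    intro g hg
    obtain ⟨v, hv, rfl⟩ := mem_image.mp hg
    simp only [key, mem_product, mem_univ, true_and, mem_biUnion, mem_powersetCard, subset_univ,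
      mem_singleton]
    refine ⟨J v, hJ v hv, rfl, ?_⟩
    rw [Fintype.mem_piFinset]
    intro i
    split
    · exact mem_univ _
    · rename_i h3
      rw [mem_compl, not_not] at h3
      rw [mem_singleton]
      exact if_pos h3
  refine (card_le_card h1).trans ?_
  rw [card_product, card_product, card_univ, Fintype.card_sum, Fintype.card_bool]
  refine Nat.mul_le_mul le_rfl ?_
  refine (card_biUnion_le_card_mul _ _ (k ^ (Fintype.card G.V - φ)) fun J' hJ' => ?_).trans ?_
  · rw [card_product, card_singleton, one_mul, pi_card (J'ᶜ) (fun _ => δ), card_compl,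
      (mem_powersetCard.mp hJ').2]
  · rw [card_powersetCard, card_univ]

open Classical in
/-- The sum over all classes in the isolation lemma. -/
theorem sum_bad {M : ℕ} [NeZero M] {a b φ B : ℕ} {J : (G.V → Fin k) → Finset G.V}
    {N : Finset (G.V → Fin k)} (hJ : ∀ v ∈ N, (J v).card = φ)
    {C : (G.V → Fin k) → Finset (G.V × Fin k)} (hC : ∀ v ∈ N, (C v).card ≤ B)
    (Bad : (G.V → Fin k) → Finset (G.V × Fin k → Fin M))
    (hBad : ∀ v ∈ N, ∀ c ∈ Bad v, ¬ ∃ w ∈ N, key P δ e a b J w = key P δ e a b J v ∧ w ≠ v ∧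
      Clean (own J) C w (zer (own J v) c)) :
    (∑ v ∈ N, (Bad v).card) * M ≤
      (P.size * P.size * ((Fintype.card G.V).choose φ * k ^ (Fintype.card G.V - φ)) *
        (M ^ φ * M) + N.card * B) * M ^ Fintype.card (G.V × Fin k) := by
  set kf := key P δ e a b J with hkf
  have h1 : ∀ g ∈ N.image kf, (∑ v ∈ N.filter fun v => kf v = g, (Bad v).card) * M ≤
      (M ^ φ * M + (N.filter fun v => kf v = g).card * B) *
        M ^ Fintype.card (G.V × Fin k) := by
    intro g _
    refine iso (N.filter fun v => kf v = g) (own J) C (fun v hv => ?_) (fun v hv => ?_) Bad ?_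
    · rw [card_own, hJ v (mem_filter.mp hv).1]
    · exact hC v (mem_filter.mp hv).1
    · intro v hv c hc
      rintro ⟨w, hw, hwv, hcl⟩
      obtain ⟨hv1, hv2⟩ := mem_filter.mp hv
      obtain ⟨hw1, hw2⟩ := mem_filter.mp hw
      exact hBad v hv1 c hc ⟨w, hw1, hw2.trans hv2.symm, hwv, hcl⟩
  have hmap : ∀ v ∈ N, kf v ∈ N.image kf := fun v hv => mem_image_of_mem _ hv
  rw [← sum_fiberwise_of_maps_to hmap, sum_mul]
  refine (sum_le_sum h1).trans ?_
  rw [← sum_mul, sum_add_distrib, sum_const, ← sum_mul, ← card_eq_sum_card_fiberwise hmap,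
    smul_eq_mul]
  exact Nat.mul_le_mul_right _ (Nat.add_le_add_right (Nat.mul_le_mul_right _ (card_keys hJ)) _)

/-- There is an element which can replace `v`. -/
def Repl (P : BP (G.Var k) k) (δ : Fin k) (e : (G.V → Fin k) → ℕ → P.State ⊕ Bool) (a b : ℕ)
    {M : ℕ} [NeZero M] (J : (G.V → Fin k) → Finset G.V) (N : Finset (G.V → Fin k))
    (C : (G.V → Fin k) → Finset (G.V × Fin k)) (v : G.V → Fin k) (c : G.V × Fin k → Fin M) :
    Prop :=
  ∃ w ∈ N, key P δ e a b J w = key P δ e a b J v ∧ w ≠ v ∧ Clean (own J) C w (zer (own J v) c)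

open Classical in
/-- Refinement of a random family by further random private sets. -/
theorem FamP.extend {Φ₀ Φ₁ : Finset G.V → Prop} {a b : ℕ} {ε η ε' η' : ℝ}
    (h : FamP P δ W e Φ₀ a b ε η) {C : Type} [Fintype C] [Nonempty C]
    (Q : C → G.V → Finset (Fin k))
    (hQ : ∀ j x, ((univ.filter fun c => x ∈ Q c j).card : ℝ) ≤ η' * Fintype.card C)
    (hN : ∀ Pr : G.V → Finset (Fin k), ∃ (N : Finset (G.V → Fin k)) (R : (G.V → Fin k) → C → Prop),
      (∀ v ∈ W, Ok P δ e Φ₀ a b Pr v → v ∉ N → ∀ c, Ok P δ e Φ₁ a b (fun j => Pr j ∪ Q c j) v) ∧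
      (∀ v ∈ N, ∀ c, R v c → Ok P δ e Φ₁ a b (fun j => Pr j ∪ Q c j) v) ∧
      ∑ v ∈ N, ((univ.filter fun c => ¬ R v c).card : ℝ) ≤ ε' * (W.card * Fintype.card C)) :
    FamP P δ W e Φ₁ a b (ε + ε') (η + η') := by
  obtain ⟨D, _, _, Pr, hs, hη⟩ := h
  have hN' := fun d => hN (Pr d)
  choose N R hN1 hN2 hN3 using hN'
  refine ⟨D × C, inferInstance, inferInstance, fun d j => Pr d.1 j ∪ Q d.2 j, ?_, ?_⟩
  · have hsub : ∀ d : D × C,
        ((W.filter fun v => ¬ Ok P δ e Φ₁ a b (fun j => Pr d.1 j ∪ Q d.2 j) v).card : ℝ) ≤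
        (W.filter fun v => ¬ Ok P δ e Φ₀ a b (Pr d.1) v).card +
        ((N d.1).filter fun v => ¬ R d.1 v d.2).card := by
      intro d
      have h1 : (W.filter fun v => ¬ Ok P δ e Φ₁ a b (fun j => Pr d.1 j ∪ Q d.2 j) v) ⊆
          (W.filter fun v => ¬ Ok P δ e Φ₀ a b (Pr d.1) v) ∪
          ((N d.1).filter fun v => ¬ R d.1 v d.2) := by
        intro v hv
        obtain ⟨hv1, hv2⟩ := mem_filter.mp hv
        rw [mem_union, mem_filter, mem_filter]
        by_cases hok : Ok P δ e Φ₀ a b (Pr d.1) v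
        · by_cases hvN : v ∈ N d.1
          · exact Or.inr ⟨hvN, fun hR => hv2 (hN2 d.1 v hvN d.2 hR)⟩
          · exact absurd (hN1 d.1 v hv1 hok hvN d.2) hv2
        · exact Or.inl ⟨hv1, hok⟩
      exact_mod_cast (card_le_card h1).trans (card_union_le _ _)
    have hA : ∑ d : D × C, ((W.filter fun v => ¬ Ok P δ e Φ₀ a b (Pr d.1) v).card : ℝ) ≤
        ε * (Fintype.card (D × C) * W.card) := by
      rw [Fintype.sum_prod_type]
      simp only [sum_const, card_univ, nsmul_eq_mul]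
      rw [← mul_sum]
      calc (Fintype.card C : ℝ) *
            ∑ d, ((W.filter fun v => ¬ Ok P δ e Φ₀ a b (Pr d) v).card : ℝ)
          ≤ Fintype.card C * (ε * (Fintype.card D * W.card)) :=
            mul_le_mul_of_nonneg_left hs (Nat.cast_nonneg _)
        _ = _ := by rw [Fintype.card_prod]; push_cast; ring
    have hB : ∑ d : D × C, (((N d.1).filter fun v => ¬ R d.1 v d.2).card : ℝ) ≤
        ε' * (Fintype.card (D × C) * W.card) := by
      rw [Fintype.sum_prod_type]
      calc ∑ d : D, ∑ c : C, (((N d).filter fun v => ¬ R d v c).card : ℝ)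
          = ∑ d : D, ∑ v ∈ N d, ((univ.filter fun c => ¬ R d v c).card : ℝ) :=
            sum_congr rfl fun d _ => sum_card_swap _ _ _
        _ ≤ ∑ _d : D, ε' * (W.card * Fintype.card C) := sum_le_sum fun d _ => hN3 d
        _ = _ := by
            rw [sum_const, card_univ, nsmul_eq_mul, Fintype.card_prod]
            push_cast
            ring
    refine (sum_le_sum fun d _ => hsub d).trans ?_
    rw [sum_add_distrib]
    calc _ ≤ ε * (Fintype.card (D × C) * W.card) + ε' * (Fintype.card (D × C) * W.card) :=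
          add_le_add hA hB
      _ = _ := by ring
  · intro j x
    have h1 : (univ.filter fun d : D × C => x ∈ Pr d.1 j ∪ Q d.2 j) ⊆
        (univ.filter fun d => x ∈ Pr d j) ×ˢ univ ∪ univ ×ˢ (univ.filter fun c => x ∈ Q c j) := by
      intro d hd
      have := mem_union.mp (mem_filter.mp hd).2
      simp only [mem_union, mem_product, mem_filter, mem_univ, true_and, and_true]
      exact this
    calc ((univ.filter fun d : D × C => x ∈ Pr d.1 j ∪ Q d.2 j).card : ℝ)
        ≤ ((univ.filter fun d => x ∈ Pr d j).card * Fintype.card C +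
          Fintype.card D * (univ.filter fun c => x ∈ Q c j).card : ℕ) := by
          refine Nat.cast_le.mpr ((card_le_card h1).trans ((card_union_le _ _).trans ?_))
          rw [card_product, card_product, card_univ, card_univ]
      _ = (univ.filter fun d => x ∈ Pr d j).card * (Fintype.card C : ℝ) +
          Fintype.card D * (univ.filter fun c => x ∈ Q c j).card := by push_cast; ring
      _ ≤ (η * Fintype.card D) * (Fintype.card C : ℝ) +
          Fintype.card D * (η' * Fintype.card C) :=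
          add_le_add (mul_le_mul_of_nonneg_right (hη j x) (Nat.cast_nonneg _))
            (mul_le_mul_of_nonneg_left (hQ j x) (Nat.cast_nonneg _))
      _ = (η + η') * Fintype.card (D × C) := by
          rw [Fintype.card_prod]; push_cast; ring

open Classical in
theorem card_zero (M : ℕ) [NeZero M] (j : G.V) (x : Fin k) :
    ((univ.filter fun c : G.V × Fin k → Fin M =>
      x ∈ univ.filter fun x => c (j, x) = 0).card : ℝ) ≤
      1 / M * Fintype.card (G.V × Fin k → Fin M) := by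
  have hM0 : (0 : ℝ) < M := by exact_mod_cast Nat.pos_of_ne_zero (NeZero.ne M)
  have h3 := card_Van (M := M) ({(j, x)} : Finset (G.V × Fin k))
  rw [card_singleton, pow_one] at h3
  have h4 : (Fintype.card (G.V × Fin k → Fin M) : ℝ) = (Van M {(j, x)}).card * M := by
    rw [Fintype.card_fun, Fintype.card_fin, ← h3]
    push_cast
    rfl
  have h5 : (univ.filter fun c : G.V × Fin k → Fin M =>
      x ∈ univ.filter fun x => c (j, x) = 0) = Van M {(j, x)} := by
    ext c
    simp [mem_Van]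
  rw [h5, h4]
  refine le_of_eq ?_
  field_simp

open Classical in
theorem stage_count {M : ℕ} [NeZero M] {a b φ dg : ℕ} {ι : ℝ}
    (hι : ((P.size * P.size * ((Fintype.card G.V).choose φ * k ^ (Fintype.card G.V - φ)) *
      M ^ φ : ℕ) : ℝ) ≤ ι * W.card)
    {J : (G.V → Fin k) → Finset G.V}
    {N : Finset (G.V → Fin k)} (hNW : N ⊆ W) (hJ : ∀ v ∈ N, (J v).card = φ)
    {C : (G.V → Fin k) → Finset (G.V × Fin k)} (hC : ∀ v ∈ N, (C v).card ≤ (b - a) * dg) :
    ∑ v ∈ N, ((univ.filter fun c : G.V × Fin k → Fin M =>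
      ¬ Repl P δ e a b J N C v c).card : ℝ) ≤
      (ι + ((b - a) * dg : ℕ) / M) * (W.card * Fintype.card (G.V × Fin k → Fin M)) := by
  have hM0 : (0 : ℝ) < M := by exact_mod_cast Nat.pos_of_ne_zero (NeZero.ne M)
  have h1 := sum_bad (M := M) (P := P) (δ := δ) (e := e) (a := a) (b := b) hJ hC
    (fun v => univ.filter fun c : G.V × Fin k → Fin M => ¬ Repl P δ e a b J N C v c)
    (fun v hv c hc => (mem_filter.mp hc).2)
  obtain ⟨f, hf⟩ : ∃ f : (G.V → Fin k) → ℕ, ∀ v, (univ.filter fun c : G.V × Fin k → Fin M =>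
      ¬ Repl P δ e a b J N C v c).card = f v := ⟨_, fun _ => rfl⟩
  simp only [hf] at h1 ⊢
  have hNW' : (N.card : ℝ) ≤ W.card := by exact_mod_cast card_le_card hNW
  have hcard : Fintype.card (G.V × Fin k → Fin M) = M ^ Fintype.card (G.V × Fin k) := by
    rw [Fintype.card_fun, Fintype.card_fin]
  rw [hcard]
  obtain ⟨q, hq⟩ : ∃ q, M ^ Fintype.card (G.V × Fin k) = q := ⟨_, rfl⟩
  rw [hq] at h1 ⊢
  obtain ⟨z, hz⟩ : ∃ z, P.size * P.size * ((Fintype.card G.V).choose φ *
    k ^ (Fintype.card G.V - φ)) = z := ⟨_, rfl⟩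
  rw [hz] at h1 hι
  have h2 : (∑ v ∈ N, (f v : ℝ)) * M ≤ (ι * W.card * M + W.card * ((b - a) * dg : ℕ)) * q := by
    calc (∑ v ∈ N, (f v : ℝ)) * M = (((∑ v ∈ N, f v) * M : ℕ) : ℝ) := by push_cast; rfl
      _ ≤ (((z * (M ^ φ * M) + N.card * ((b - a) * dg)) * q : ℕ) : ℝ) := Nat.cast_le.mpr h1
      _ = ((z * M ^ φ : ℕ) * M + N.card * ((b - a) * dg : ℕ)) * q := by push_cast; ring
      _ ≤ _ := mul_le_mul_of_nonneg_right (add_le_add (mul_le_mul_of_nonneg_right hι hM0.le)
          (mul_le_mul_of_nonneg_right hNW' (Nat.cast_nonneg _))) (Nat.cast_nonneg _)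
  have h3 : (ι + ((b - a) * dg : ℕ) / M) * (W.card * q) * M =
      (ι * W.card * M + W.card * ((b - a) * dg : ℕ)) * q := by
    have h4 : ((b - a) * dg : ℕ) / (M : ℝ) * M = ((b - a) * dg : ℕ) :=
      div_mul_cancel₀ _ hM0.ne'
    calc (ι + ((b - a) * dg : ℕ) / M) * (W.card * q) * M
        = (ι * M + ((b - a) * dg : ℕ) / (M : ℝ) * M) * (W.card * q) := by ring
      _ = _ := by rw [h4]; ring
  rw [← h3] at h2
  exact le_of_mul_le_mul_right h2 hM0

/-- One stage: for almost all elements the set of the certificate becomes larger, unless its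
boundary is small. -/
theorem FamP.stage (r : G.V) {dg : ℕ} (hd : ∀ i, G.deg i ≤ dg) {Φ : Finset G.V → Prop}
    (hΦ : ∀ E E', Φ E → E ⊆ E' → Φ E') {φ t a b M : ℕ} [NeZero M] {ε η ι : ℝ}
    (hι : ((P.size * P.size * ((Fintype.card G.V).choose φ * k ^ (Fintype.card G.V - φ)) *
      M ^ φ : ℕ) : ℝ) ≤ ι * W.card)
    (h : FamP P δ W e (fun E => Φ E ∧ ((Bd E).card ≤ φ ∨ t ≤ E.card)) a b ε η) :
    FamP P δ W e (fun E => Φ E ∧ ((Bd E).card ≤ φ ∨ t + 1 ≤ E.card)) a b
      (ε + ι + ((b - a) * dg : ℕ) / M) (η + 1 / M) := by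
  classical
  set Φ₀ : Finset G.V → Prop := fun E => Φ E ∧ ((Bd E).card ≤ φ ∨ t ≤ E.card) with hΦ₀
  set Φ₁ : Finset G.V → Prop := fun E => Φ E ∧ ((Bd E).card ≤ φ ∨ t + 1 ≤ E.card) with hΦ₁
  have e1 : ε + ι + ((b - a) * dg : ℕ) / M = ε + (ι + ((b - a) * dg : ℕ) / M) := by ring
  rw [e1]
  refine h.extend (C := G.V × Fin k → Fin M)
    (fun c j => univ.filter fun x => c (j, x) = 0) (card_zero M) ?_
  intro Pr
  have hex : ∀ v, ∃ l y E, ∃ J : Finset G.V, Ok P δ e Φ₀ a b Pr v →
      (Cert P δ v (b - a) (e v a) (e v b) Pr l y E ∧ Φ₀ E ∧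
        (¬ (Bd E).card ≤ φ → J ⊆ Bd E ∧ J.card = φ)) := by
    intro v
    by_cases h : Ok P δ e Φ₀ a b Pr v
    · obtain ⟨l, y, E, h1, h2⟩ := h
      by_cases hB : (Bd E).card ≤ φ
      · exact ⟨l, y, E, ∅, fun _ => ⟨h1, h2, fun h => absurd hB h⟩⟩
      · obtain ⟨J, hJ⟩ := exists_subset_card_eq (not_le.mp hB).le
        exact ⟨l, y, E, J, fun _ => ⟨h1, h2, fun _ => hJ⟩⟩
    · exact ⟨[], fun _ => δ, ∅, ∅, fun h' => absurd h' h⟩
  choose l y E J hc using hex
  -- the elements which are not yet done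
  set N : Finset (G.V → Fin k) :=
    W.filter fun v => Ok P δ e Φ₀ a b Pr v ∧ ¬ (Bd (E v)).card ≤ φ with hNdef
  have hN : ∀ v ∈ N, (Ok P δ e Φ₀ a b Pr v ∧ ¬ (Bd (E v)).card ≤ φ) ∧
      Cert P δ v (b - a) (e v a) (e v b) Pr (l v) (y v) (E v) ∧ Φ₀ (E v) ∧
      J v ⊆ Bd (E v) ∧ (J v).card = φ := by
    intro v hv
    have h1 := (mem_filter.mp hv).2
    obtain ⟨h2, h3, h4⟩ := hc v h1.1
    exact ⟨h1, h2, h3, (h4 h1.2).1, (h4 h1.2).2⟩
  refine ⟨N, Repl P δ e a b J N (fun w => Co P (l w)), ?_, ?_, ?_⟩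
  · intro v hvW hok hvN c
    obtain ⟨h2, h3, _⟩ := hc v hok
    have hB : (Bd (E v)).card ≤ φ := by
      by_contra hB
      exact hvN (mem_filter.mpr ⟨hvW, hok, hB⟩)
    exact ⟨_, _, _, h2.mono fun j => subset_union_left, h3.1, Or.inl hB⟩
  · intro v hv c hR
    obtain ⟨w, hw, hk, hne, hcl⟩ := hR
    obtain ⟨_, hv2, hv3, hv4, hv5⟩ := hN v hv
    obtain ⟨hw1, hw2, hw3, hw4, hw5⟩ := hN w hw
    simp only [key, Prod.mk.injEq] at hk
    obtain ⟨⟨hk1, hk2⟩, hk3, hk4⟩ := hk
    rw [hk1, hk2] at hw2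
    have hoff : ∀ i, i ∉ J w → w i = v i := by
      intro i hi
      have := congrFun hk4 i
      rwa [if_neg hi, if_neg (by rwa [← hk3])] at this
    obtain ⟨E'', hE1, hE2⟩ := hw2.switch hw4 hoff hne
      (Q := fun j => univ.filter fun x => c (j, x) = 0) (by
        intro j hj hjv
        rw [mem_filter]
        refine ⟨mem_univ _, ?_⟩
        have h1 := hcl.1 (j, w j) (mem_own.mpr ⟨hj, rfl⟩)
        rw [zer, if_neg] at h1
        · exact h1
        · intro h2
          exact hjv (mem_own.mp h2).2) (by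
        intro q hq σ hσ hx
        have hjJ : G.kid (P.query q).1 σ ∈ J w := by
          by_contra hnot
          exact hσ (hoff _ hnot)
        refine hcl.2 (G.kid (P.query q).1 σ, (P.query q).2 σ) (mem_Co.mpr ⟨q, hq, σ, rfl⟩) ?_ ?_
        · intro h2
          have h3 := (mem_own.mp h2).2
          exact hσ (h3.symm.trans hx)
        · rw [zer, if_pos]
          rw [mem_own]
          exact ⟨by rw [← hk3]; exact hjJ, hx⟩)
    refine ⟨l w, y w, E'', hE1, hΦ _ _ hw3.1 hE2.1, Or.inr ?_⟩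
    have h3 := card_lt_card hE2
    have h4 : t ≤ (E w).card := hw3.2.resolve_left hw1.2
    omega
  · exact stage_count hι (filter_subset _ _) (fun v hv => (hN v hv).2.2.2.2)
      (C := fun w => Co P (l w)) (fun v hv => card_Co hd (hN v hv).2.1.len_le)

/-- After enough stages all boundaries are small. -/
theorem FamP.stages (r : G.V) {dg : ℕ} (hd : ∀ i, G.deg i ≤ dg) {Φ : Finset G.V → Prop}
    (hΦ : ∀ E E', Φ E → E ⊆ E' → Φ E') {φ a b M : ℕ} [NeZero M] {ε η ι : ℝ}
    (hι : ((P.size * P.size * ((Fintype.card G.V).choose φ * k ^ (Fintype.card G.V - φ)) *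
      M ^ φ : ℕ) : ℝ) ≤ ι * W.card)
    (h : FamP P δ W e Φ a b ε η) :
    FamP P δ W e (fun E => Φ E ∧ (Bd E).card ≤ φ) a b
      (ε + (Fintype.card G.V + 1) * (ι + ((b - a) * dg : ℕ) / M))
      (η + (Fintype.card G.V + 1) * (1 / M)) := by
  have key : ∀ t : ℕ, FamP P δ W e (fun E => Φ E ∧ ((Bd E).card ≤ φ ∨ t ≤ E.card)) a b
      (ε + t * (ι + ((b - a) * dg : ℕ) / M)) (η + t * (1 / M)) := by
    intro t
    induction t with
    | zero =>
      refine h.mono (fun E hE => ⟨hE, Or.inr (Nat.zero_le _)⟩) ?_ ?_ <;> simp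
    | succ t ih =>
      refine (ih.stage r hd hΦ hι).mono (fun E hE => hE) (le_of_eq ?_) (le_of_eq ?_) <;>
        push_cast <;> ring
  refine (key (Fintype.card G.V + 1)).mono
    (fun E hE => ⟨hE.1, hE.2.resolve_right fun h2 => ?_⟩) (le_of_eq (by push_cast; ring))
    (le_of_eq (by push_cast; ring))
  have := card_le_univ E
  omega

end Dag

end Pool.Agent.W994.DE
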